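import Pool.Agent.H93.TW.Defs

/-!
# [EMB] Composition

`Z` a finite complete code over `α`; the words over the alphabet `Z` are embedded by
`emb Z l = product of the letters of l`.

Proof.
* `emb_injective`: `Z` is a code: `emb l = emb l'` gives `l.map val = l'.map val`, so `l = l'`.
* `emb_flatten`: `emb (l.flatten) = (l.map emb).flatten`.
* `isCode_of_emb`: `l₁.flatten = l₂.flatten` over the alphabet `Z` gives
  `(l₁.map emb).flatten = (l₂.map emb).flatten`, all words in the image; so
  `l₁.map emb = l₂.map emb` and `l₁ = l₂` by injectivity.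
* `comp_emb`: take `Ŷ` for `X`; `Y = image of Ŷ`. Code: if `l₁, l₂` are lists of words of `Y`,
  write them as `l̂₁.map emb`, `l̂₂.map emb`; equal products give `emb (l̂₁.flatten) = emb (l̂₂.flatten)`,
  so `l̂₁.flatten = l̂₂.flatten`, `l̂₁ = l̂₂`. Complete: given `w`, `u w v` is a product of words
  of `Z`, i.e. `u w v = emb ŵ`; `û ŵ v̂` is a product of words of `Ŷ`; apply `emb`.
-/

set_option autoImplicit false

namespace Pool.Agent.H93.TW

variable {α : Type}

/-- product of the letters (which are words) -/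
def emb (Z : Finset (List α)) (l : List {z // z ∈ Z}) : List α := (l.map Subtype.val).flatten

theorem emb_append (Z : Finset (List α)) (l l' : List {z // z ∈ Z}) :
    emb Z (l ++ l') = emb Z l ++ emb Z l' := by simp [emb]

theorem emb_flatten (Z : Finset (List α)) (l : List (List {z // z ∈ Z})) :
    emb Z l.flatten = (l.map (emb Z)).flatten := by
  induction l with
  | nil => simp [emb]
  | cons x l ih => rw [List.flatten_cons, emb_append, ih]; simp

theorem emb_injective {Z : Finset (List α)} (hZ : IsCode (Z : Set (List α))) :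
    Function.Injective (emb Z) := by
  intro l l' h
  have := hZ (l.map Subtype.val) (l'.map Subtype.val) (by
    intro x hx
    obtain ⟨y, -, rfl⟩ := List.mem_map.1 hx
    exact y.2) (by
    intro x hx
    obtain ⟨y, -, rfl⟩ := List.mem_map.1 hx
    exact y.2) h
  exact List.map_injective_iff.2 Subtype.val_injective this

theorem isCode_of_emb {Z : Finset (List α)} (hZ : IsCode (Z : Set (List α)))
    {X : Set (List {z // z ∈ Z})} (hX : IsCode (emb Z '' X)) : IsCode X := by
  intro l₁ l₂ h₁ h₂ e
  have := hX (l₁.map (emb Z)) (l₂.map (emb Z)) (by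
    intro x hx
    obtain ⟨y, hy, rfl⟩ := List.mem_map.1 hx
    exact ⟨y, h₁ y hy, rfl⟩) (by
    intro x hx
    obtain ⟨y, hy, rfl⟩ := List.mem_map.1 hx
    exact ⟨y, h₂ y hy, rfl⟩) (by rw [← emb_flatten, ← emb_flatten, e])
  exact List.map_injective_iff.2 (emb_injective hZ) this

/-- lift of a list of words of the image -/
theorem exists_lift {Z : Finset (List α)} {X : Set (List {z // z ∈ Z})} (l : List (List α))
    (h : ∀ x ∈ l, x ∈ emb Z '' X) : ∃ l' : List (List {z // z ∈ Z}),
      (∀ x ∈ l', x ∈ X) ∧ l = l'.map (emb Z) := by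
  induction l with
  | nil => exact ⟨[], by simp, rfl⟩
  | cons x l ih =>
    obtain ⟨l', h1, h2⟩ := ih (fun y hy => h y (by simp [hy]))
    obtain ⟨y, hy, e⟩ := h x (by simp)
    refine ⟨y :: l', ?_, by simp [h2, e]⟩
    intro w hw
    rcases List.mem_cons.1 hw with rfl | hw
    · exact hy
    · exact h1 w hw

theorem isCode_emb {Z : Finset (List α)} (hZ : IsCode (Z : Set (List α)))
    {X : Set (List {z // z ∈ Z})} (hX : IsCode X) : IsCode (emb Z '' X) := by
  intro l₁ l₂ h₁ h₂ e
  obtain ⟨m₁, hm₁, rfl⟩ := exists_lift l₁ h₁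
  obtain ⟨m₂, hm₂, rfl⟩ := exists_lift l₂ h₂
  rw [← emb_flatten, ← emb_flatten] at e
  rw [hX m₁ m₂ hm₁ hm₂ (emb_injective hZ e)]

/-- a product of words of `Z` is the image of a word over the alphabet `Z` -/
theorem exists_emb {Z : Finset (List α)} {w : List α} (h : w ∈ Star (Z : Set (List α))) :
    ∃ l : List {z // z ∈ Z}, emb Z l = w := by
  obtain ⟨l, hl, rfl⟩ := h
  refine ⟨l.attach.map (fun x => ⟨x.1, hl x.1 x.2⟩), ?_⟩
  unfold emb
  congr 1
  rw [List.map_map]
  have : (Subtype.val ∘ fun x : {x // x ∈ l} => (⟨x.1, hl x.1 x.2⟩ : {z // z ∈ Z})) = Subtype.val := by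
    funext x; rfl
  rw [this]
  exact List.attach_map_subtype_val l

theorem comp_emb {Z : Finset (List α)} (hZ : IsCode (Z : Set (List α)))
    (hc : IsComplete (Z : Set (List α))) {X : Set (List {z // z ∈ Z})} (hX : Comp X) :
    Comp (emb Z '' X) := by
  classical
  obtain ⟨Y, h1, h2, h3⟩ := hX
  refine ⟨Y.image (emb Z), ?_, ?_, ?_⟩
  · rw [Finset.coe_image]; exact Set.image_mono h1
  · rw [Finset.coe_image]; exact isCode_emb hZ h2
  · rw [Finset.coe_image]
    intro w
    obtain ⟨u, v, l, hl, e⟩ := hc w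
    obtain ⟨w', hw'⟩ := exists_emb (Z := Z) ⟨l, hl, rfl⟩
    obtain ⟨u', v', l', hl', e'⟩ := h3 w'
    refine ⟨emb Z u' ++ u, v ++ emb Z v', l'.map (emb Z), ?_, ?_⟩
    · intro x hx
      obtain ⟨y, hy, rfl⟩ := List.mem_map.1 hx
      exact ⟨y, hl' y hy, rfl⟩
    · rw [← emb_flatten, ← e', emb_append, emb_append, hw', ← e]
      simp

end Pool.Agent.H93.TW
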