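import Pool.Agent.H93.TW.MPset

/-!
# [D] The set `D` and the machine lemma
-/

set_option autoImplicit false

namespace Pool.Agent.H93.TW

variable {α σ : Type} {a b : α} {i j : ℕ} {M : Machine σ} {v : List ℕ}

/-- membership in `T` after the word does not depend on the word of `T` before it -/
def Good (a b : α) (i : ℕ) (M : Machine σ) (d : List α) : Prop :=
  (∀ t ∈ Tset a b i M, t ++ d ∈ Tset a b i M) ∨ (∀ t ∈ Tset a b i M, t ++ d ∉ Tset a b i M)

theorem good_of_const {d1 d2 : List α} (S : σ × ℕ)
    (h : ∀ t ∈ Tset a b i M, run a b i M (M.zero, 0) (t ++ d1) = S) :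
    Good a b i M (d1 ++ d2) := by
  by_cases hS : M.h (run a b i M S d2).1 ≤ (run a b i M S d2).2
  · left
    intro t ht
    simp only [Tset, Set.mem_ofPred_eq]
    rw [← List.append_assoc, run_append, h t ht]
    exact hS
  · right
    intro t ht
    simp only [Tset, Set.mem_ofPred_eq]
    rw [← List.append_assoc, run_append, h t ht]
    exact hS

/-- leading `b`'s -/
theorem exists_lead (b : α) (w : List α) :
    (∃ k, w = List.replicate k b) ∨ ∃ k c w', c ≠ b ∧ w = List.replicate k b ++ c :: w' := by
  induction w with
  | nil => left; exact ⟨0, rfl⟩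
  | cons c w ih =>
    by_cases hc : c = b
    · subst hc
      rcases ih with ⟨k, rfl⟩ | ⟨k, d, w', hd, rfl⟩
      · left; exact ⟨k + 1, by rw [List.replicate_succ]⟩
      · right; exact ⟨k + 1, d, w', hd, by rw [List.replicate_succ]; simp⟩
    · right; exact ⟨0, c, w, hc, by simp⟩

theorem good_other {k : ℕ} {c : α} (hb : c ≠ b) (ha : c ≠ a) (w : List α) :
    Good a b i M (List.replicate k b ++ c :: w) := by
  have : List.replicate k b ++ c :: w = (List.replicate k b ++ [c]) ++ w := by simp
  rw [this]
  refine good_of_const (M.zero, 0) ?_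
  intro t _
  rw [← List.append_assoc, run_append, run_cons, run_nil, step_other ha hb]

theorem good_long (hab : a ≠ b) (hM : M.Ok i j v) {k : ℕ} (hk : i ≤ k) (w : List α) :
    Good a b i M (List.replicate k b ++ a :: w) := by
  have : List.replicate k b ++ a :: w = (List.replicate k b ++ [a]) ++ w := by simp
  rw [this]
  refine good_of_const (M.one, 0) ?_
  intro t ht
  rw [run_append]
  exact run_Ba hab hM ht k hk

theorem good_gap (hab : a ≠ b) {k m : ℕ} (hm : m < i) (w : List α) :
    Good a b i M (List.replicate k b ++ a :: (List.replicate m b ++ a :: w)) := by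
  have : List.replicate k b ++ a :: (List.replicate m b ++ a :: w) =
      (List.replicate k b ++ [a] ++ List.replicate m b ++ [a]) ++ w := by simp
  rw [this]
  refine good_of_const (M.zero, 0) ?_
  intro t _
  rw [← List.append_assoc, run_append, run_cons, run_nil]
  rw [← List.append_assoc, run_append, run_b]
  have h0 : (run a b i M (M.zero, 0) (t ++ (List.replicate k b ++ [a]))).2 = 0 := by
    rw [← List.append_assoc, run_append, run_cons, run_nil]
    by_cases h : (run a b i M (M.zero, 0) (t ++ List.replicate k b)).2 < i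
    · rw [step_a_lt hab h]
    · rw [step_a_ge hab (Nat.not_lt.1 h)]
  rw [step_a_lt hab (by simp only [h0]; omega)]

theorem good_gap_other {k m : ℕ} {c : α} (hb : c ≠ b) (ha : c ≠ a) (w : List α) :
    Good a b i M (List.replicate k b ++ a :: (List.replicate m b ++ c :: w)) := by
  have : List.replicate k b ++ a :: (List.replicate m b ++ c :: w) =
      (List.replicate k b ++ [a] ++ List.replicate m b ++ [c]) ++ w := by simp
  rw [this]
  refine good_of_const (M.zero, 0) ?_
  intro t _
  rw [← List.append_assoc, run_append, run_cons, run_nil, step_other ha hb]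

theorem exists_good_suffix (hab : a ≠ b) (hM : M.Ok i j v) {L : ℕ} {w : List α}
    (hw : L + i + 1 ≤ w.length) (hlast : ∃ w', w = w' ++ [a]) :
    ∃ d, d <:+ w ∧ L ≤ d.length ∧ Good a b i M d := by
  have nob : ∀ (w' : List α) (k : ℕ), ¬ (∃ w'', List.replicate k b = w'' ++ [a]) := by
    rintro w' k ⟨w'', h⟩
    have : a ∈ List.replicate k b := by rw [h]; simp
    exact hab (List.eq_of_mem_replicate this)
  rcases exists_lead b w with ⟨k, rfl⟩ | ⟨k, c, w2, hc, rfl⟩
  · exact absurd hlast (nob [] k)
  · by_cases ha : c = a
    · subst ha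
      by_cases hk : i ≤ k
      · exact ⟨_, List.suffix_rfl, by omega, good_long hab hM hk w2⟩
      · push Not at hk
        rcases exists_lead b w2 with ⟨m, rfl⟩ | ⟨m, d, w3, hd, rfl⟩
        · exfalso
          obtain ⟨w', hw'⟩ := hlast
          rcases m with _ | m
          · simp at hw; omega
          · rw [List.replicate_succ'] at hw'
            have : List.replicate k b ++ c :: (List.replicate m b ++ [b]) =
              (List.replicate k b ++ c :: List.replicate m b) ++ [b] := by simp
            rw [this] at hw'
            have := List.append_inj_right' hw' rfl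
            simp at this
            exact hab this.symm
        · by_cases hda : d = c
          · subst hda
            by_cases hm : i ≤ m
            · refine ⟨List.replicate m b ++ d :: w3, ?_, ?_, good_long hab hM hm w3⟩
              · exact ⟨List.replicate k b ++ [d], by simp⟩
              · simp at hw ⊢; omega
            · exact ⟨_, List.suffix_rfl, by omega, good_gap hab (by omega) w3⟩
          · exact ⟨_, List.suffix_rfl, by omega, good_gap_other hd hda w3⟩
    · exact ⟨_, List.suffix_rfl, by omega, good_other hc ha w2⟩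

/-- the long leaves -/
def Dlong (a b : α) (i : ℕ) (M : Machine σ) (z : List α) : Set (List α) :=
  {d | (∃ d', d = d' ++ [a]) ∧ z.length ≤ d.length ∧ ¬ z <:+ d ∧ Good a b i M d ∧
    ∀ d', d' <:+ d → d' ≠ d → z.length ≤ d'.length → ¬ Good a b i M d'}

/-- the leaves -/
def Dset (a b : α) (i : ℕ) (M : Machine σ) (z : List α) : Set (List α) :=
  {d | d = [b] ∨ d = z ∨ (∃ c, c ≠ a ∧ c ≠ b ∧ d = [c]) ∨ d ∈ Dlong a b i M z}

theorem Dlong_length (hab : a ≠ b) (hM : M.Ok i j v) {z d : List α}
    (h : d ∈ Dlong a b i M z) : d.length ≤ z.length + i + 1 := by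
  by_contra hcon
  push Not at hcon
  obtain ⟨⟨d', hd'⟩, h1, h2, h3, h4⟩ := h
  -- the final segment of length `|z| + i + 1`
  obtain ⟨x, y, hxy, hy⟩ : ∃ x y, d = x ++ y ∧ y.length = z.length + i + 1 := by
    refine ⟨d.take (d.length - (z.length + i + 1)), d.drop (d.length - (z.length + i + 1)),
      by simp, ?_⟩
    rw [List.length_drop]; omega
  have hylast : ∃ w', y = w' ++ [a] := by
    have hy0 : y ≠ [] := by intro h; rw [h] at hy; simp at hy
    obtain ⟨w', c, hc⟩ : ∃ w' c, y = w' ++ [c] :=
      ⟨y.dropLast, y.getLast hy0, (List.dropLast_append_getLast hy0).symm⟩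
    refine ⟨w', ?_⟩
    have : (x ++ w') ++ [c] = d' ++ [a] := by rw [← hd', hxy, hc]; simp
    have := List.append_inj_right' this rfl
    rw [hc, this]
  obtain ⟨e, he1, he2, he3⟩ := exists_good_suffix (L := z.length) hab hM (by omega) hylast
  have hed : e <:+ d := he1.trans ⟨x, hxy.symm⟩
  refine h4 e hed ?_ he2 he3
  intro h
  have h5 := he1.length_le
  rw [h] at h5
  omega

theorem Dset_cover (hab : a ≠ b) (hM : M.Ok i j v) {z : List α} (w : List α)
    (hw : z.length + i + 1 ≤ w.length) : ∃ d ∈ Dset a b i M z, d <:+ w := by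
  have hw0 : w ≠ [] := by intro h; rw [h] at hw; simp at hw
  obtain ⟨w', c, hc⟩ : ∃ w' c, w = w' ++ [c] :=
    ⟨w.dropLast, w.getLast hw0, (List.dropLast_append_getLast hw0).symm⟩
  by_cases hb : c = b
  · exact ⟨[b], Or.inl rfl, ⟨w', by rw [hc, hb]⟩⟩
  by_cases ha : c = a
  · by_cases hz : z <:+ w
    · exact ⟨z, Or.inr (Or.inl rfl), hz⟩
    · subst ha
      obtain ⟨d0, h1, h2, h3⟩ := exists_good_suffix (L := z.length) hab hM hw ⟨w', hc⟩
      have hex : ∃ n, ∃ d, d <:+ w ∧ d.length = n ∧ z.length ≤ n ∧ d ≠ [] ∧ Good c b i M d := by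
        by_cases h0 : d0 = []
        · -- then every word is good enough: take a nonempty one
          subst h0
          obtain ⟨d1, h4, h5, h6⟩ := exists_good_suffix (L := z.length) hab hM hw ⟨w', hc⟩
          by_cases h7 : d1 = []
          · subst h7
            have hz0 : z.length = 0 := by simpa using h5
            have : z = [] := List.length_eq_zero_iff.1 hz0
            exact absurd (this ▸ List.nil_suffix) hz
          · exact ⟨d1.length, d1, h4, rfl, h5, h7, h6⟩
        · exact ⟨d0.length, d0, h1, rfl, h2, h0, h3⟩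
      classical
      obtain ⟨d, h4, h5, h6, h7, h8⟩ := Nat.find_spec hex
      refine ⟨d, Or.inr (Or.inr (Or.inr ⟨?_, by omega, fun h => hz (h.trans h4), h8, ?_⟩)), h4⟩
      · obtain ⟨d', e, he⟩ : ∃ w' c, d = w' ++ [c] :=
          ⟨d.dropLast, d.getLast h7, (List.dropLast_append_getLast h7).symm⟩
        refine ⟨d', ?_⟩
        obtain ⟨x, hx⟩ := h4
        have : (x ++ d') ++ [e] = w' ++ [c] := by rw [← hc, ← hx, he]; simp
        have := List.append_inj_right' this rfl
        rw [he, this]
      · intro d' h9 h10 h11 h12
        have hlt : d'.length < Nat.find hex := by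
          rw [← h5]
          rcases lt_or_eq_of_le h9.length_le with h | h
          · exact h
          · exact absurd (h9.eq_of_length h) h10
        have hd'0 : d' ≠ [] := by
          intro h
          subst h
          have hz0 : z.length = 0 := by simpa using h11
          have : z = [] := List.length_eq_zero_iff.1 hz0
          exact absurd (this ▸ List.nil_suffix) hz
        exact Nat.find_min hex hlt ⟨d', h9.trans h4, rfl, h11, hd'0, h12⟩
  · exact ⟨[c], Or.inr (Or.inr (Or.inl ⟨c, ha, hb, rfl⟩)), ⟨w', hc.symm⟩⟩

theorem Dset_suffix (hab : a ≠ b) {z : List α} (hz : ∃ z', z = z' ++ [a]) (hz2 : 2 ≤ z.length)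
    {d d' : List α} (hd : d ∈ Dset a b i M z) (hd' : d' ∈ Dset a b i M z) (h : d <:+ d') :
    d = d' := by
  have last : ∀ {x y : List α} {c e : α}, x ++ [c] <:+ y ++ [e] → c = e := by
    rintro x y c e ⟨t, ht⟩
    rw [← List.append_assoc] at ht
    have := List.append_inj_right' ht rfl
    simpa using this
  have hl := h.length_le
  obtain ⟨z', hz'⟩ := hz
  rcases hd with rfl | rfl | ⟨c, hca, hcb, rfl⟩ | ⟨⟨x, hx⟩, h1, h2, h3, h4⟩ <;>
  rcases hd' with rfl | rfl | ⟨c', hca', hcb', rfl⟩ | ⟨⟨x', hx'⟩, h1', h2', h3', h4'⟩
  · rfl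
  · rw [hz'] at h; exact absurd (last (x := []) h).symm hab
  · exact absurd (last (x := []) (y := []) h).symm hcb'
  · rw [hx'] at h; exact absurd (last (x := []) h).symm hab
  · simp at hl; omega
  · rfl
  · simp at hl; omega
  · exact absurd h h2'
  · exact absurd (last (x := []) (y := []) h) hcb
  · rw [hz'] at h; exact absurd (last (x := []) h) hca
  · have := last (x := []) (y := []) h; rw [this]
  · rw [hx'] at h; exact absurd (last (x := []) h) hca
  · simp at hl; omega
  · have : d = d' := h.eq_of_length (by omega)
    exact this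
  · simp at hl; omega
  · by_contra hne
    exact h4' d h hne h1 h3

theorem count_a_enc_nil [DecidableEq α] (hab : a ≠ b) (i k : ℕ) :
    (Ba a b i ++ List.replicate k b).count a = 1 := by
  simp only [Ba, List.count_append, List.count_replicate, List.count_singleton]
  have : ¬ (b == a) = true := by simp [Ne.symm hab]
  simp [this]

/-- the machine lemma -/
theorem comp_of_machine [Finite α] (hab : a ≠ b) (hj : 1 ≤ j) (hv : v ≠ [])
    (hvi : ∀ g ∈ v, i ≤ g) (hM : M.Ok i j v) :
    Comp {[b], List.replicate i b ++ enc a b [] j, enc a b v 0} := by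
  have hzlast : ∀ w : List ℕ, ∃ z', enc a b w 0 = z' ++ [a] := by
    intro w
    induction w with
    | nil => exact ⟨[], by simp [enc]⟩
    | cons g w ih =>
      obtain ⟨z', hz'⟩ := ih
      exact ⟨(a :: List.replicate g b) ++ z', by rw [enc, hz']; simp⟩
  have hzlen : 2 ≤ (enc a b v 0).length := by
    cases v with
    | nil => exact absurd rfl hv
    | cons g w =>
      obtain ⟨z', hz'⟩ := hzlast w
      rw [enc, hz']; simp; omega
  set z := enc a b v 0 with hz
  have hTz : ∀ t ∈ Tset a b i M, t ++ z ∈ Tset a b i M := by
    intro t ht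
    simp only [Tset, Set.mem_ofPred_eq] at ht ⊢
    rw [run_append, hz]
    generalize run a b i M (M.zero, 0) t = S at ht ⊢
    obtain ⟨s, n⟩ := S
    rw [run_enc hab v hvi]
    simp only at ht ⊢
    by_cases h : n < i
    · simp only [h, if_true, hM.acc0, hM.h_zero, le_refl]
    · simp only [h, if_false]
      rw [hM.acc s n ht (Nat.not_lt.1 h), hM.h_zero]
  have hTb : ∀ t ∈ Tset a b i M, t ++ [b] ∈ Tset a b i M := by
    intro t ht
    simp only [Tset, Set.mem_ofPred_eq] at ht ⊢
    rw [run_append, run_cons, step_b, run_nil]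
    simp only; omega
  have hTc : ∀ c, c ≠ a → c ≠ b → ∀ t ∈ Tset a b i M, t ++ [c] ∈ Tset a b i M := by
    intro c ha hb t _
    simp only [Tset, Set.mem_ofPred_eq]
    rw [run_append, run_cons, step_other ha hb, run_nil]
    simp only [hM.h_zero]; omega
  obtain ⟨Y, hY, hcode, hcomp⟩ := t0 (Tset a b i M) (Pset a b i M) (Dset a b i M z)
    (z.length + i + 1) ((M.R + 1) * (M.H + i + 1) + M.H + z.length + i + 1)
    (nil_mem_T hM) (by
      rintro (h | h | ⟨c, -, -, h⟩ | ⟨⟨x, h⟩, -⟩)
      · simp at h
      · rw [← h] at hzlen; simp at hzlen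
      · simp at h
      · simp at h)
    (by intro p hp; have := P_bound hab hM hp; omega)
    (by
      rintro d (rfl | rfl | ⟨c, -, -, rfl⟩ | h)
      · simp
      · omega
      · simp
      · have := Dlong_length hab hM h; omega)
    (exists_factor hab hM)
    (fun t ht t' ht' p hp p' hp' e => factor_unique hab hM ht ht' hp hp' e)
    (fun d hd d' hd' h => Dset_suffix hab (hzlast v) hzlen hd hd' h)
    (Dset_cover hab hM)
    (by
      intro p hp d hd
      rcases hp with rfl | ⟨⟨w, rfl⟩, -⟩
      · simp only [List.append_nil]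
        rcases hd with rfl | rfl | ⟨c, hca, hcb, rfl⟩ | h
        · left; exact hTb
        · left; exact hTz
        · left; exact hTc c hca hcb
        · exact h.2.2.2.1
      · have hg : Good a b i M (Ba a b i ++ (w ++ d)) := by
          refine good_of_const (M.one, 0) ?_
          intro t ht
          rw [run_append]
          exact run_Ba hab hM ht i le_rfl
        rcases hg with h | h
        · left; intro t ht; have := h t ht; simpa using this
        · right; intro t ht; have := h t ht; simpa using this)
  refine ⟨Y, ?_, hcode, hcomp⟩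
  intro x hx
  simp only [Set.mem_insert_iff, Set.mem_singleton_iff] at hx
  rcases hx with rfl | rfl | rfl
  · have := hY [] (Or.inl rfl) [b] (Or.inl rfl) (by simpa using hTb)
    simpa using this
  · obtain ⟨k, rfl⟩ : ∃ k, j = k + 1 := ⟨j - 1, by omega⟩
    have e : List.replicate i b ++ enc a b [] (k + 1) =
        (Ba a b i ++ List.replicate k b) ++ [b] := by
      rw [enc, List.replicate_succ', Ba]; simp
    rw [e]
    refine hY (Ba a b i ++ List.replicate k b) ?_ [b] (Or.inl rfl) ?_
    · refine Or.inr ⟨List.prefix_append _ _, ?_⟩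
      intro g r e1 hg hr
      have hBg := Ba_prefix_of_cut hab (List.prefix_append _ _) e1 hg hr
      rcases hr with rfl | hr
      · rw [List.append_nil] at e1
        rw [← e1]
        simp only [Tset, Set.mem_ofPred_eq, Ba]
        rw [run_append, run_Ba hab hM (by simp [hM.h_zero]) i le_rfl, run_b]
        simp only [hM.h_one]
        omega
      · exfalso
        classical
        have hc := count_a_enc_nil hab i k
        rw [e1, List.count_append] at hc
        have m1 : a ∈ g := hBg.subset (by simp [Ba])
        have m2 : a ∈ r := hr.subset (by simp [Ba])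
        have c1 := List.count_pos_iff.2 m1
        have c2 := List.count_pos_iff.2 m2
        omega
    · intro t ht
      simp only [Tset, Set.mem_ofPred_eq]
      rw [List.append_assoc, run_append, List.append_assoc, run_append, Ba,
        run_Ba hab hM ht i le_rfl, run_append, run_b, run_cons, step_b, run_nil]
      simp only [hM.h_one]
      omega
  · have := hY [] (Or.inl rfl) z (Or.inr (Or.inl rfl)) (by simpa using hTz)
    simpa using this

end Pool.Agent.H93.TW
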