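import Pool.Agent.H93.TW.MRun

/-!
# [H] The machine with an accept set

States `none` = zero, `some none` = one, `some (some ν)` = path `ν`.
-/

set_option autoImplicit false

namespace Pool.Agent.H93.TW

open Classical in
/-- the node of the list `w` -/
noncomputable def node (Acc : List (List ℕ)) (w : List ℕ) : Option (Option (List ℕ)) :=
  if w ∈ Acc then none else if ∃ A ∈ Acc, w <+: A then some (some w) else none

open Classical in
/-- the machine H -/
noncomputable def mH (j m' H n : ℕ) (Acc : List (List ℕ)) :
    Machine (Option (Option (List ℕ))) where
  zero := none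
  one := some none
  h := fun s => match s with
    | none => 0
    | some none => j
    | some (some _) => H
  del := fun s g => match s with
    | none => some none
    | some none => if j ≤ g then some none else if g = m' then node Acc [] else none
    | some (some w) => if H ≤ g then some none else node Acc (w ++ [g])
  rk := fun s => match s with
    | none => 0
    | some none => 0
    | some (some w) => min (w.length + 1) (n + 1)
  R := n + 1
  H := max H j

variable {j m' H n : ℕ} {Acc : List (List ℕ)}

theorem node_acc {w : List ℕ} (h : w ∈ Acc) : node Acc w = none := by simp [node, h]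

theorem node_path {w A : List ℕ} (h : w ∉ Acc) (hA : A ∈ Acc) (hw : w <+: A) :
    node Acc w = some (some w) := by
  have : ∃ A ∈ Acc, w <+: A := ⟨A, hA, hw⟩
  simp only [node, h, if_false, this, if_true]

theorem node_none {w : List ℕ} (h : ∀ A ∈ Acc, ¬ w <+: A) : node Acc w = none := by
  by_cases h1 : w ∈ Acc
  · exact node_acc h1
  · have : ¬ ∃ A ∈ Acc, w <+: A := by
      rintro ⟨A, hA, hw⟩
      exact h A hA hw
    simp only [node, h1, if_false, this]

theorem mH_follow (w : List ℕ) : ∀ u : List ℕ, (u ++ w ∈ Acc) →
    (∀ x ∈ Acc, x <+: u ++ w → x = u ++ w) → (∀ g ∈ w, g < H) →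
    w.foldl (mH j m' H n Acc).del (node Acc u) = none := by
  induction w with
  | nil =>
    intro u h1 _ _
    rw [List.append_nil] at h1
    rw [List.foldl_nil, node_acc h1]
  | cons g w ih =>
    intro u h1 h2 h3
    have hu : u ∉ Acc := by
      intro h
      have := h2 u h (List.prefix_append _ _)
      have := congrArg List.length this
      simp at this
    rw [List.foldl_cons, node_path hu h1 (List.prefix_append _ _)]
    have hg : ¬ H ≤ g := by have := h3 g (by simp); omega
    have : (mH j m' H n Acc).del (some (some u)) g = node Acc (u ++ [g]) := by
      simp only [mH, hg, if_false]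
    rw [this]
    refine ih (u ++ [g]) (by simpa using h1) ?_ (fun x hx => h3 x (by simp [hx]))
    intro x hx hxu
    have := h2 x hx (by simpa using hxu)
    simpa using this

theorem mH_one (l : List ℕ) (hl : ∀ g ∈ l, j ≤ g) :
    l.foldl (mH j m' H n Acc).del (some none) = some none := by
  induction l with
  | nil => rfl
  | cons g l ih =>
    have hg : j ≤ g := hl g (by simp)
    rw [List.foldl_cons]
    have : (mH j m' H n Acc).del (some none) g = some none := by
      simp only [mH, hg, if_true]
    rw [this]
    exact ih (fun x hx => hl x (by simp [hx]))

theorem mH_zero (l : List ℕ) (hl : ∀ g ∈ l, j ≤ g) (h0 : l ≠ []) :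
    l.foldl (mH j m' H n Acc).del none = some none := by
  cases l with
  | nil => exact absurd rfl h0
  | cons g l =>
    rw [List.foldl_cons]
    have : (mH j m' H n Acc).del none g = some none := rfl
    rw [this]
    exact mH_one l (fun x hx => hl x (by simp [hx]))

theorem mH_m (hm : m' < j) : (mH j m' H n Acc).del (some none) m' = node Acc [] := by
  have : ¬ j ≤ m' := by omega
  simp only [mH, this, if_false, if_true]

/-- the conditions, from the three accept statements -/
theorem mH_ok {i : ℕ} (hj : 1 ≤ j) {v : List ℕ} (hvi : ∀ g ∈ v, i ≤ g) (hvH : ∀ g ∈ v, g < H)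
    (hH : i < H)
    (hlen : ∀ A ∈ Acc, A.length ≤ n) (hent : ∀ A ∈ Acc, ∀ g ∈ A, ∃ x ∈ v, g = x - i)
    (hzero : (v.map (fun g => g - i)).foldl (mH j m' H n Acc).del none = none)
    (hone : (v.map (fun g => g - i)).foldl (mH j m' H n Acc).del (some none) = none)
    (hnode : (v.map (fun g => g - i)).foldl (mH j m' H n Acc).del (node Acc []) = none) :
    (mH j m' H n Acc).Ok i j v := by
  constructor
  · rfl
  · rfl
  · intro s hs
    match s with
    | none => exact absurd rfl hs
    | some none => exact hj
    | some (some w) => show 1 ≤ H; omega
  · intro s
    match s with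
    | none => exact Nat.zero_le _
    | some none => exact le_max_right _ _
    | some (some w) => exact le_max_left _ _
  · intro s
    match s with
    | none => exact Nat.zero_le _
    | some none => exact Nat.zero_le _
    | some (some w) => exact min_le_right _ _
  · intro s g h
    match s with
    | none => rfl
    | some none =>
      have : j ≤ g := h
      simp only [mH, this, if_true]
    | some (some w) =>
      have : H ≤ g := h
      simp only [mH, this, if_true]
  · intro s g hs hg
    match s with
    | none => exact absurd rfl hs
    | some none =>
      have h1 : ¬ j ≤ g := by have : g < j := hg; omega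
      by_cases h2 : g = m'
      · have h3 : (mH j m' H n Acc).del (some none) g = node Acc [] := by
          subst h2
          simp only [mH, h1, if_false, if_true]
        rw [h3]
        by_cases h4 : node Acc [] = none
        · left; exact h4
        · right
          by_cases h5 : [] ∈ Acc
          · exact absurd (node_acc h5) h4
          · by_cases h6 : ∃ A ∈ Acc, [] <+: A
            · obtain ⟨A, hA, hw⟩ := h6
              rw [node_path h5 hA hw]
              show 0 < min (0 + 1) (n + 1)
              omega
            · exact absurd (node_none (fun A hA hw => h6 ⟨A, hA, hw⟩)) h4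
      · left
        simp only [mH, h1, h2, if_false]
    | some (some w) =>
      have h1 : ¬ H ≤ g := by have : g < H := hg; omega
      have h3 : (mH j m' H n Acc).del (some (some w)) g = node Acc (w ++ [g]) := by
        simp only [mH, h1, if_false]
      rw [h3]
      by_cases h5 : w ++ [g] ∈ Acc
      · left; exact node_acc h5
      · by_cases h6 : ∃ A ∈ Acc, w ++ [g] <+: A
        · right
          obtain ⟨A, hA, hw⟩ := h6
          rw [node_path h5 hA hw]
          show min (w.length + 1) (n + 1) < min ((w ++ [g]).length + 1) (n + 1)
          have h7 : (w ++ [g]).length < A.length := by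
            rcases lt_or_eq_of_le hw.length_le with h | h
            · exact h
            · exact absurd (hw.eq_of_length h ▸ hA) h5
          have h8 := hlen A hA
          simp only [List.length_append, List.length_singleton] at h7 ⊢
          omega
        · left
          exact node_none (fun A hA hw => h6 ⟨A, hA, hw⟩)
  · exact hzero
  · intro s k hs hk
    match s with
    | none => exact hone
    | some none =>
      by_cases h1 : j ≤ k - i
      · have : (mH j m' H n Acc).del (some none) (k - i) = some none := by
          simp only [mH, h1, if_true]
        rw [this]; exact hone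
      · by_cases h2 : k - i = m'
        · have : (mH j m' H n Acc).del (some none) (k - i) = node Acc [] := by
            simp only [mH, h2]
            rw [h2] at h1
            simp only [h1, if_false, if_true]
          rw [this]; exact hnode
        · have : (mH j m' H n Acc).del (some none) (k - i) = none := by
            simp only [mH, h1, h2, if_false]
          rw [this]; exact hzero
    | some (some w) =>
      have hk' : H ≤ k := hs
      by_cases h1 : H ≤ k - i
      · have : (mH j m' H n Acc).del (some (some w)) (k - i) = some none := by
          simp only [mH, h1, if_true]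
        rw [this]; exact hone
      · have : (mH j m' H n Acc).del (some (some w)) (k - i) = node Acc (w ++ [k - i]) := by
          simp only [mH, h1, if_false]
        rw [this, node_none]
        · exact hzero
        · intro A hA hw
          obtain ⟨x, hx, e⟩ := hent A hA (k - i) (hw.subset (by simp))
          have h2 := hvH x hx
          have h3 := hvi x hx
          omega

/-- if `p` is an initial segment of `B ++ p`, it is `B^k` followed by a proper initial segment
of `B` -/
theorem prefix_power {B : List ℕ} (hB : B ≠ []) (p : List ℕ) (h : p <+: B ++ p) :
    ∃ k G', p = (List.replicate k B).flatten ++ G' ∧ G' <+: B ∧ G' ≠ B := by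
  induction hn : p.length using Nat.strong_induction_on generalizing p with
  | _ n ih =>
    by_cases hl : p.length < B.length
    · refine ⟨0, p, by simp, ?_, ?_⟩
      · exact List.prefix_of_prefix_length_le h (List.prefix_append _ _) hl.le
      · rintro rfl; omega
    · have h1 : B <+: p := List.prefix_of_prefix_length_le (List.prefix_append _ _) h (by omega)
      obtain ⟨p1, rfl⟩ := h1
      have h2 : p1 <+: B ++ p1 := (List.prefix_append_right_inj B).1 h
      have hBpos : 0 < B.length := List.length_pos_iff.2 hB
      obtain ⟨k, G', e, h3, h4⟩ := ih p1.length (by rw [← hn]; simp; omega) p1 h2 rfl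
      refine ⟨k + 1, G', ?_, h3, h4⟩
      conv_lhs => rw [e]
      rw [List.replicate_succ, List.flatten_cons]; simp

theorem prefix_of_append_singleton {G' G : List ℕ} {m : ℕ} (h : G' <+: G ++ [m])
    (hne : G' ≠ G ++ [m]) : G' <+: G := by
  have hl : G'.length ≤ G.length := by
    rcases lt_or_eq_of_le h.length_le with h1 | h1
    · simp at h1; omega
    · exact absurd (h.eq_of_length h1) hne
  exact List.prefix_of_prefix_length_le h (List.prefix_append _ _) hl

theorem prefix_map_sub {i : ℕ} {p v : List ℕ} (hp : ∀ g ∈ p, i ≤ g) (hv : ∀ g ∈ v, i ≤ g)
    (h : p.map (fun g => g - i) <+: v.map (fun g => g - i)) : p <+: v := by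
  induction p generalizing v with
  | nil => exact List.nil_prefix
  | cons x p ih =>
    cases v with
    | nil => simp at h
    | cons y v =>
      rw [List.map_cons, List.map_cons, List.cons_prefix_cons] at h
      rw [List.cons_prefix_cons]
      refine ⟨?_, ih (fun g hg => hp g (by simp [hg])) (fun g hg => hv g (by simp [hg])) h.2⟩
      have h1 := hp x (by simp)
      have h2 := hv y (by simp)
      have := h.1
      omega

/-- machine H: the first entry is big, `v` is not periodic -/
theorem machH {i : ℕ} (hj : 1 ≤ j) {v G0 p : List ℕ} {m1 : ℕ} (hv : v = G0 ++ m1 :: p)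
    (hG0 : G0 ≠ []) (hG : ∀ g ∈ G0, i + j ≤ g) (hm1 : m1 < i + j) (hvi : ∀ g ∈ v, i ≤ g)
    (hnp : ¬ Periodic (i + j) v) :
    ∃ M : Machine (Option (Option (List ℕ))), M.Ok i j v := by
  set c : ℕ → ℕ := fun g => g - i with hc
  have hvH : ∀ g ∈ v, g < v.foldr max i + 1 := by
    have : ∀ (w : List ℕ), ∀ g ∈ w, g ≤ w.foldr max i := by
      intro w
      induction w with
      | nil => simp
      | cons x w ih =>
        intro g hg
        rw [List.foldr_cons]
        rcases List.mem_cons.1 hg with rfl | hg
        · exact le_max_left _ _
        · exact (ih g hg).trans (le_max_right _ _)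
    intro g hg
    have := this v g hg
    omega
  have hH : i < v.foldr max i + 1 := by
    have : ∀ (w : List ℕ), i ≤ w.foldr max i := by
      intro w
      induction w with
      | nil => simp
      | cons x w ih => rw [List.foldr_cons]; exact ih.trans (le_max_right _ _)
    have := this v
    omega
  set H := v.foldr max i + 1 with hHdef
  have hm1i : i ≤ m1 := hvi m1 (by rw [hv]; simp)
  have hm' : m1 - i < j := by omega
  have hGc : ∀ g ∈ G0.map c, j ≤ g := by
    intro g hg
    obtain ⟨x, hx, rfl⟩ := List.mem_map.1 hg
    have := hG x hx
    simp only [hc]; omega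
  have hpi : ∀ g ∈ p, i ≤ g := fun g hg => hvi g (by rw [hv]; simp [hg])
  have hmap : v.map c = G0.map c ++ (m1 - i) :: p.map c := by
    rw [hv, List.map_append, List.map_cons]
  have hlt : ∀ g ∈ v.map c, g < H := by
    intro g hg
    obtain ⟨x, hx, rfl⟩ := List.mem_map.1 hg
    have := hvH x hx
    simp only [hc]; omega
  have hlt' : ∀ g ∈ p.map c, g < H := by
    intro g hg
    exact hlt g (by rw [hmap]; simp [hg])
  -- reading from zero and one
  have red0 : ∀ Acc, (v.map c).foldl (mH j (m1 - i) H v.length Acc).del none =
      (p.map c).foldl (mH j (m1 - i) H v.length Acc).del (node Acc []) := by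
    intro Acc
    rw [hmap, List.foldl_append, mH_zero _ hGc (by simpa using hG0), List.foldl_cons, mH_m hm']
  have red1 : ∀ Acc, (v.map c).foldl (mH j (m1 - i) H v.length Acc).del (some none) =
      (p.map c).foldl (mH j (m1 - i) H v.length Acc).del (node Acc []) := by
    intro Acc
    rw [hmap, List.foldl_append, mH_one _ hGc, List.foldl_cons, mH_m hm']
  by_cases hpv : p <+: v
  · -- case 2
    have hpv' : p <+: (G0 ++ [m1]) ++ p := by
      have : (G0 ++ [m1]) ++ p = v := by rw [hv]; simp
      rw [this]; exact hpv
    obtain ⟨k, G', hk, hG1, hG2⟩ := prefix_power (B := G0 ++ [m1]) (by simp) p hpv'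
    have hG3 : G' <+: G0 := prefix_of_append_singleton hG1 hG2
    have hG4 : G' ≠ G0 := by
      rintro rfl
      apply hnp
      refine ⟨G', m1, k + 1, hm1, hG, ?_⟩
      rw [hv, hk, List.replicate_succ, List.flatten_cons]
      simp
    obtain ⟨G2, hG5⟩ := hG3
    have hG20 : G2 ≠ [] := by
      rintro rfl
      exact hG4 (by rw [← hG5]; simp)
    set Acc := [G'.map c] with hAcc
    have hG'lt : ∀ g ∈ G'.map c, g < H := by
      intro g hg
      refine hlt g ?_
      rw [hmap, ← hG5, List.map_append]
      simp only [List.mem_append]
      exact Or.inl (Or.inl hg)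
    have hfol : (G'.map c).foldl (mH j (m1 - i) H v.length Acc).del (node Acc []) = none := by
      refine mH_follow _ [] (by simp [hAcc]) ?_ hG'lt
      intro x hx _
      simpa [hAcc] using hx
    -- reading a block `G0 m1` from node []
    have hblock : ((G0 ++ [m1]).map c).foldl (mH j (m1 - i) H v.length Acc).del (node Acc []) =
        node Acc [] := by
      rw [← hG5, List.map_append, List.map_append, List.foldl_append, List.foldl_append, hfol,
        mH_zero (G2.map c) ?_ (by simpa using hG20)]
      · exact mH_m hm'
      · intro g hg
        refine hGc g ?_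
        rw [← hG5, List.map_append]
        exact List.mem_append_right _ hg
    have hblocks : ∀ k, ((List.replicate k (G0 ++ [m1])).flatten.map c).foldl
        (mH j (m1 - i) H v.length Acc).del (node Acc []) = node Acc [] := by
      intro k
      induction k with
      | zero => simp
      | succ k ih =>
        rw [List.replicate_succ, List.flatten_cons, List.map_append, List.foldl_append, hblock, ih]
    have hp0 : (p.map c).foldl (mH j (m1 - i) H v.length Acc).del (node Acc []) = none := by
      rw [hk, List.map_append, List.foldl_append, hblocks, hfol]
    have hv0 : (v.map c).foldl (mH j (m1 - i) H v.length Acc).del (node Acc []) = none := by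
      have e : v.map c = (G0 ++ [m1]).map c ++ p.map c := by rw [hmap]; simp [hc]
      rw [e, List.foldl_append, hblock, hp0]
    refine ⟨mH j (m1 - i) H v.length Acc, mH_ok hj hvi hvH hH ?_ ?_ ?_ ?_ hv0⟩
    · intro A hA
      have : A = G'.map c := by simpa [hAcc] using hA
      rw [this, hv, ← hG5]
      simp
    · intro A hA g hg
      have hA' : A = G'.map c := by simpa [hAcc] using hA
      rw [hA'] at hg
      obtain ⟨x, hx, rfl⟩ := List.mem_map.1 hg
      exact ⟨x, by rw [hv, ← hG5]; simp [hx], rfl⟩
    · exact (red0 Acc).trans hp0
    · exact (red1 Acc).trans hp0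
  · -- case 1
    set Acc := [p.map c, v.map c] with hAcc
    have hnpre : ¬ p.map c <+: v.map c := fun h => hpv (prefix_map_sub hpi hvi h)
    have hp0 : (p.map c).foldl (mH j (m1 - i) H v.length Acc).del (node Acc []) = none := by
      refine mH_follow _ [] (by simp [hAcc]) ?_ hlt'
      intro x hx hx2
      simp only [hAcc, List.mem_cons, List.not_mem_nil, or_false] at hx
      rcases hx with rfl | rfl
      · rfl
      · exfalso
        have := hx2.length_le
        rw [hmap] at this
        simp at this
        omega
    have hv0 : (v.map c).foldl (mH j (m1 - i) H v.length Acc).del (node Acc []) = none := by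
      refine mH_follow _ [] (by simp [hAcc]) ?_ hlt
      intro x hx hx2
      simp only [hAcc, List.mem_cons, List.not_mem_nil, or_false] at hx
      rcases hx with rfl | rfl
      · exact absurd hx2 hnpre
      · rfl
    refine ⟨mH j (m1 - i) H v.length Acc, mH_ok hj hvi hvH hH ?_ ?_ ?_ ?_ hv0⟩
    · intro A hA
      simp only [hAcc, List.mem_cons, List.not_mem_nil, or_false] at hA
      rcases hA with rfl | rfl
      · rw [hv]; simp; omega
      · simp
    · intro A hA g hg
      simp only [hAcc, List.mem_cons, List.not_mem_nil, or_false] at hA
      rcases hA with rfl | rfl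
      · obtain ⟨x, hx, rfl⟩ := List.mem_map.1 hg
        exact ⟨x, by rw [hv]; simp [hx], rfl⟩
      · obtain ⟨x, hx, rfl⟩ := List.mem_map.1 hg
        exact ⟨x, hx, rfl⟩
    · exact (red0 Acc).trans hp0
    · exact (red1 Acc).trans hp0

end Pool.Agent.H93.TW
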