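import Pool.Agent.H93.TW.MRun

/-!
# [S], [NB] Two families of machines (states are numbers, `0` = zero, `1` = one)
-/

set_option autoImplicit false

namespace Pool.Agent.H93.TW

/-- machine S: after a big gap (`≥ j`) count `e` small gaps -/
def mS (j e : ℕ) : Machine ℕ where
  zero := 0
  one := 1
  h := fun s => if s = 0 then 0 else j
  del := fun s g => if s = 0 then 1 else if j ≤ g then 1 else if s + 1 ≤ e then s + 1 else 0
  rk := fun s => min s e
  R := e
  H := j

theorem mS_small (j e : ℕ) (l : List ℕ) (hl : ∀ g ∈ l, g < j) (hl0 : l ≠ []) :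
    ∀ s, 1 ≤ s → s + l.length = e + 1 → l.foldl (mS j e).del s = 0 := by
  induction l with
  | nil => exact absurd rfl hl0
  | cons g l ih =>
    intro s hs hle
    have hg : g < j := hl g (by simp)
    rw [List.foldl_cons]
    simp only [List.length_cons] at hle
    by_cases h0 : l = []
    · subst h0
      have h1 : ¬ s = 0 := by omega
      have h2 : ¬ j ≤ g := by omega
      have h3 : ¬ s + 1 ≤ e := by simp at hle; omega
      simp only [mS, h1, h2, h3, if_true, if_false, List.foldl_nil]
    · have h1 : ¬ s = 0 := by omega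
      have h2 : ¬ j ≤ g := by omega
      have hpos : 0 < l.length := List.length_pos_iff.2 h0
      have h3 : s + 1 ≤ e := by omega
      have : (mS j e).del s g = s + 1 := by simp only [mS, h1, h2, h3, if_true, if_false]
      rw [this]
      exact ih (fun x hx => hl x (by simp [hx])) h0 (s + 1) (by omega) (by omega)

theorem mS_acc {i j : ℕ} (hj : 1 ≤ j) {v v1 v2 : List ℕ} {g0 : ℕ}
    (hv : v = v1 ++ g0 :: v2) (hg0 : i + j ≤ g0) (h2 : ∀ g ∈ v2, g < i + j) (h2' : v2 ≠ [])
    (s : ℕ) : (v.map (fun g => g - i)).foldl (mS j v2.length).del s = 0 := by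
  rw [hv, List.map_append, List.map_cons, List.foldl_append, List.foldl_cons]
  have h1 : ∀ s', (mS j v2.length).del s' (g0 - i) = 1 := by
    intro s'
    have : j ≤ g0 - i := by omega
    by_cases h : s' = 0 <;> simp [mS, h, this]
  rw [h1]
  refine mS_small j _ _ ?_ (by simpa using h2') 1 le_rfl (by simp; omega)
  intro g hg
  obtain ⟨x, hx, rfl⟩ := List.mem_map.1 hg
  have := h2 x hx
  omega

theorem machS {i j : ℕ} (hj : 1 ≤ j) {v v1 v2 : List ℕ} {g0 : ℕ}
    (hv : v = v1 ++ g0 :: v2) (hg0 : i + j ≤ g0) (h2 : ∀ g ∈ v2, g < i + j) (h2' : v2 ≠ []) :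
    ∃ M : Machine ℕ, M.Ok i j v := by
  refine ⟨mS j v2.length, ?_⟩
  have hpos : 0 < v2.length := List.length_pos_iff.2 h2'
  constructor
  · simp [mS]
  · simp [mS]
  · intro s hs
    have : ¬ s = 0 := hs
    simp [mS, this, hj]
  · intro s
    by_cases h : s = 0 <;> simp [mS, h]
  · intro s; simp [mS]
  · intro s g h
    by_cases h0 : s = 0
    · simp [mS, h0]
    · have : j ≤ g := by simpa [mS, h0] using h
      simp [mS, h0, this]
  · intro s g hs hg
    have h0 : ¬ s = 0 := hs
    have hg' : ¬ j ≤ g := by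
      have : g < j := by simpa [mS, h0] using hg
      omega
    by_cases h3 : s + 1 ≤ v2.length
    · right
      have : (mS j v2.length).del s g = s + 1 := by
        simp only [mS, h0, hg', h3, if_true, if_false]
      rw [this]
      simp only [mS]
      omega
    · left
      simp only [mS, h0, hg', h3, if_false]
  · exact mS_acc hj hv hg0 h2 h2' _
  · intro s n _ _
    exact mS_acc hj hv hg0 h2 h2' _

/-- machine NB: `1..L` = `A_0..A_(L-1)`, `L+1..2L` = `P_0..P_(L-1)` -/
def mN (j L : ℕ) : Machine ℕ where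
  zero := 0
  one := 1
  h := fun s => if s = 0 then 0 else j
  del := fun s g => if s = 0 then 1 else if j ≤ g then 1
    else if g + 1 = j then (if s = L ∨ 2 * L ≤ s then 0 else s + 1)
    else (if s ≤ L then L + 1 else 0)
  rk := fun s => min s (2 * L)
  R := 2 * L
  H := j

/-- `k` gaps `C = j - 1` from a state in the first row -/
theorem mN_C (j L : ℕ) (hj : 1 ≤ j) (k : ℕ) : ∀ s, 1 ≤ s → s + k ≤ L →
    (List.replicate k (j - 1)).foldl (mN j L).del s = s + k := by
  induction k with
  | zero => intro s _ _; simp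
  | succ k ih =>
    intro s hs hk
    rw [List.replicate_succ, List.foldl_cons]
    have h0 : ¬ s = 0 := by omega
    have h1 : ¬ j ≤ j - 1 := by omega
    have h2 : j - 1 + 1 = j := by omega
    have h3 : ¬ (s = L ∨ 2 * L ≤ s) := by omega
    have : (mN j L).del s (j - 1) = s + 1 := by simp only [mN, h0, h1, h2, h3, if_false, if_true]
    rw [this, ih (s + 1) (by omega) (by omega)]
    omega

/-- `k` gaps `C` from a state in the second row -/
theorem mN_C2 (j L : ℕ) (hj : 1 ≤ j) (k : ℕ) : ∀ s, L + 1 ≤ s → s + k ≤ 2 * L →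
    (List.replicate k (j - 1)).foldl (mN j L).del s = s + k := by
  induction k with
  | zero => intro s _ _; simp
  | succ k ih =>
    intro s hs hk
    rw [List.replicate_succ, List.foldl_cons]
    have h0 : ¬ s = 0 := by omega
    have h1 : ¬ j ≤ j - 1 := by omega
    have h2 : j - 1 + 1 = j := by omega
    have h3 : ¬ (s = L ∨ 2 * L ≤ s) := by omega
    have : (mN j L).del s (j - 1) = s + 1 := by simp only [mN, h0, h1, h2, h3, if_false, if_true]
    rw [this, ih (s + 1) (by omega) (by omega)]
    omega

theorem mN_del0 (j L g : ℕ) : (mN j L).del 0 g = 1 := by simp [mN]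

theorem mN_end (j L : ℕ) (hj : 1 ≤ j) {s : ℕ} (hs : s = L ∨ s = 2 * L) (hL : 1 ≤ L) :
    (mN j L).del s (j - 1) = 0 := by
  have h0 : ¬ s = 0 := by omega
  have h1 : ¬ j ≤ j - 1 := by omega
  have h2 : j - 1 + 1 = j := by omega
  have h3 : s = L ∨ 2 * L ≤ s := by omega
  simp only [mN, h0, h1, h2, h3, if_false, if_true]

/-- `L` gaps `C` from `1` or `L+1`: zero -/
theorem mN_full (j L : ℕ) (hj : 1 ≤ j) (hL : 1 ≤ L) {s : ℕ} (hs : s = 1 ∨ s = L + 1) :
    (List.replicate L (j - 1)).foldl (mN j L).del s = 0 := by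
  obtain ⟨k, rfl⟩ : ∃ k, L = k + 1 := ⟨L - 1, by omega⟩
  rw [List.replicate_succ', List.foldl_append]
  rcases hs with rfl | rfl
  · rw [mN_C j (k + 1) hj k 1 le_rfl (by omega), List.foldl_cons, List.foldl_nil]
    exact mN_end j (k + 1) hj (Or.inl (by omega)) hL
  · rw [mN_C2 j (k + 1) hj k (k + 1 + 1) le_rfl (by omega), List.foldl_cons, List.foldl_nil]
    exact mN_end j (k + 1) hj (Or.inr (by omega)) hL

/-- from a state `≤ L` the block `m C^L` leads to zero -/
theorem mN_block (j L : ℕ) (hj : 1 ≤ j) (hL : 1 ≤ L) {m s : ℕ} (hm : m + 1 < j)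
    (hs : s ≤ L) : (m :: List.replicate L (j - 1)).foldl (mN j L).del s = 0 := by
  rw [List.foldl_cons]
  refine mN_full j L hj hL ?_
  by_cases h0 : s = 0
  · left; rw [h0]; exact mN_del0 j L m
  · right
    have h1 : ¬ j ≤ m := by omega
    have h2 : ¬ m + 1 = j := by omega
    simp only [mN, h0, h1, h2, hs, if_false, if_true]

theorem mN_blocks (j L : ℕ) (hj : 1 ≤ j) (hL : 1 ≤ L) {m : ℕ} (hm : m + 1 < j) (K : ℕ)
    (hK : 1 ≤ K) : ∀ s, s ≤ L →
    (List.replicate K (m :: List.replicate L (j - 1))).flatten.foldl (mN j L).del s = 0 := by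
  induction K with
  | zero => omega
  | succ K ih =>
    intro s hs
    rw [List.replicate_succ, List.flatten_cons, List.foldl_append, mN_block j L hj hL hm hs]
    by_cases h : K = 0
    · subst h; simp
    · exact ih (by omega) 0 (by omega)

/-- reading `C^L` from any state `≤ 2L` leads to a state `≤ L` -/
theorem mN_CL (j L : ℕ) (hj : 1 ≤ j) (hL : 1 ≤ L) {s : ℕ} (hs : s ≤ 2 * L) :
    (List.replicate L (j - 1)).foldl (mN j L).del s ≤ L := by
  have hsplit : ∀ k, k < L → List.replicate L (j - 1) =
      List.replicate k (j - 1) ++ (j - 1) :: List.replicate (L - 1 - k) (j - 1) := by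
    intro k hk
    rw [← List.replicate_succ, List.replicate_append_replicate]
    congr 1; omega
  have fromZero : ∀ k, k ≤ L → (List.replicate k (j - 1)).foldl (mN j L).del 0 = k := by
    intro k hk
    rcases k with _ | k
    · simp
    · rw [List.replicate_succ, List.foldl_cons, mN_del0, mN_C j L hj k 1 le_rfl (by omega)]
      omega
  by_cases h0 : s = 0
  · rw [h0, fromZero L le_rfl]
  · by_cases h1 : s ≤ L
    · rw [hsplit (L - s) (by omega), List.foldl_append, mN_C j L hj (L - s) s (by omega) (by omega),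
        List.foldl_cons, mN_end j L hj (Or.inl (by omega)) hL, fromZero _ (by omega)]
      omega
    · rw [hsplit (2 * L - s) (by omega), List.foldl_append,
        mN_C2 j L hj (2 * L - s) s (by omega) (by omega),
        List.foldl_cons, mN_end j L hj (Or.inr (by omega)) hL, fromZero _ (by omega)]
      omega

theorem mN_le (j L : ℕ) (hL : 1 ≤ L) (s g : ℕ) : (mN j L).del s g ≤ 2 * L := by
  simp only [mN]
  split_ifs <;> omega

theorem mN_acc {j L m K s : ℕ} (hj : 1 ≤ j) (hL : 1 ≤ L) (hm : m + 1 < j) (hK : 1 ≤ K)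
    (hs : s ≤ 2 * L) :
    (List.replicate L (j - 1) ++
      (List.replicate K (m :: List.replicate L (j - 1))).flatten).foldl (mN j L).del s = 0 := by
  rw [List.foldl_append]
  exact mN_blocks j L hj hL hm K hK _ (mN_CL j L hj hL hs)

/-- `v = M^L (m M^L)^K`, `i + j = M + 1` -/
theorem machN {i j L m K N : ℕ} (hij : i + j = N + 1) (hL : 1 ≤ L) (hK : 1 ≤ K)
    (hmi : i ≤ m) (hm : m < N) {v : List ℕ}
    (hv : v = List.replicate L N ++ (List.replicate K (m :: List.replicate L N)).flatten) :
    ∃ M : Machine ℕ, M.Ok i j v := by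
  have hj : 1 ≤ j := by omega
  have hmap : v.map (fun g => g - i) = List.replicate L (j - 1) ++
      (List.replicate K ((m - i) :: List.replicate L (j - 1))).flatten := by
    rw [hv, List.map_append, List.map_replicate, List.map_flatten, List.map_replicate,
      List.map_cons, List.map_replicate, show N - i = j - 1 by omega]
  refine ⟨mN j L, ?_⟩
  constructor
  · simp [mN]
  · have : ¬ (1 : ℕ) = 0 := by omega
    simp [mN]
  · intro s hs
    have : ¬ s = 0 := hs
    simp [mN, this, hj]
  · intro s
    by_cases h : s = 0 <;> simp [mN, h]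
  · intro s; simp [mN]
  · intro s g h
    by_cases h0 : s = 0
    · simp [mN, h0]
    · have : j ≤ g := by simpa [mN, h0] using h
      simp [mN, h0, this]
  · intro s g hs hg
    have h0 : ¬ s = 0 := hs
    have hg' : ¬ j ≤ g := by
      have : g < j := by simpa [mN, h0] using hg
      omega
    simp only [mN, h0, hg', if_false]
    split_ifs <;> omega
  · rw [hmap]
    exact mN_acc hj hL (by omega) hK (by simp [mN])
  · intro s n _ _
    rw [hmap]
    exact mN_acc hj hL (by omega) hK (mN_le j L hL _ _)

end Pool.Agent.H93.TW
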