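import Pool.Agent.H93.TW.Red
import Pool.Agent.H93.TW.MDset
import Pool.Agent.H93.TW.MachS
import Pool.Agent.H93.TW.MachH

/-!
# [ENC], [TYPEI] Gap words, reversal, and the completion of the codes of type I
-/

set_option autoImplicit false

namespace Pool.Agent.H93.TW

variable {α : Type} {a b : α}

theorem enc_append_replicate (u : List ℕ) (q k : ℕ) :
    enc a b u q ++ List.replicate k b = enc a b u (q + k) := by
  induction u with
  | nil => simp [enc]
  | cons g u ih => rw [enc, List.append_assoc, ih]; rfl

theorem enc_append (u v : List ℕ) (g q : ℕ) :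
    enc a b (u ++ g :: v) q = enc a b u g ++ enc a b v q := by
  induction u with
  | nil => simp [enc]
  | cons x u ih =>
    rw [List.cons_append, enc, ih, enc]; simp

theorem enc_reverse (u : List ℕ) (q : ℕ) :
    (enc a b u q).reverse = List.replicate q b ++ enc a b u.reverse 0 := by
  induction u generalizing q with
  | nil => simp [enc]
  | cons g u ih =>
    have : enc a b (g :: u) q = enc a b [] g ++ enc a b u q := by
      simp [enc]
    have e2 : enc a b u.reverse g = enc a b u.reverse 0 ++ List.replicate g b := by
      rw [enc_append_replicate]; simp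
    rw [this, List.reverse_append, ih, List.reverse_cons, enc_append, e2]
    simp [enc]

theorem word_reverse (u : List ℕ) (i j : ℕ) :
    (List.replicate i b ++ enc a b u j).reverse = List.replicate j b ++ enc a b u.reverse i := by
  rw [List.reverse_append, enc_reverse, List.reverse_replicate, List.append_assoc,
    enc_append_replicate]
  simp

theorem power_swap (G : List ℕ) (m K : ℕ) :
    (List.replicate K (G ++ [m])).flatten ++ G = G ++ (List.replicate K (m :: G)).flatten := by
  induction K with
  | zero => simp
  | succ K ih =>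
    rw [List.replicate_succ, List.flatten_cons, List.append_assoc, ih, List.replicate_succ,
      List.flatten_cons]
    simp

theorem Periodic.reverse {s : ℕ} {v : List ℕ} (h : Periodic s v) : Periodic s v.reverse := by
  obtain ⟨G, m, K, hm, hG, rfl⟩ := h
  refine ⟨G.reverse, m, K, hm, by simpa using hG, ?_⟩
  rw [power_swap, List.reverse_append, List.reverse_flatten]
  congr 1
  simp

theorem rev_typeI (i j : ℕ) (v : List ℕ) :
    rev {[b], List.replicate i b ++ enc a b [] j, enc a b v 0} =
      {[b], List.replicate j b ++ enc a b [] i, enc a b v.reverse 0} := by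
  rw [rev_triple, word_reverse, enc_reverse]
  simp

/-- split at the first entry violating a property -/
theorem exists_split (P : ℕ → Prop) (v : List ℕ) (h : ∃ g ∈ v, ¬ P g) :
    ∃ v1 g v2, v = v1 ++ g :: v2 ∧ ¬ P g ∧ ∀ x ∈ v1, P x := by
  induction v with
  | nil => obtain ⟨g, hg, _⟩ := h; simp at hg
  | cons x v ih =>
    by_cases hx : P x
    · obtain ⟨g, hg, hgP⟩ := h
      rcases List.mem_cons.1 hg with rfl | hg
      · exact absurd hx hgP
      · obtain ⟨v1, g', v2, h1, h2, h3⟩ := ih ⟨g, hg, hgP⟩
        refine ⟨x :: v1, g', v2, by rw [h1]; simp, h2, ?_⟩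
        intro y hy
        rcases List.mem_cons.1 hy with rfl | hy
        · exact hx
        · exact h3 y hy
    · exact ⟨[], x, v, by simp, hx, by simp⟩

theorem typeI_first [Finite α] (hab : a ≠ b) {i j : ℕ} (hj : 1 ≤ j) {v : List ℕ} {x : ℕ}
    {w : List ℕ} (hx : v = x :: w) (hbig : i + j ≤ x) (hvi : ∀ g ∈ v, i ≤ g)
    (hnp : ¬ Periodic (i + j) v) :
    Comp {[b], List.replicate i b ++ enc a b [] j, enc a b v 0} := by
  have hex : ∃ g ∈ v, ¬ i + j ≤ g := by
    by_contra hcon
    push Not at hcon
    apply hnp
    exact ⟨v, 0, 0, by omega, hcon, by simp⟩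
  obtain ⟨v1, g, v2, h1, h2, h3⟩ := exists_split (fun g => i + j ≤ g) v hex
  have hv1 : v1 ≠ [] := by
    rintro rfl
    rw [hx] at h1
    have : x = g := by simpa using (List.cons.inj h1).1
    omega
  obtain ⟨M, hM⟩ := machH (i := i) (j := j) hj h1 hv1 h3 (by omega) hvi hnp
  exact comp_of_machine hab hj (by rw [hx]; simp) hvi hM

theorem typeI_big [Finite α] (hab : a ≠ b) {i j : ℕ} (hi : 1 ≤ i) (hj : 1 ≤ j) {v : List ℕ}
    (hbig : ∃ g ∈ v, i + j ≤ g) (hvi : ∀ g ∈ v, i ≤ g ∧ j ≤ g)
    (hnp : ¬ Periodic (i + j) v) :
    Comp {[b], List.replicate i b ++ enc a b [] j, enc a b v 0} := by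
  -- last big entry
  obtain ⟨g, hg, hgb⟩ := hbig
  obtain ⟨r1, g0, r2, h1, h2, h3⟩ := exists_split (fun g => ¬ i + j ≤ g) v.reverse
    ⟨g, by simpa using hg, by simpa using hgb⟩
  have hv : v = r2.reverse ++ g0 :: r1.reverse := by
    have := congrArg List.reverse h1
    rw [List.reverse_reverse] at this
    rw [this]; simp
  have hg0 : i + j ≤ g0 := by simpa using h2
  by_cases hr1 : r1 = []
  · -- last entry big
    subst hr1
    rw [← comp_rev_iff, rev_typeI]
    refine typeI_first hab hi (x := g0) (w := r2) (by simpa using h1) (by omega) ?_ ?_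
    · intro x hx
      exact (hvi x (by simpa using hx)).2
    · intro hp
      apply hnp
      have := hp.reverse
      rw [List.reverse_reverse, Nat.add_comm] at this
      exact this
  · obtain ⟨M, hM⟩ := machS (i := i) (j := j) hj hv hg0 (by
      intro x hx
      have := h3 x (by simpa using hx)
      omega) (by simpa using hr1)
    exact comp_of_machine hab hj (by rw [hv]; simp) (fun g hg => (hvi g hg).1) hM

theorem exists_max (v : List ℕ) (hv : v ≠ []) : ∃ N ∈ v, ∀ g ∈ v, g ≤ N := by
  induction v with
  | nil => exact absurd rfl hv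
  | cons x v ih =>
    by_cases h : v = []
    · subst h; exact ⟨x, by simp, by simp⟩
    · obtain ⟨N, h1, h2⟩ := ih h
      by_cases hx : x ≤ N
      · refine ⟨N, by simp [h1], ?_⟩
        intro g hg
        rcases List.mem_cons.1 hg with rfl | hg
        · exact hx
        · exact h2 g hg
      · refine ⟨x, by simp, ?_⟩
        intro g hg
        rcases List.mem_cons.1 hg with rfl | hg
        · exact le_rfl
        · have := h2 g hg; omega

theorem eq_replicate_of_bounds {G : List ℕ} {N : ℕ} (h1 : ∀ g ∈ G, g ≤ N) (h2 : ∀ g ∈ G, N ≤ g) :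
    G = List.replicate G.length N := by
  rw [List.eq_replicate_iff]
  exact ⟨rfl, fun g hg => le_antisymm (h1 g hg) (h2 g hg)⟩

theorem enc_mem_a (v : List ℕ) (q : ℕ) : a ∈ enc a b v q := by
  cases v <;> simp [enc]

/-- the second word of type I and the third are different -/
theorem second_ne_third (hab : a ≠ b) {i j : ℕ} {v : List ℕ} (hj : 1 ≤ j) :
    List.replicate i b ++ enc a b [] j ≠ enc a b v 0 := by
  intro h
  have h1 := congrArg List.reverse h
  rw [word_reverse, enc_reverse] at h1
  obtain ⟨k, rfl⟩ : ∃ k, j = k + 1 := ⟨j - 1, by omega⟩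
  rw [List.replicate_succ] at h1
  simp only [List.reverse_nil, List.replicate_zero, List.nil_append] at h1
  cases h2 : v.reverse with
  | nil =>
    rw [h2] at h1
    simp only [enc, List.cons_append, List.cons.injEq] at h1
    exact hab h1.1.symm
  | cons x w =>
    rw [h2] at h1
    simp only [enc, List.cons_append, List.cons.injEq] at h1
    exact hab h1.1.symm

theorem typeI [Finite α] (hab : a ≠ b) {i j : ℕ} (hi : 1 ≤ i) (hj : 1 ≤ j) {v : List ℕ}
    (hv0 : v ≠ []) (hvi : ∀ g ∈ v, i ≤ g ∧ j ≤ g) (hnp : ¬ Periodic (i + j) v) :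
    Comp {[b], List.replicate i b ++ enc a b [] j, enc a b v 0} := by
  by_cases hbig : ∃ g ∈ v, i + j ≤ g
  · exact typeI_big hab hi hj hbig hvi hnp
  · push Not at hbig
    obtain ⟨N, hN, hle⟩ := exists_max v hv0
    have hNlt := hbig N hN
    have hNi := (hvi N hN).1
    have hNj := (hvi N hN).2
    -- `v` is not constant
    have hnc : v ≠ List.replicate v.length N := by
      intro h
      apply hnp
      refine ⟨[], N, v.length, hNlt, by simp, ?_⟩
      conv_lhs => rw [h]
      simp
    have hiN : i < N := by
      by_contra hcon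
      apply hnc
      refine eq_replicate_of_bounds hle ?_
      intro g hg
      have := (hvi g hg).1
      omega
    have hbz : [b] ≠ enc a b v 0 := by
      intro h
      have : a ∈ [b] := by rw [h]; exact enc_mem_a v 0
      simp at this
      exact hab this
    -- reduction
    have hred : ∀ j', 1 ≤ j' → j' ≤ j →
        Comp {[b], List.replicate i b ++ enc a b [] j', enc a b v 0} →
        Comp {[b], List.replicate i b ++ enc a b [] j, enc a b v 0} := by
      intro j' h1 h2 h
      exact red' hab (le_refl i) h2 hbz (second_ne_third hab h1) h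
    by_cases hp : Periodic N v
    · obtain ⟨G, m, K, hm, hG, hvG⟩ := hp
      rw [power_swap] at hvG
      have hGle : ∀ g ∈ G, g ≤ N := fun g hg => hle g (by rw [hvG]; simp [hg])
      have hGr := eq_replicate_of_bounds hGle hG
      have hK : 1 ≤ K := by
        by_contra hcon
        have : K = 0 := by omega
        subst this
        simp at hvG
        apply hnc
        rw [hvG]; exact hGr
      have hmv : m ∈ v := by
        obtain ⟨K', rfl⟩ : ∃ k, K = k + 1 := ⟨K - 1, by omega⟩
        rw [hvG, List.replicate_succ]; simp
      have hL : 1 ≤ G.length := by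
        by_contra hcon
        have : G = [] := List.length_eq_zero_iff.1 (by omega)
        rw [hvG, this] at hN
        simp at hN
        omega
      refine hred (N + 1 - i) (by omega) (by omega) ?_
      rw [hGr] at hvG
      obtain ⟨M, hM⟩ := machN (i := i) (j := N + 1 - i) (L := G.length) (m := m) (K := K) (N := N)
        (by omega) hL hK (hvi m hmv).1 hm hvG
      exact comp_of_machine hab (by omega) hv0 (fun g hg => (hvi g hg).1) hM
    · refine hred (N - i) (by omega) (by omega) ?_
      refine typeI_big hab hi (by omega) ⟨N, hN, by omega⟩ ?_ ?_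
      · intro g hg
        have h1 := hvi g hg
        exact ⟨h1.1, by omega⟩
      · rw [show i + (N - i) = N by omega]; exact hp

end Pool.Agent.H93.TW
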