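import Pool.Agent.H93.TW.LemE

/-!
# [FIN] Decoding over `{b^n, g}`, the induction, the theorem
-/

set_option autoImplicit false

namespace Pool.Agent.H93.TW

/-- the induction statement -/
def Goal (N : ℕ) : Prop :=
  ∀ (α : Type) [Finite α] (b : α) (n : ℕ) (y z : List α), 1 ≤ n →
    IsCode ({List.replicate n b, y, z} : Set (List α)) → y ≠ z → y ≠ List.replicate n b →
    z ≠ List.replicate n b → n + y.length + z.length ≤ N → Comp {List.replicate n b, y, z}

variable {α : Type} {b : α}

theorem exists_lift_list {Z : Finset (List α)} (l : List (List α)) (h : ∀ x ∈ l, x ∈ Z) :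
    ∃ l' : List {z // z ∈ Z}, l'.map Subtype.val = l := by
  induction l with
  | nil => exact ⟨[], rfl⟩
  | cons x l ih =>
    obtain ⟨l', hl'⟩ := ih (fun y hy => h y (by simp [hy]))
    exact ⟨⟨x, h x (by simp)⟩ :: l', by simp [hl']⟩

theorem emb_length {Z : Finset (List α)} (hZ : [] ∉ Z) (l : List {z // z ∈ Z}) :
    l.length ≤ (emb Z l).length := by
  induction l with
  | nil => simp
  | cons x l ih =>
    have : emb Z (x :: l) = x.1 ++ emb Z l := by simp [emb]
    rw [this]
    have hx : 0 < x.1.length := List.length_pos_iff.2 (fun h => hZ (h ▸ x.2))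
    simp; omega

theorem emb_length_lt {Z : Finset (List α)} (hZ : [] ∉ Z) {l : List {z // z ∈ Z}}
    {c : {z // z ∈ Z}} (hc : c ∈ l) (h2 : 2 ≤ c.1.length) :
    l.length < (emb Z l).length := by
  induction l with
  | nil => simp at hc
  | cons x l ih =>
    have e : emb Z (x :: l) = x.1 ++ emb Z l := by simp [emb]
    rw [e]
    have hx : 0 < x.1.length := List.length_pos_iff.2 (fun h => hZ (h ▸ x.2))
    rcases List.mem_cons.1 hc with rfl | hc
    · have := emb_length hZ l
      simp; omega
    · have := ih hc
      simp; omega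

theorem nu_flatten_zero {l : List (List α)} (h : ∀ x ∈ l, nu b x = 0) : nu b l.flatten = 0 := by
  induction l with
  | nil => simp [nu]
  | cons x l ih =>
    rw [List.flatten_cons, nu_append, h x (by simp), ih (fun w hw => h w (by simp [hw]))]

theorem decode_step [Finite α] {N : ℕ} (IH : Goal N) {n : ℕ} {y z g : List α}
    (hg : Inc (List.replicate n b) g) (hy : y ∈ Star ({List.replicate n b, g} : Set (List α)))
    (hz : z ∈ Star ({List.replicate n b, g} : Set (List α)))
    (hX : IsCode ({List.replicate n b, y, z} : Set (List α))) (hyz : y ≠ z)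
    (hyb : y ≠ List.replicate n b) (hzb : z ≠ List.replicate n b) (hnu : nu b y ≠ 0)
    (hbig : 2 ≤ n ∨ 2 ≤ g.length) (hN : n + y.length + z.length ≤ N + 1) (hn : 1 ≤ n) :
    Comp {List.replicate n b, y, z} := by
  classical
  obtain ⟨Z', h1, h2, h3⟩ := exists_complete ({List.replicate n b, g} : Finset (List α)) (by
    refine ⟨?_, ?_⟩
    · simp only [Finset.coe_insert, Finset.coe_singleton, Set.mem_insert_iff,
        Set.mem_singleton_iff, not_or]
      exact ⟨hg.ne_nil.symm, hg.symm.ne_nil.symm⟩
    · intro x hx y hy hxy
      simp only [Finset.coe_insert, Finset.coe_singleton, Set.mem_insert_iff,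
        Set.mem_singleton_iff] at hx hy
      rcases hx with rfl | rfl <;> rcases hy with rfl | rfl
      · rfl
      · exact absurd hxy hg.1
      · exact absurd hxy hg.2
      · rfl)
  have hZ0 : [] ∉ Z' := h2.1
  have mB : List.replicate n b ∈ Z' := h1 (by simp)
  have mg : g ∈ Z' := h1 (by simp)
  obtain ⟨ly, hly, ey⟩ := hy
  obtain ⟨lz, hlz, ez⟩ := hz
  have hmem : ∀ x ∈ ({List.replicate n b, g} : Set (List α)), x ∈ Z' := by
    intro x hx
    simp only [Set.mem_insert_iff, Set.mem_singleton_iff] at hx
    rcases hx with rfl | rfl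
    · exact mB
    · exact mg
  obtain ⟨y', hy'⟩ := exists_lift_list (Z := Z') ly (fun x hx => hmem x (hly x hx))
  obtain ⟨z', hz'⟩ := exists_lift_list (Z := Z') lz (fun x hx => hmem x (hlz x hx))
  have ey' : emb Z' y' = y := by rw [emb, hy', ey]
  have ez' : emb Z' z' = z := by rw [emb, hz', ez]
  have eB' : emb Z' (List.replicate 1 ⟨List.replicate n b, mB⟩) = List.replicate n b := by
    simp [emb]
  have himg : emb Z' '' ({List.replicate 1 ⟨List.replicate n b, mB⟩, y', z'} :
      Set (List {z // z ∈ Z'})) = {List.replicate n b, y, z} := by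
    rw [Set.image_insert_eq, Set.image_insert_eq, Set.image_singleton, ey', ez', eB']
  have hgy : g ∈ ly := by
    by_contra hcon
    apply hnu
    have : ∀ x ∈ ly, nu b x = 0 := by
      intro x hx
      have := hly x hx
      simp only [Set.mem_insert_iff, Set.mem_singleton_iff] at this
      rcases this with rfl | rfl
      · exact nu_replicate n
      · exact absurd hx hcon
    rw [← ey]
    exact nu_flatten_zero this
  have hlen : 1 + y'.length + z'.length ≤ N := by
    have a1 := emb_length hZ0 y'
    have a2 := emb_length hZ0 z'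
    rw [ey'] at a1
    rw [ez'] at a2
    rcases hbig with hb | hb
    · omega
    · have hgy' : (⟨g, mg⟩ : {z // z ∈ Z'}) ∈ y' := by
        rw [← hy'] at hgy
        obtain ⟨x, hx, hxg⟩ := List.mem_map.1 hgy
        have : x = ⟨g, mg⟩ := Subtype.ext hxg
        rwa [this] at hx
      have a3 := emb_length_lt hZ0 hgy' hb
      rw [ey'] at a3
      omega
  have hres := IH {z // z ∈ Z'} ⟨List.replicate n b, mB⟩ 1 y' z' le_rfl
    (isCode_of_emb h2.isCode (by rw [himg]; exact hX))
    (fun h => hyz (by rw [← ey', ← ez', h]))
    (fun h => hyb (by rw [← ey', h, eB']))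
    (fun h => hzb (by rw [← ez', h, eB'])) hlen
  have := comp_emb h2.isCode h3 hres
  rwa [himg] at this

/-- `{b^n, b^k}` is not a code -/
theorem nu_ne_zero {n : ℕ} {y z : List α}
    (hX : IsCode ({List.replicate n b, y, z} : Set (List α))) (hyb : y ≠ List.replicate n b) :
    nu b y ≠ 0 := by
  intro h
  have hy := eq_replicate_of_nu h
  obtain ⟨k, hk⟩ : ∃ k, k = y.length := ⟨_, rfl⟩
  rw [← hk] at hy
  have hfl : ∀ p q : ℕ, (List.replicate p (List.replicate q b)).flatten =
      List.replicate (p * q) b := by
    intro p q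
    induction p with
    | zero => simp
    | succ p ih =>
      rw [List.replicate_succ, List.flatten_cons, ih, List.replicate_append_replicate]
      congr 1; ring
  have := hX (List.replicate n y) (List.replicate k (List.replicate n b)) (by
    intro x hx; rw [List.eq_of_mem_replicate hx]; simp) (by
    intro x hx; rw [List.eq_of_mem_replicate hx]; simp) (by
    rw [hfl]
    conv_lhs => rw [hy]
    rw [hfl, Nat.mul_comm])
  have hl := congrArg List.length this
  simp only [List.length_replicate] at hl
  exact hyb (by rw [hy, ← hl])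

/-- a product of `a`'s and `b`'s with a letter `a` -/
theorem exists_enc {a : α} (hab : a ≠ b) {w : List α}
    (hw : w ∈ Star ({List.replicate 1 b, [a]} : Set (List α))) (hn : nu b w ≠ 0) :
    ∃ (i : ℕ) (u : List ℕ) (j : ℕ), w = List.replicate i b ++ enc a b u j ∧
      nu b w = u.length + 1 := by
  have hlet : ∀ c ∈ w, c = a ∨ c = b := by
    obtain ⟨l, hl, rfl⟩ := hw
    intro c hc
    obtain ⟨x, hx, hcx⟩ := List.mem_flatten.1 hc
    have := hl x hx
    simp only [List.replicate_one, Set.mem_insert_iff, Set.mem_singleton_iff] at this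
    rcases this with rfl | rfl
    · right; simpa using hcx
    · left; simpa using hcx
  clear hw
  induction w with
  | nil => simp [nu] at hn
  | cons c w ih =>
    have hlet' : ∀ c ∈ w, c = a ∨ c = b := fun x hx => hlet x (by simp [hx])
    by_cases hw0 : nu b w = 0
    · have hwr := eq_replicate_of_nu hw0
      rcases hlet c (by simp) with rfl | rfl
      · refine ⟨0, [], w.length, ?_, ?_⟩
        · simp only [enc, List.replicate_zero, List.nil_append]
          rw [← hwr]
        · rw [nu_cons_ne hab, hw0]; simp
      · exfalso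
        apply hn
        have : c :: w = List.replicate (w.length + 1) c := by
          rw [List.replicate_succ, ← hwr]
        rw [this]; exact nu_replicate _
    · obtain ⟨i, u, j, e, h⟩ := ih hw0 hlet'
      rcases hlet c (by simp) with rfl | rfl
      · refine ⟨0, i :: u, j, ?_, ?_⟩
        · rw [e]; simp [enc]
        · rw [nu_cons_ne hab, h]; simp
      · refine ⟨i + 1, u, j, ?_, ?_⟩
        · rw [e, List.replicate_succ]; simp
        · rw [← h]; simp [nu]

/-- one of two words starts with a letter different from `b` -/
theorem margin_zero {a a' : α} (ha' : a' ≠ b) {i i' : ℕ} {u v : List ℕ} {j j' : ℕ}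
    (h : [a'] <+: List.replicate i b ++ enc a b u j ∨
      [a'] <+: List.replicate i' b ++ enc a b v j') : i = 0 ∨ i' = 0 := by
  have key : ∀ (i : ℕ) (w : List α), [a'] <+: List.replicate i b ++ w → i = 0 := by
    intro i w h
    rcases i with _ | i
    · rfl
    · exfalso
      rw [List.replicate_succ, List.cons_append, List.cons_prefix_cons] at h
      exact ha' h.1
  rcases h with h | h
  · left; exact key _ _ h
  · right; exact key _ _ h

theorem letter_of_small {n : ℕ} {g : List α} (hg : Inc (List.replicate n b) g)
    (h : ¬ (2 ≤ n ∨ 2 ≤ g.length)) (hn : 1 ≤ n) : n = 1 ∧ ∃ a, a ≠ b ∧ g = [a] := by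
  push Not at h
  have hn1 : n = 1 := by omega
  refine ⟨hn1, ?_⟩
  have hg0 : g ≠ [] := hg.symm.ne_nil
  match g, hg0, h.2, hg with
  | [a], _, _, hg =>
    refine ⟨a, ?_, rfl⟩
    rintro rfl
    rw [hn1] at hg
    exact hg.1 (List.prefix_rfl)
  | x :: y :: g, _, h, _ => simp at h

theorem goal_all (N : ℕ) : Goal N := by
  induction N with
  | zero =>
    intro α _ b n y z hn _ _ _ _ hN
    omega
  | succ N IH =>
    intro α _ b n y z hn hX hyz hyb hzb hN
    have nuy := nu_ne_zero hX hyb
    have hX' : IsCode ({List.replicate n b, z, y} : Set (List α)) := by rw [swap23]; exact hX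
    have nuz := nu_ne_zero hX' hzb
    rcases lemmaE hn nuy nuz with h | ⟨g, hg, hy, hz, hgcd, hsuf⟩
    · exact h
    by_cases hbig : 2 ≤ n ∨ 2 ≤ g.length
    · exact decode_step IH hg hy hz hX hyz hyb hzb nuy hbig hN hn
    obtain ⟨hn1, a, hab, rfl⟩ := letter_of_small hg hbig hn
    subst hn1
    -- the reversed code
    have hrev : rev ({List.replicate 1 b, y, z} : Set (List α)) =
        {List.replicate 1 b, y.reverse, z.reverse} := by
      rw [rev_triple]; simp
    have nuyr : nu b y.reverse ≠ 0 := by rwa [nu_reverse]
    have nuzr : nu b z.reverse ≠ 0 := by rwa [nu_reverse]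
    rcases lemmaE (b := b) hn nuyr nuzr with h | ⟨g', hg', hy', hz', _, hsuf'⟩
    · rw [← hrev] at h; exact comp_rev_iff.1 h
    by_cases hbig' : 2 ≤ 1 ∨ 2 ≤ g'.length
    · rw [← comp_rev_iff, hrev]
      have hXr := hX.rev
      rw [hrev] at hXr
      refine decode_step IH hg' hy' hz' hXr ?_ ?_ ?_ nuyr hbig' (by simpa using hN) hn
      · exact fun h => hyz (List.reverse_injective h)
      · intro h
        apply hyb
        have := congrArg List.reverse h
        simpa using this
      · intro h
        apply hzb
        have := congrArg List.reverse h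
        simpa using this
    obtain ⟨_, a', hab', rfl⟩ := letter_of_small hg' hbig' hn
    obtain ⟨i, u, j, ey, hu⟩ := exists_enc hab hy nuy
    obtain ⟨i', v, j', ez, hv⟩ := exists_enc hab hz nuz
    have hg1 : Nat.gcd (u.length + 1) (v.length + 1) = 1 := by
      rw [← hu, ← hv, ← hgcd]
      simp [nu, hab]
    have hi : i = 0 ∨ i' = 0 := by
      refine margin_zero (a := a) hab' (u := u) (v := v) (j := j) (j' := j') ?_
      rw [← ey, ← ez]
      rcases hsuf' with h | h
      · left; simpa using List.reverse_prefix.2 h
      · right; simpa using List.reverse_prefix.2 h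
    have hj : j = 0 ∨ j' = 0 := by
      refine margin_zero (a := a) hab (u := u.reverse) (v := v.reverse) (j := i) (j' := i') ?_
      rw [← word_reverse, ← word_reverse, ← ey, ← ez]
      rcases hsuf with h | h
      · left; simpa using List.reverse_prefix.2 h
      · right; simpa using List.reverse_prefix.2 h
    rw [ey, ez] at hX hyz ⊢
    exact core hab hg1 hi hj hyz hX

/-- every three-word code containing a power of a letter has a finite completion -/
theorem comp_three [Finite α] (X : Finset (List α)) (h3 : X.card = 3)
    (hX : IsCode (X : Set (List α))) (b : α) (n : ℕ) (hb : List.replicate n b ∈ X) :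
    Comp (X : Set (List α)) := by
  classical
  have hn : 1 ≤ n := by
    by_contra hcon
    have : n = 0 := by omega
    subst this
    exact hX.nil_notMem (by simpa using hb)
  obtain ⟨x, y, z, hxy, hxz, hyz, rfl⟩ := Finset.card_eq_three.1 h3
  simp only [Finset.coe_insert, Finset.coe_singleton] at hX ⊢
  simp only [Finset.mem_insert, Finset.mem_singleton] at hb
  rcases hb with rfl | rfl | rfl
  · exact goal_all _ α b n y z hn hX hyz hxy.symm hxz.symm le_rfl
  · have e : ({x, List.replicate n b, z} : Set (List α)) = {List.replicate n b, x, z} := by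
      ext w; simp only [Set.mem_insert_iff, Set.mem_singleton_iff]; tauto
    rw [e] at hX ⊢
    exact goal_all _ α b n x z hn hX hxz hxy hyz.symm le_rfl
  · have e : ({x, y, List.replicate n b} : Set (List α)) = {List.replicate n b, x, y} := by
      ext w; simp only [Set.mem_insert_iff, Set.mem_singleton_iff]; tauto
    rw [e] at hX ⊢
    exact goal_all _ α b n x y hn hX hxy hxz hyz le_rfl

end Pool.Agent.H93.TW
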