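import Pool.Agent.H93.TW.LemD

/-!
# [CORE] `X = {b, y, z}`, `y, z` over `{a,b}` with coprime numbers of `a`'s and trivial common margins
-/

set_option autoImplicit false

namespace Pool.Agent.H93.TW

variable {α : Type} {a b : α}

theorem swap23 (x y z : List α) : ({x, y, z} : Set (List α)) = {x, z, y} := by
  ext w
  simp only [Set.mem_insert_iff, Set.mem_singleton_iff]
  tauto

theorem core_le [Finite α] (hab : a ≠ b) {u v : List ℕ} {i j i' j' : ℕ}
    (huv : u.length ≤ v.length)
    (hg : Nat.gcd (u.length + 1) (v.length + 1) = 1) (hi : i = 0 ∨ i' = 0) (hj : j = 0 ∨ j' = 0)
    (hne : List.replicate i b ++ enc a b u j ≠ List.replicate i' b ++ enc a b v j')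
    (hX : IsCode ({[b], List.replicate i b ++ enc a b u j,
      List.replicate i' b ++ enc a b v j'} : Set (List α))) :
    Comp {[b], List.replicate i b ++ enc a b u j, List.replicate i' b ++ enc a b v j'} := by
  rcases lemmaD hab u v i j i' j' with h | hL
  · exact h
  have hrev : rev ({[b], List.replicate i b ++ enc a b u j,
      List.replicate i' b ++ enc a b v j'} : Set (List α)) =
      {[b], List.replicate j b ++ enc a b u.reverse i,
        List.replicate j' b ++ enc a b v.reverse i'} := by
    rw [rev_triple, word_reverse, word_reverse]; simp
  rcases lemmaD hab u.reverse v.reverse j i j' i' with h | hR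
  · rw [← hrev] at h
    exact comp_rev_iff.1 h
  by_cases hu : u = []
  · subst hu
    by_cases hv : v = []
    · subst hv
      exact absurd hX (rel11 i j i' j' hne)
    · have hvj : ∀ g ∈ v, j ≤ g := by
        intro g hg
        obtain ⟨l, hl, rfl⟩ := List.getElem_of_mem hg
        have := hL.1 l hl (by simp [Nat.mod_one])
        rwa [List.getD_eq_getElem _ _ hl] at this
      have hvi : ∀ g ∈ v, i ≤ g := by
        intro g hg
        obtain ⟨l, hl, rfl⟩ := List.getElem_of_mem (show g ∈ v.reverse by simpa using hg)
        have := hR.1 l hl (by simp [Nat.mod_one])
        rwa [List.getD_eq_getElem _ _ hl] at this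
      by_cases hi0 : i = 0
      · subst hi0
        by_cases hj0 : j = 0
        · subst hj0
          exfalso
          refine not_code_star (word_ne_b hab _ _ _) hne.symm
            (l := [List.replicate i' b ++ enc a b v j']) ?_ (by simp) ?_ hX
          · intro x hx
            simp only [List.mem_singleton] at hx
            rw [hx]; simp
          · simp only [List.flatten_cons, List.flatten_nil, List.append_nil]
            have e : enc a b v j' = enc a b v 0 ++ List.replicate j' b := by
              rw [enc_append_replicate]; simp
            rw [e]
            refine Star.append (Star.replicate (Star.of_mem (by simp)) _)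
              (Star.append ?_ (Star.replicate (Star.of_mem (by simp)) _))
            exact star_one v hvj
        · have hj' : j' = 0 := by rcases hj with h | h <;> [exact absurd h hj0; exact h]
          subst hj'
          exfalso
          exact relOne (a := a) (b := b) hvj (word_ne_b hab _ _ _) (by simpa using hne.symm)
            (by simpa using hX)
      · have hi' : i' = 0 := by rcases hi with h | h <;> [exact absurd h hi0; exact h]
        subst hi'
        by_cases hj0 : j = 0
        · subst hj0
          exfalso
          have hXr := hX.rev
          rw [hrev] at hXr
          refine relOne (a := a) (b := b) (j := i) (i' := j') (v := v.reverse)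
            (fun g hg => hvi g (by simpa using hg)) (word_ne_b hab _ _ _) ?_ (by simpa using hXr)
          intro h
          apply hne
          have := congrArg List.reverse h
          rw [word_reverse, List.reverse_reverse, enc_reverse] at this
          rw [this]; simp [enc]
        · have hj' : j' = 0 := by rcases hj with h | h <;> [exact absurd h hj0; exact h]
          subst hj'
          have hvij : ∀ g ∈ v, i ≤ g ∧ j ≤ g := fun g hg => ⟨hvi g hg, hvj g hg⟩
          have e0 : List.replicate 0 b ++ enc a b v 0 = enc a b v 0 := by simp
          rw [e0] at hX ⊢
          by_cases hp : Periodic (i + j) v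
          · exact absurd hX (relPer hab (by omega) hvij hp)
          · exact typeI hab (by omega) (by omega) hv hvij hp
  · have hupos : 0 < u.length := List.length_pos_iff.2 hu
    have hlt : u.length < v.length := by
      rcases lt_or_eq_of_le huv with h | h
      · exact h
      · rw [h, Nat.gcd_self] at hg; omega
    obtain ⟨m, hum, hvm, h1, h2, h3, h4⟩ := const_of_left hu hlt hg hL hR
    exfalso
    rw [hum, hvm] at hX hne
    rcases hi with rfl | rfl <;> rcases hj with rfl | rfl
    · -- y = W(u), roles of y and z exchanged
      rw [swap23] at hX
      have e0 : List.replicate 0 b ++ enc a b (List.replicate u.length m) 0 =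
        enc a b (List.replicate u.length m) 0 := by simp
      rw [e0] at hX hne
      exact relA hab h2 h4 hne.symm hX
    · -- z = b^i' W(v), y = W(u) b^j
      rw [swap23] at hX
      have e0 : List.replicate 0 b ++ enc a b (List.replicate u.length m) j =
        enc a b (List.replicate u.length m) j := by simp
      rw [e0] at hX hne
      exact relB hab h2 h3 hne.symm hX
    · have e0 : List.replicate 0 b ++ enc a b (List.replicate v.length m) j' =
        enc a b (List.replicate v.length m) j' := by simp
      rw [e0] at hX hne
      exact relB hab h1 h4 hne hX
    · have e0 : List.replicate 0 b ++ enc a b (List.replicate v.length m) 0 =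
        enc a b (List.replicate v.length m) 0 := by simp
      rw [e0] at hX hne
      exact relA hab h1 h3 hne hX

theorem core [Finite α] (hab : a ≠ b) {u v : List ℕ} {i j i' j' : ℕ}
    (hg : Nat.gcd (u.length + 1) (v.length + 1) = 1) (hi : i = 0 ∨ i' = 0) (hj : j = 0 ∨ j' = 0)
    (hne : List.replicate i b ++ enc a b u j ≠ List.replicate i' b ++ enc a b v j')
    (hX : IsCode ({[b], List.replicate i b ++ enc a b u j,
      List.replicate i' b ++ enc a b v j'} : Set (List α))) :
    Comp {[b], List.replicate i b ++ enc a b u j, List.replicate i' b ++ enc a b v j'} := by
  rcases le_total u.length v.length with h | h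
  · exact core_le hab h hg hi hj hne hX
  · rw [swap23] at hX ⊢
    exact core_le hab h (by rw [Nat.gcd_comm]; exact hg) hi.symm hj.symm hne.symm hX

end Pool.Agent.H93.TW
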