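import Mathlib

/-!
# Codes, completeness, finite completions (definitions of the problem file MP_ea9d08_lc)

Everything is about sets of words over an alphabet (words are lists).
-/

set_option autoImplicit false

namespace Pool.Agent.H93.TW

variable {α : Type}

/-- `X` is a code: every word has at most one factorisation into words of `X`. -/
def IsCode (X : Set (List α)) : Prop :=
  ∀ l₁ l₂ : List (List α), (∀ x ∈ l₁, x ∈ X) → (∀ x ∈ l₂, x ∈ X) →
    l₁.flatten = l₂.flatten → l₁ = l₂

/-- `X` is complete: every word is a factor of a product of words of `X`. -/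
def IsComplete (X : Set (List α)) : Prop :=
  ∀ w : List α, ∃ u v : List α, ∃ l : List (List α), (∀ x ∈ l, x ∈ X) ∧ u ++ w ++ v = l.flatten

/-- `X` is contained in a finite complete code. -/
def Comp (X : Set (List α)) : Prop :=
  ∃ Y : Finset (List α), X ⊆ (Y : Set (List α)) ∧ IsCode (Y : Set (List α)) ∧
    IsComplete (Y : Set (List α))

/-- the submonoid generated by `X` -/
def Star (X : Set (List α)) : Set (List α) :=
  {w | ∃ l : List (List α), (∀ x ∈ l, x ∈ X) ∧ l.flatten = w}

/-- the reversed words -/
def rev (X : Set (List α)) : Set (List α) := {w | w.reverse ∈ X}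

theorem IsCode.mono {X Y : Set (List α)} (h : X ⊆ Y) (hY : IsCode Y) : IsCode X :=
  fun l₁ l₂ h₁ h₂ e => hY l₁ l₂ (fun x hx => h (h₁ x hx)) (fun x hx => h (h₂ x hx)) e

theorem Comp.mono {X Y : Set (List α)} (h : X ⊆ Y) (hY : Comp Y) : Comp X := by
  obtain ⟨Z, h1, h2, h3⟩ := hY
  exact ⟨Z, h.trans h1, h2, h3⟩

theorem IsCode.nil_notMem {X : Set (List α)} (h : IsCode X) : [] ∉ X := by
  intro h0
  have := h [] [[]] (by simp) (by simpa using h0) (by simp)
  simp at this

theorem Star.nil_mem (X : Set (List α)) : [] ∈ Star X := ⟨[], by simp, rfl⟩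

theorem Star.of_mem {X : Set (List α)} {x : List α} (h : x ∈ X) : x ∈ Star X :=
  ⟨[x], by simpa using h, by simp⟩

theorem Star.append {X : Set (List α)} {x y : List α} (hx : x ∈ Star X) (hy : y ∈ Star X) :
    x ++ y ∈ Star X := by
  obtain ⟨l, hl, rfl⟩ := hx
  obtain ⟨m, hm, rfl⟩ := hy
  refine ⟨l ++ m, ?_, by simp⟩
  intro x hx
  rcases List.mem_append.1 hx with h | h
  · exact hl x h
  · exact hm x h

theorem Star.mono {X Y : Set (List α)} (h : X ⊆ Y) : Star X ⊆ Star Y := by
  rintro w ⟨l, hl, rfl⟩
  exact ⟨l, fun x hx => h (hl x hx), rfl⟩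

theorem Star.flatten {X : Set (List α)} {l : List (List α)} (h : ∀ x ∈ l, x ∈ Star X) :
    l.flatten ∈ Star X := by
  induction l with
  | nil => simpa using Star.nil_mem X
  | cons x l ih =>
    rw [List.flatten_cons]
    exact Star.append (h x (by simp)) (ih (fun y hy => h y (by simp [hy])))

theorem Star.star {X Y : Set (List α)} (h : X ⊆ Star Y) : Star X ⊆ Star Y := by
  rintro w ⟨l, hl, rfl⟩
  exact Star.flatten (fun x hx => h (hl x hx))

theorem Star.replicate {X : Set (List α)} {b : α} (h : [b] ∈ Star X) (n : ℕ) :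
    List.replicate n b ∈ Star X := by
  induction n with
  | zero => simpa using Star.nil_mem X
  | succ n ih =>
    rw [List.replicate_succ]
    exact Star.append h ih

/-! ## Reversal -/

theorem mem_rev {X : Set (List α)} {w : List α} : w ∈ rev X ↔ w.reverse ∈ X := Iff.rfl

theorem rev_rev (X : Set (List α)) : rev (rev X) = X := by
  ext w; simp [rev]

theorem rev_mono {X Y : Set (List α)} (h : X ⊆ Y) : rev X ⊆ rev Y := fun _ hw => h hw

theorem rev_triple (x y z : List α) :
    rev {x, y, z} = {x.reverse, y.reverse, z.reverse} := by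
  ext w
  simp only [rev, Set.mem_setOf_eq, Set.mem_insert_iff, Set.mem_singleton_iff]
  constructor
  · rintro (h | h | h)
    · left; rw [← h]; simp
    · right; left; rw [← h]; simp
    · right; right; rw [← h]; simp
  · rintro (h | h | h)
    · left; rw [h]; simp
    · right; left; rw [h]; simp
    · right; right; rw [h]; simp

theorem flatten_rev (l : List (List α)) :
    ((l.map List.reverse).reverse).flatten = l.flatten.reverse := by
  rw [List.reverse_flatten]

theorem IsCode.rev {X : Set (List α)} (h : IsCode X) : IsCode (rev X) := by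
  intro l₁ l₂ h₁ h₂ e
  have e' : ((l₁.map List.reverse).reverse).flatten = ((l₂.map List.reverse).reverse).flatten := by
    rw [flatten_rev, flatten_rev, e]
  have := h _ _ (by
    intro x hx
    simp only [List.mem_reverse, List.mem_map] at hx
    obtain ⟨y, hy, rfl⟩ := hx
    exact h₁ y hy) (by
    intro x hx
    simp only [List.mem_reverse, List.mem_map] at hx
    obtain ⟨y, hy, rfl⟩ := hx
    exact h₂ y hy) e'
  have := List.reverse_injective this
  exact List.map_injective_iff.2 List.reverse_injective this

theorem Star.rev {X : Set (List α)} {w : List α} (h : w ∈ Star X) :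
    w.reverse ∈ Star (rev X) := by
  obtain ⟨l, hl, rfl⟩ := h
  refine ⟨(l.map List.reverse).reverse, ?_, flatten_rev l⟩
  intro x hx
  simp only [List.mem_reverse, List.mem_map] at hx
  obtain ⟨y, hy, rfl⟩ := hx
  simpa [mem_rev] using hl y hy

theorem Comp.rev {X : Set (List α)} (h : Comp X) : Comp (rev X) := by
  classical
  obtain ⟨Y, h1, h2, h3⟩ := h
  have hY : ((Y.image List.reverse : Finset (List α)) : Set (List α)) = Pool.Agent.H93.TW.rev Y := by
    ext w
    simp only [Finset.coe_image, Set.mem_image, Finset.mem_coe, mem_rev]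
    constructor
    · rintro ⟨x, hx, rfl⟩; simpa using hx
    · intro hw; exact ⟨w.reverse, hw, by simp⟩
  refine ⟨Y.image List.reverse, ?_, ?_, ?_⟩
  · rw [hY]; exact rev_mono h1
  · rw [hY]; exact h2.rev
  · rw [hY]
    intro w
    obtain ⟨u, v, l, hl, e⟩ := h3 w.reverse
    refine ⟨v.reverse, u.reverse, (l.map List.reverse).reverse, ?_, ?_⟩
    · intro x hx
      simp only [List.mem_reverse, List.mem_map] at hx
      obtain ⟨y, hy, rfl⟩ := hx
      simpa [mem_rev] using hl y hy
    · rw [flatten_rev, ← e]; simp

theorem comp_rev_iff {X : Set (List α)} : Comp (rev X) ↔ Comp X :=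
  ⟨fun h => by simpa [rev_rev] using h.rev, fun h => h.rev⟩

/-! ## Words over two letters: gap lists -/

/-- `enc a b [g₁,…,g_k] q = a b^{g₁} a b^{g₂} a … a b^{g_k} a b^q` (with `k+1` letters `a`) -/
def enc (a b : α) : List ℕ → ℕ → List α
  | [], q => a :: List.replicate q b
  | g :: v, q => (a :: List.replicate g b) ++ enc a b v q

/-- `Inc x y`: neither word is an initial segment of the other -/
def Inc (x y : List α) : Prop := ¬ x <+: y ∧ ¬ y <+: x

/-- `Inr x y`: neither word is a final segment of the other -/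
def Inr (x y : List α) : Prop := ¬ x <:+ y ∧ ¬ y <:+ x

/-- `v` is periodic for `s`: `v = (G m)^K G` with all entries of `G` at least `s`, `m < s` -/
def Periodic (s : ℕ) (v : List ℕ) : Prop :=
  ∃ (G : List ℕ) (m K : ℕ), m < s ∧ (∀ g ∈ G, s ≤ g) ∧
    v = (List.replicate K (G ++ [m])).flatten ++ G

end Pool.Agent.H93.TW
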