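import Pool.Agent.H93.TW.Rel

/-!
# [D] The first level of the Euclidean algorithm, and the constant case
-/

set_option autoImplicit false

namespace Pool.Agent.H93.TW

variable {α : Type} {a b : α}

theorem inc_pre {x y : List α} (w : List α) (h : Inc x y) : Inc (w ++ x) (w ++ y) :=
  ⟨fun h' => h.1 ((List.prefix_append_right_inj w).1 h'),
    fun h' => h.2 ((List.prefix_append_right_inj w).1 h')⟩

theorem enc_head (v : List ℕ) (q : ℕ) : ∃ w, enc a b v q = a :: w := by
  cases v with
  | nil => exact ⟨_, rfl⟩
  | cons g v => exact ⟨List.replicate g b ++ enc a b v q, by rw [enc]; simp⟩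

/-- a gap `g` followed by `a` against a longer gap -/
theorem inc_gap (hab : a ≠ b) {g g' : ℕ} (h : g < g') (v : List ℕ) (q : ℕ) (w : List α) :
    Inc ((a :: List.replicate g b) ++ enc a b v q) ((a :: List.replicate g' b) ++ w) := by
  obtain ⟨k, rfl⟩ : ∃ k, g' = g + (k + 1) := ⟨g' - g - 1, by omega⟩
  obtain ⟨w', hw'⟩ := enc_head (a := a) (b := b) v q
  rw [hw', ← List.replicate_append_replicate, List.replicate_succ]
  have e : (a :: (List.replicate g b ++ b :: List.replicate k b)) ++ w =
      (a :: List.replicate g b) ++ (b :: (List.replicate k b ++ w)) := by simp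
  rw [e]
  exact inc_pre _ (inc_head hab _ _)

theorem cmp (hab : a ≠ b) (j j' : ℕ) : ∀ u v : List ℕ,
    Inc (enc a b u j) (enc a b v j') ∨ (∃ g w, v = u ++ g :: w ∧ j ≤ g) ∨
      (∃ g w, u = v ++ g :: w ∧ j' ≤ g) ∨ u = v := by
  intro u
  induction u with
  | nil =>
    intro v
    cases v with
    | nil => right; right; right; rfl
    | cons g w =>
      by_cases h : j ≤ g
      · right; left; exact ⟨g, w, by simp, h⟩
      · left
        have := inc_gap hab (show g < j by omega) w j' ([] : List α)
        rw [List.append_nil] at this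
        exact this.symm
  | cons g u ih =>
    intro v
    cases v with
    | nil =>
      by_cases h : j' ≤ g
      · right; right; left; exact ⟨g, u, by simp, h⟩
      · left
        have := inc_gap hab (show g < j' by omega) u j ([] : List α)
        rw [List.append_nil] at this
        exact this
    | cons g' v =>
      rcases lt_trichotomy g g' with h | h | h
      · left; exact inc_gap hab h u j _
      · subst h
        rcases ih v with h1 | ⟨x, w, h1, h2⟩ | ⟨x, w, h1, h2⟩ | h1
        · left; exact inc_pre _ h1
        · right; left; exact ⟨x, w, by rw [h1]; simp, h2⟩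
        · right; right; left; exact ⟨x, w, by rw [h1]; simp, h2⟩
        · right; right; right; rw [h1]
      · left; exact (inc_gap hab h v j' _).symm

/-- the conclusion of Lemma D -/
def Left (u v : List ℕ) (j j' : ℕ) : Prop :=
  (∀ l < v.length, (l + 1) % (u.length + 1) = 0 → j ≤ v.getD l 0) ∧
  (∀ l < v.length, (l + 1) % (u.length + 1) ≠ 0 →
    v.getD l 0 = u.getD ((l + 1) % (u.length + 1) - 1) 0) ∧
  ((v.length + 1) % (u.length + 1) ≠ 0 → j' ≤ u.getD ((v.length + 1) % (u.length + 1) - 1) 0)

theorem left_self (u : List ℕ) (j j' : ℕ) : Left u u j j' := by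
  refine ⟨?_, ?_, ?_⟩
  · intro l hl h
    rw [Nat.mod_eq_of_lt (by omega)] at h; omega
  · intro l hl h
    rw [Nat.mod_eq_of_lt (by omega)]; simp
  · intro h
    rw [Nat.mod_self] at h; omega

theorem left_short (v : List ℕ) (g : ℕ) (w : List ℕ) {j j' : ℕ} (h : j' ≤ g) :
    Left (v ++ g :: w) v j j' := by
  have hlen : (v ++ g :: w).length + 1 = v.length + w.length + 2 := by simp; omega
  refine ⟨?_, ?_, ?_⟩
  · intro l hl h
    rw [hlen, Nat.mod_eq_of_lt (by omega)] at h; omega
  · intro l hl h
    rw [hlen, Nat.mod_eq_of_lt (by omega)]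
    rw [Nat.add_sub_cancel, List.getD_append _ _ _ _ hl]
  · intro _
    rw [hlen, Nat.mod_eq_of_lt (by omega), Nat.add_sub_cancel,
      List.getD_append_right _ _ _ _ le_rfl]
    simpa using h

theorem left_step {u v : List ℕ} {g j j' : ℕ} (h : Left u v j j') (hg : j ≤ g) :
    Left u (u ++ g :: v) j j' := by
  obtain ⟨h1, h2, h3⟩ := h
  have hlen : (u ++ g :: v).length = u.length + 1 + v.length := by simp; omega
  have hget : ∀ l, u.length < l → (u ++ g :: v).getD l 0 = v.getD (l - (u.length + 1)) 0 := by
    intro l hl
    rw [List.getD_append_right _ _ _ _ hl.le]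
    obtain ⟨k, hk⟩ : ∃ k, l - u.length = k + 1 := ⟨l - u.length - 1, by omega⟩
    rw [hk, List.getD_cons_succ]
    congr 1; omega
  have hmod : ∀ l, u.length < l → (l + 1) % (u.length + 1) =
      (l - (u.length + 1) + 1) % (u.length + 1) := by
    intro l hl
    have : l + 1 = (l - (u.length + 1) + 1) + (u.length + 1) := by omega
    rw [this, Nat.add_mod_right]
  refine ⟨?_, ?_, ?_⟩
  · intro l hl hm
    rcases lt_trichotomy l u.length with hlt | heq | hgt
    · rw [Nat.mod_eq_of_lt (by omega)] at hm; omega
    · rw [heq, List.getD_append_right _ _ _ _ le_rfl]; simpa using hg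
    · rw [hget l hgt]
      rw [hmod l hgt] at hm
      exact h1 _ (by omega) hm
  · intro l hl hm
    rcases lt_trichotomy l u.length with hlt | heq | hgt
    · rw [Nat.mod_eq_of_lt (by omega), Nat.add_sub_cancel, List.getD_append _ _ _ _ hlt]
    · rw [heq, Nat.mod_self] at hm; exact absurd rfl hm
    · rw [hget l hgt, hmod l hgt]
      rw [hmod l hgt] at hm
      exact h2 _ (by omega) hm
  · intro hm
    rw [hlen] at hm ⊢
    have : u.length + 1 + v.length + 1 = (v.length + 1) + (u.length + 1) := by omega
    rw [this, Nat.add_mod_right] at hm ⊢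
    exact h3 hm

theorem lemmaD_aux [Finite α] (hab : a ≠ b) (u : List ℕ) (i j j' : ℕ) : ∀ (n : ℕ) (v : List ℕ)
    (w : List α), v.length ≤ n → w ∈ Star ({[b], enc a b u j} : Set (List α)) →
    Comp {[b], List.replicate i b ++ enc a b u j, w ++ enc a b v j'} ∨ Left u v j j' := by
  intro n
  induction n with
  | zero =>
    intro v w hv hw
    have hv0 : v = [] := List.length_eq_zero_iff.1 (by omega)
    subst hv0
    rcases cmp hab j j' u ([] : List ℕ) with h | ⟨g, w', h, _⟩ | ⟨g, w', h, h'⟩ | h
    · left
      refine ps3 (inc_pair hab u j) (inc_pair hab [] j') h (Star.replicate (Star.of_mem (by simp)) i)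
        (Star.mono ?_ hw)
      intro x hx
      simp only [Set.mem_insert_iff, Set.mem_singleton_iff] at hx ⊢
      rcases hx with h | h
      · exact Or.inl h
      · exact Or.inr (Or.inl h)
    · simp at h
    · right; rw [h]; exact left_short [] g w' h'
    · right; rw [h]; exact left_self _ _ _
  | succ n ih =>
    intro v w hv hw
    rcases cmp hab j j' u v with h | ⟨g, w', h, h'⟩ | ⟨g, w', h, h'⟩ | h
    · left
      refine ps3 (inc_pair hab u j) (inc_pair hab v j') h (Star.replicate (Star.of_mem (by simp)) i)
        (Star.mono ?_ hw)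
      intro x hx
      simp only [Set.mem_insert_iff, Set.mem_singleton_iff] at hx ⊢
      rcases hx with h | h
      · exact Or.inl h
      · exact Or.inr (Or.inl h)
    · have hlen : w'.length ≤ n := by
        have := congrArg List.length h
        simp at this
        omega
      have e : w ++ enc a b v j' = (w ++ (enc a b u j ++ List.replicate (g - j) b)) ++
          enc a b w' j' := by
        rw [enc_append_replicate, show j + (g - j) = g by omega, h, enc_append]; simp
      rcases ih w' (w ++ (enc a b u j ++ List.replicate (g - j) b)) hlen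
        (Star.append hw (Star.append (Star.of_mem (by simp))
          (Star.replicate (Star.of_mem (by simp)) _))) with h1 | h1
      · left; rw [e]; exact h1
      · right; rw [h]; exact left_step h1 h'
    · right; rw [h]; exact left_short v g w' h'
    · right; rw [h]; exact left_self _ _ _
where
  inc_pair {α : Type} {a b : α} (hab : a ≠ b) (v : List ℕ) (q : ℕ) : Inc [b] (enc a b v q) := by
    obtain ⟨w, hw⟩ := enc_head (a := a) (b := b) v q
    rw [hw]
    exact inc_head (Ne.symm hab) _ _

theorem lemmaD [Finite α] (hab : a ≠ b) (u v : List ℕ) (i j i' j' : ℕ) :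
    Comp {[b], List.replicate i b ++ enc a b u j, List.replicate i' b ++ enc a b v j'} ∨
      Left u v j j' :=
  lemmaD_aux hab u i j j' v.length v _ le_rfl (Star.replicate (Star.of_mem (by simp)) i')

/-- the relations force constant lists -/
theorem const_of_left {u v : List ℕ} {i j i' j' : ℕ} (hu : u ≠ []) (huv : u.length < v.length)
    (hg : Nat.gcd (u.length + 1) (v.length + 1) = 1) (hL : Left u v j j')
    (hR : Left u.reverse v.reverse i i') :
    ∃ m, u = List.replicate u.length m ∧ v = List.replicate v.length m ∧
      i ≤ m ∧ i' ≤ m ∧ j ≤ m ∧ j' ≤ m := by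
  obtain ⟨A, hA⟩ : ∃ A, A = u.length + 1 := ⟨_, rfl⟩
  obtain ⟨B, hB⟩ : ∃ B, B = v.length + 1 := ⟨_, rfl⟩
  have hupos : 0 < u.length := List.length_pos_iff.2 hu
  obtain ⟨L1, L2, L3⟩ := hL
  obtain ⟨R1, R2, R3⟩ := hR
  simp only [List.length_reverse] at R1 R2 R3
  rw [← hA, ← hB] at hg
  simp only [← hA, ← hB] at L1 L2 L3 R1 R2 R3
  -- 1-based access
  obtain ⟨U, hU⟩ : ∃ U : ℕ → ℕ, ∀ r, U r = u.getD (r - 1) 0 := ⟨_, fun _ => rfl⟩
  have hrevu : ∀ l, l < u.length → u.reverse.getD l 0 = u.getD (u.length - 1 - l) 0 := by
    intro l hl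
    rw [List.getD_eq_getElem _ _ (by simpa using hl), List.getD_eq_getElem _ _ (by omega),
      List.getElem_reverse]
  have hrevv : ∀ l, l < v.length → v.reverse.getD l 0 = v.getD (v.length - 1 - l) 0 := by
    intro l hl
    rw [List.getD_eq_getElem _ _ (by simpa using hl), List.getD_eq_getElem _ _ (by omega),
      List.getElem_reverse]
  have hBA : B % A ≠ 0 := by
    intro h
    have : A ∣ B := Nat.dvd_of_mod_eq_zero h
    have h2 := Nat.gcd_eq_left this
    omega
  -- left: `v_l = U (l % A)`
  have hLl : ∀ l, 1 ≤ l → l < B → l % A ≠ 0 → v.getD (l - 1) 0 = U (l % A) := by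
    intro l h1 h2 h3
    have := L2 (l - 1) (by omega) (by rwa [show l - 1 + 1 = l by omega])
    rw [this, hU, show l - 1 + 1 = l by omega]
  -- right
  have hRl : ∀ l, 1 ≤ l → l < B → (B - l) % A ≠ 0 →
      v.getD (l - 1) 0 = U (A - (B - l) % A) := by
    intro l h1 h2 h3
    have h4 := R2 (B - l - 1) (by omega) (by rwa [show B - l - 1 + 1 = B - l by omega])
    rw [show B - l - 1 + 1 = B - l by omega] at h4
    have hlt : (B - l) % A < A := Nat.mod_lt _ (by omega)
    rw [hrevv _ (by omega), hrevu _ (by omega)] at h4
    rw [hU]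
    rw [show v.length - 1 - (B - l - 1) = l - 1 by omega,
      show u.length - 1 - ((B - l) % A - 1) = A - (B - l) % A - 1 by omega] at h4
    exact h4
  -- the step
  have hstep : ∀ r, 1 ≤ r → r < A → r ≠ B % A → U r = U (A - (B - r) % A) := by
    intro r h1 h2 h3
    have h4 := hLl r h1 (by omega) (by rw [Nat.mod_eq_of_lt h2]; omega)
    rw [Nat.mod_eq_of_lt h2] at h4
    rw [← h4]
    refine hRl r h1 (by omega) ?_
    intro h5
    apply h3
    have hdvd : A ∣ B - r := Nat.dvd_of_mod_eq_zero h5
    obtain ⟨c, hc⟩ := hdvd
    have : B = r + A * c := by omega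
    rw [this, Nat.add_mul_mod_self_left, Nat.mod_eq_of_lt h2]
  -- the chain
  have hcop : ∀ k, 1 ≤ k → k < A → (k * B) % A ≠ 0 := by
    intro k h1 h2 h3
    have : A ∣ k * B := Nat.dvd_of_mod_eq_zero h3
    have h4 : A ∣ k := (Nat.Coprime.dvd_of_dvd_mul_right (hg : Nat.Coprime A B) this)
    have := Nat.le_of_dvd (by omega) h4
    omega
  have hchain : ∀ k, 1 ≤ k → k < A → U (A - (k * B) % A) = U (A - B % A) := by
    intro k
    induction k with
    | zero => intro h; omega
    | succ k ih =>
      intro _ hk
      by_cases hk0 : k = 0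
      · subst hk0; simp
      · have h1 := ih (by omega) (by omega)
        rw [← h1]
        have c1 := hcop k (by omega) (by omega)
        have c2 := hcop (k + 1) (by omega) hk
        have hlt : (k * B) % A < A := Nat.mod_lt _ (by omega)
        have hne : A - (k * B) % A ≠ B % A := by
          intro h
          apply c2
          have hBlt : B % A < A := Nat.mod_lt _ (by omega)
          have e1 : (k + 1) * B = k * B + B := by ring
          rw [e1, Nat.add_mod, show (k * B) % A + B % A = A by omega, Nat.mod_self]
        rw [hstep (A - (k * B) % A) (by omega) (by omega) hne]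
        congr 2
        -- ((k+1) B) % A = (B - (A - kB % A)) % A
        have hle : A - (k * B) % A ≤ B := by omega
        have e2 : (B - (A - (k * B) % A)) + A = B + (k * B) % A := by omega
        have e3 : (B - (A - (k * B) % A)) % A = (B + (k * B) % A) % A := by
          rw [← e2, Nat.add_mod_right]
        rw [e3, Nat.add_mod_mod]
        congr 1; ring
  have hall : ∀ r, 1 ≤ r → r < A → U r = U (A - B % A) := by
    intro r h1 h2
    obtain ⟨m, -, hm⟩ := Nat.exists_mul_mod_eq_one_of_coprime
      (show Nat.Coprime B A from (Nat.Coprime.symm hg)) (by omega)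
    have e : ((m * (A - r)) % A * B) % A = A - r := by
      rw [Nat.mod_mul_mod]
      have : m * (A - r) * B = (B * m) * (A - r) := by ring
      rw [this, Nat.mul_mod, hm, Nat.one_mul, Nat.mod_mod, Nat.mod_eq_of_lt (by omega)]
    have hlt : (m * (A - r)) % A < A := Nat.mod_lt _ (by omega)
    have hpos : 1 ≤ (m * (A - r)) % A := by
      by_contra hcon
      have : (m * (A - r)) % A = 0 := by omega
      rw [this] at e
      simp at e
      omega
    have := hchain _ hpos hlt
    rw [e, show A - (A - r) = r by omega] at this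
    exact this
  obtain ⟨m, hm⟩ : ∃ m, m = U (A - B % A) := ⟨_, rfl⟩
  rw [← hm] at hall
  have hvall : ∀ l, l < v.length → v.getD l 0 = m := by
    intro l hl
    by_cases h : (l + 1) % A = 0
    · have h2 : (B - (l + 1)) % A ≠ 0 := by
        intro h3
        apply hBA
        have d1 := Nat.dvd_of_mod_eq_zero h
        have d2 := Nat.dvd_of_mod_eq_zero h3
        have := Nat.dvd_add d1 d2
        rw [show l + 1 + (B - (l + 1)) = B by omega] at this
        exact Nat.mod_eq_zero_of_dvd this
      have := hRl (l + 1) (by omega) (by omega) h2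
      rw [Nat.add_sub_cancel] at this
      have hlt : (B - (l + 1)) % A < A := Nat.mod_lt _ (by omega)
      rw [this]
      exact hall _ (by omega) (by omega)
    · have := hLl (l + 1) (by omega) (by omega) h
      rw [Nat.add_sub_cancel] at this
      have hlt : (l + 1) % A < A := Nat.mod_lt _ (by omega)
      rw [this]
      exact hall _ (by omega) hlt
  have huall : ∀ l, l < u.length → u.getD l 0 = m := by
    intro l hl
    have := hall (l + 1) (by omega) (by omega)
    rw [hU, Nat.add_sub_cancel] at this
    exact this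
  have mkrep : ∀ w : List ℕ, (∀ l, l < w.length → w.getD l 0 = m) →
      w = List.replicate w.length m := by
    intro w hw
    apply List.ext_getElem (by simp)
    intro n h1 h2
    have := hw n h1
    rw [List.getD_eq_getElem _ _ h1] at this
    rw [this]; simp
  refine ⟨m, mkrep u huall, mkrep v hvall, ?_, ?_, ?_, ?_⟩
  · have h1 := R1 u.length (by omega) (by rw [← hA]; simp)
    rw [hrevv _ (by omega)] at h1
    rw [hvall _ (by omega)] at h1
    exact h1
  · have h1 := R3 hBA
    have hlt : B % A < A := Nat.mod_lt _ (by omega)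
    rw [hrevu _ (by omega), huall _ (by omega)] at h1
    exact h1
  · have h1 := L1 u.length (by omega) (by rw [← hA]; simp)
    rw [hvall _ (by omega)] at h1
    exact h1
  · have h1 := L3 hBA
    have hlt : B % A < A := Nat.mod_lt _ (by omega)
    rw [huall _ (by omega)] at h1
    exact h1

end Pool.Agent.H93.TW
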