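import Pool.Agent.H93.TW.Core

/-!
# [E] The Euclidean algorithm for `{b^n, y, z}`
-/

set_option autoImplicit false

namespace Pool.Agent.H93.TW

variable {α : Type} {b : α}

open Classical in
/-- number of letters different from `b` -/
noncomputable def nu (b : α) (w : List α) : ℕ := w.countP (fun c => decide (c ≠ b))

theorem nu_append (w w' : List α) : nu b (w ++ w') = nu b w + nu b w' := by
  simp [nu, List.countP_append]

theorem nu_replicate (n : ℕ) : nu b (List.replicate n b) = 0 := by
  simp [nu, List.countP_replicate]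

theorem nu_cons_ne {c : α} (h : c ≠ b) (w : List α) : nu b (c :: w) = nu b w + 1 := by
  simp [nu, h]

theorem nu_reverse (w : List α) : nu b w.reverse = nu b w := by
  simp [nu, List.countP_reverse]

theorem eq_replicate_of_nu {w : List α} (h : nu b w = 0) : w = List.replicate w.length b := by
  rw [List.eq_replicate_iff]
  refine ⟨rfl, fun c hc => ?_⟩
  by_contra hne
  have : 0 < nu b w := by
    unfold nu
    rw [List.countP_pos_iff]
    exact ⟨c, hc, by simpa using hne⟩
  omega

/-- a word with a letter different from `b`: leading `b`'s -/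
theorem lead_of_nu {w : List α} (h : nu b w ≠ 0) :
    ∃ k c w', c ≠ b ∧ w = List.replicate k b ++ c :: w' := by
  rcases exists_lead b w with ⟨k, rfl⟩ | h'
  · exact absurd (nu_replicate k) h
  · exact h'

/-- trailing `b`'s -/
theorem trail_of_nu {w : List α} (h : nu b w ≠ 0) :
    ∃ w' c k, c ≠ b ∧ w = w' ++ c :: List.replicate k b := by
  obtain ⟨k, c, w', hc, e⟩ := lead_of_nu (b := b) (w := w.reverse) (by rwa [nu_reverse])
  refine ⟨w'.reverse, c, k, hc, ?_⟩
  have := congrArg List.reverse e
  rw [List.reverse_reverse] at this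
  rw [this]; simp

theorem lead_unique {c c' : α} (hc : c ≠ b) (hc' : c' ≠ b) : ∀ {k k' : ℕ} {w w' : List α},
    List.replicate k b ++ c :: w = List.replicate k' b ++ c' :: w' → k = k' := by
  intro k
  induction k with
  | zero =>
    intro k' w w' e
    rcases k' with _ | k'
    · rfl
    · rw [List.replicate_succ] at e
      simp only [List.replicate_zero, List.nil_append, List.cons_append, List.cons.injEq] at e
      exact absurd e.1 hc
  | succ k ih =>
    intro k' w w' e
    rcases k' with _ | k'
    · rw [List.replicate_succ] at e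
      simp only [List.replicate_zero, List.nil_append, List.cons_append, List.cons.injEq] at e
      exact absurd e.1.symm hc'
    · rw [List.replicate_succ, List.replicate_succ] at e
      simp only [List.cons_append, List.cons.injEq, true_and] at e
      rw [ih e]

theorem trail_unique {c c' : α} (hc : c ≠ b) (hc' : c' ≠ b) {k k' : ℕ} {w w' : List α}
    (e : w ++ c :: List.replicate k b = w' ++ c' :: List.replicate k' b) : k = k' := by
  have := congrArg List.reverse e
  simp only [List.reverse_append, List.reverse_cons, List.reverse_replicate,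
    List.append_assoc, List.singleton_append] at this
  exact lead_unique hc hc' this

theorem inc_lead {c : α} (hc : c ≠ b) {r n : ℕ} (h : r < n) (w w' : List α) :
    Inc (List.replicate n b ++ w') (List.replicate r b ++ c :: w) := by
  obtain ⟨k, rfl⟩ : ∃ k, n = r + (k + 1) := ⟨n - r - 1, by omega⟩
  rw [← List.replicate_append_replicate, List.replicate_succ, List.append_assoc, List.cons_append]
  exact inc_pre _ (inc_head (Ne.symm hc) _ _)

theorem replicate_mul {X : Set (List α)} {n : ℕ} (h : List.replicate n b ∈ X) (k : ℕ) :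
    List.replicate (n * k) b ∈ Star X := by
  induction k with
  | zero => simpa using Star.nil_mem X
  | succ k ih =>
    rw [Nat.mul_succ, ← List.replicate_append_replicate]
    exact Star.append ih (Star.of_mem h)

/-- different numbers of leading `b`'s modulo `n` -/
theorem lead_case [Finite α] {n : ℕ} (hn : 1 ≤ n) {l l' : ℕ} {c c' : α} (hc : c ≠ b)
    (hc' : c' ≠ b) (w w' : List α) (h : l % n ≠ l' % n) :
    Comp {List.replicate n b, List.replicate l b ++ c :: w, List.replicate l' b ++ c' :: w'} := by
  have h1 : l % n < n := Nat.mod_lt _ (by omega)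
  have h2 : l' % n < n := Nat.mod_lt _ (by omega)
  have e1 : List.replicate l b ++ c :: w = List.replicate (n * (l / n)) b ++
      (List.replicate (l % n) b ++ c :: w) := by
    rw [← List.append_assoc, List.replicate_append_replicate, Nat.div_add_mod]
  have e2 : List.replicate l' b ++ c' :: w' = List.replicate (n * (l' / n)) b ++
      (List.replicate (l' % n) b ++ c' :: w') := by
    rw [← List.append_assoc, List.replicate_append_replicate, Nat.div_add_mod]
  rw [e1, e2]
  have i1 := inc_lead hc h1 w []
  have i2 := inc_lead hc' h2 w' []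
  rw [List.append_nil] at i1 i2
  have i3 : Inc (List.replicate (l % n) b ++ c :: w) (List.replicate (l' % n) b ++ c' :: w') := by
    rcases lt_or_gt_of_ne h with h3 | h3
    · exact (inc_lead hc h3 w (c' :: w')).symm
    · exact inc_lead hc' h3 w' (c :: w)
  exact ps3 i1 i2 i3 (replicate_mul (by simp) _) (replicate_mul (by simp) _)

theorem trail_case [Finite α] {n : ℕ} (hn : 1 ≤ n) {l l' : ℕ} {c c' : α} (hc : c ≠ b)
    (hc' : c' ≠ b) (w w' : List α) (h : l % n ≠ l' % n) :
    Comp {List.replicate n b, w ++ c :: List.replicate l b, w' ++ c' :: List.replicate l' b} := by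
  rw [← comp_rev_iff, rev_triple]
  simpa using lead_case hn hc hc' w.reverse w'.reverse h

/-- the common result of the Euclidean algorithm -/
def EGoal (b : α) (n : ℕ) (y z : List α) : Prop :=
  Comp {List.replicate n b, y, z} ∨ ∃ g : List α, Inc (List.replicate n b) g ∧
    y ∈ Star ({List.replicate n b, g} : Set (List α)) ∧
    z ∈ Star ({List.replicate n b, g} : Set (List α)) ∧
    nu b g = Nat.gcd (nu b y) (nu b z) ∧ (g <:+ y ∨ g <:+ z)

def Htr (b : α) (n : ℕ) (y z : List α) : Prop :=
  ∀ (y0 : List α) (c : α) (t : ℕ) (z0 : List α) (c' : α) (t' : ℕ), c ≠ b → c' ≠ b →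
    y = y0 ++ c :: List.replicate t b → z = z0 ++ c' :: List.replicate t' b → t % n = t' % n

structure EHyp (b : α) (n : ℕ) (y z U V w1 w2 : List α) : Prop where
  nU : nu b U ≠ 0
  nV : nu b V ≠ 0
  h1 : w1 ∈ Star ({List.replicate n b, U, V} : Set (List α))
  h2 : w2 ∈ Star ({List.replicate n b, U, V} : Set (List α))
  ey : y = w1 ++ U
  ez : z = w2 ++ V
  gcd : Nat.gcd (nu b U) (nu b V) = Nat.gcd (nu b y) (nu b z)
  tr : Htr b n y z

theorem EGoal.symm {n : ℕ} {y z : List α} (h : EGoal b n y z) : EGoal b n z y := by
  rcases h with h | ⟨g, h1, h2, h3, h4, h5⟩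
  · left; rw [swap23]; exact h
  · right; exact ⟨g, h1, h3, h2, by rw [h4, Nat.gcd_comm], h5.symm⟩

theorem EHyp.symm {n : ℕ} {y z U V w1 w2 : List α} (h : EHyp b n y z U V w1 w2) :
    EHyp b n z y V U w2 w1 where
  nU := h.nV
  nV := h.nU
  h1 := by rw [swap23]; exact h.h2
  h2 := by rw [swap23]; exact h.h1
  ey := h.ez
  ez := h.ey
  gcd := by rw [Nat.gcd_comm, h.gcd, Nat.gcd_comm]
  tr := fun y0 c t z0 c' t' hc hc' e1 e2 => (h.tr z0 c' t' y0 c t hc' hc e2 e1).symm

theorem star_sub {X Y : Set (List α)} {w : List α} (hw : w ∈ Star X) (h : ∀ x ∈ X, x ∈ Star Y) :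
    w ∈ Star Y := Star.star h hw

/-- `U` is an initial segment of `V` -/
theorem stepE {n : ℕ} {y z U V w1 w2 : List α}
    (IH : ∀ (y z U' V' w1 w2 : List α), U'.length + V'.length < U.length + V.length →
      EHyp b n y z U' V' w1 w2 → EGoal b n y z)
    (h : EHyp b n y z U V w1 w2) (hBU : Inc (List.replicate n b) U) (hUV : U <+: V) :
    EGoal b n y z := by
  obtain ⟨V', rfl⟩ := hUV
  have hUpos : 0 < U.length := by
    rcases Nat.eq_zero_or_pos U.length with h0 | h0
    · exact absurd (List.length_eq_zero_iff.1 h0) hBU.symm.ne_nil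
    · exact h0
  by_cases hV' : nu b V' = 0
  · -- `V' = b^e`, `n ∣ e`
    have hV'r := eq_replicate_of_nu hV'
    obtain ⟨e, he⟩ : ∃ e, e = V'.length := ⟨_, rfl⟩
    rw [← he] at hV'r
    obtain ⟨U0, c, t, hc, hU⟩ := trail_of_nu h.nU
    have hzt : z = (w2 ++ U0) ++ c :: List.replicate (t + e) b := by
      rw [h.ez, hV'r, hU, ← List.replicate_append_replicate]; simp
    have hyt : y = (w1 ++ U0) ++ c :: List.replicate t b := by
      rw [h.ey]
      conv_lhs => rw [hU]
      simp
    have hmod := h.tr _ c t _ c (t + e) hc hc hyt hzt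
    have hdvd : n ∣ e := by
      have : (t + e) ≡ t [MOD n] := hmod.symm
      have h2 : t + e ≡ t + 0 [MOD n] := by simpa using this
      have h3 : e ≡ 0 [MOD n] := Nat.ModEq.add_left_cancel' t h2
      exact (Nat.modEq_zero_iff_dvd).1 h3
    obtain ⟨k, hk⟩ := hdvd
    have hVst : U ++ V' ∈ Star ({List.replicate n b, U} : Set (List α)) := by
      rw [hV'r, hk]
      exact Star.append (Star.of_mem (by simp)) (replicate_mul (by simp) k)
    have hsub : ∀ x ∈ ({List.replicate n b, U, U ++ V'} : Set (List α)),
        x ∈ Star ({List.replicate n b, U} : Set (List α)) := by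
      intro x hx
      simp only [Set.mem_insert_iff, Set.mem_singleton_iff] at hx
      rcases hx with rfl | rfl | rfl
      · exact Star.of_mem (by simp)
      · exact Star.of_mem (by simp)
      · exact hVst
    right
    refine ⟨U, hBU, ?_, ?_, ?_, Or.inl ⟨w1, h.ey.symm⟩⟩
    · rw [h.ey]; exact Star.append (star_sub h.h1 hsub) (Star.of_mem (by simp))
    · rw [h.ez]; exact Star.append (star_sub h.h2 hsub) hVst
    · rw [← h.gcd, nu_append, hV', Nat.add_zero, Nat.gcd_self]
  · refine IH y z U V' w1 (w2 ++ U) (by simp; omega) ?_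
    have hsub : ∀ x ∈ ({List.replicate n b, U, U ++ V'} : Set (List α)),
        x ∈ Star ({List.replicate n b, U, V'} : Set (List α)) := by
      intro x hx
      simp only [Set.mem_insert_iff, Set.mem_singleton_iff] at hx
      rcases hx with rfl | rfl | rfl
      · exact Star.of_mem (by simp)
      · exact Star.of_mem (by simp)
      · exact Star.append (Star.of_mem (by simp)) (Star.of_mem (by simp))
    exact {
      nU := h.nU
      nV := hV'
      h1 := star_sub h.h1 hsub
      h2 := Star.append (star_sub h.h2 hsub) (Star.of_mem (by simp))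
      ey := h.ey
      ez := by rw [h.ez]; simp
      gcd := by
        rw [← h.gcd, nu_append]
        simp
      tr := h.tr }

/-- `b^n` is an initial segment of `U` -/
theorem stripE {n : ℕ} (hn : 1 ≤ n) {y z U V w1 w2 : List α}
    (IH : ∀ (y z U' V' w1 w2 : List α), U'.length + V'.length < U.length + V.length →
      EHyp b n y z U' V' w1 w2 → EGoal b n y z)
    (h : EHyp b n y z U V w1 w2) (hBU : List.replicate n b <+: U) : EGoal b n y z := by
  obtain ⟨U', rfl⟩ := hBU
  refine IH y z U' V (w1 ++ List.replicate n b) w2 (by simp; omega) ?_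
  have hsub : ∀ x ∈ ({List.replicate n b, List.replicate n b ++ U', V} : Set (List α)),
      x ∈ Star ({List.replicate n b, U', V} : Set (List α)) := by
    intro x hx
    simp only [Set.mem_insert_iff, Set.mem_singleton_iff] at hx
    rcases hx with rfl | rfl | rfl
    · exact Star.of_mem (by simp)
    · exact Star.append (Star.of_mem (by simp)) (Star.of_mem (by simp))
    · exact Star.of_mem (by simp)
  have hnu : nu b (List.replicate n b ++ U') = nu b U' := by
    rw [nu_append, nu_replicate, Nat.zero_add]
  exact {
    nU := by have := h.nU; rwa [hnu] at this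
    nV := h.nV
    h1 := Star.append (star_sub h.h1 hsub) (Star.of_mem (by simp))
    h2 := star_sub h.h2 hsub
    ey := by rw [h.ey]; simp
    ez := h.ez
    gcd := by rw [← h.gcd, hnu]
    tr := h.tr }

theorem not_pre_replicate {n : ℕ} {U : List α} (hU : nu b U ≠ 0) :
    ¬ U <+: List.replicate n b := by
  rintro ⟨w, hw⟩
  have := congrArg (nu b) hw
  rw [nu_append, nu_replicate] at this
  omega

theorem lemmaE_aux [Finite α] {n : ℕ} (hn : 1 ≤ n) : ∀ (L : ℕ) (y z U V w1 w2 : List α),
    U.length + V.length ≤ L → EHyp b n y z U V w1 w2 → EGoal b n y z := by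
  intro L
  induction L with
  | zero =>
    intro y z U V w1 w2 hL h
    have : U = [] := List.length_eq_zero_iff.1 (by omega)
    exact absurd (by rw [this]; simp [nu]) h.nU
  | succ L ih =>
    intro y z U V w1 w2 hL h
    have IH : ∀ (y z U' V' w1 w2 : List α), U'.length + V'.length < U.length + V.length →
        EHyp b n y z U' V' w1 w2 → EGoal b n y z := by
      intro y z U' V' w1 w2 hlt h'
      exact ih y z U' V' w1 w2 (by omega) h'
    have IH' : ∀ (y z U' V' w1 w2 : List α), U'.length + V'.length < V.length + U.length →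
        EHyp b n y z U' V' w1 w2 → EGoal b n y z := by
      intro y z U' V' w1 w2 hlt h'
      exact ih y z U' V' w1 w2 (by omega) h'
    by_cases h1 : List.replicate n b <+: U
    · exact stripE hn IH h h1
    by_cases h2 : List.replicate n b <+: V
    · exact (stripE hn IH' h.symm h2).symm
    have i1 : Inc (List.replicate n b) U := ⟨h1, not_pre_replicate h.nU⟩
    have i2 : Inc (List.replicate n b) V := ⟨h2, not_pre_replicate h.nV⟩
    by_cases h3 : U <+: V
    · exact stepE IH h i1 h3
    by_cases h4 : V <+: U
    · exact (stepE IH' h.symm i2 h4).symm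
    · left
      rw [h.ey, h.ez]
      exact ps3 i1 i2 ⟨h3, h4⟩ h.h1 h.h2

theorem lemmaE [Finite α] {n : ℕ} (hn : 1 ≤ n) {y z : List α} (hy : nu b y ≠ 0)
    (hz : nu b z ≠ 0) : EGoal b n y z := by
  by_cases htr : Htr b n y z
  · refine lemmaE_aux hn (y.length + z.length) y z y z [] [] le_rfl ?_
    exact {
      nU := hy
      nV := hz
      h1 := Star.nil_mem _
      h2 := Star.nil_mem _
      ey := rfl
      ez := rfl
      gcd := rfl
      tr := htr }
  · left
    unfold Htr at htr
    push Not at htr
    obtain ⟨y0, c, t, z0, c', t', hc, hc', rfl, rfl, hne⟩ := htr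
    exact trail_case hn hc hc' y0 z0 hne

end Pool.Agent.H93.TW
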