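import Pool.Agent.H93.TW.MRun

/-!
# [P] The set `P`: unique factorisation `w = t p`, and the bound for the length
-/

set_option autoImplicit false

namespace Pool.Agent.H93.TW

variable {α σ : Type} {a b : α} {i j : ℕ} {M : Machine σ} {v : List ℕ}

/-- the set `P` -/
def Pset (a b : α) (i : ℕ) (M : Machine σ) : Set (List α) :=
  {p | p = [] ∨ (Ba a b i <+: p ∧ ∀ g r, p = g ++ r → g ≠ [] → (r = [] ∨ Ba a b i <+: r) →
    g ∉ Tset a b i M)}

theorem exists_cut (hab : a ≠ b) (hM : M.Ok i j v) (w : List α) :
    ∃ t r, w = t ++ r ∧ t ∈ Tset a b i M ∧ (r = [] ∨ Ba a b i <+: r) := by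
  induction hn : w.length using Nat.strong_induction_on generalizing w with
  | _ n ih =>
    by_cases hT : w ∈ Tset a b i M
    · exact ⟨w, [], by simp, hT, Or.inl rfl⟩
    · have hs : (run a b i M (M.zero, 0) w).1 ≠ M.zero := by
        intro h
        apply hT
        simp only [Tset, Set.mem_ofPred_eq, h, hM.h_zero]
        omega
      obtain ⟨w', hw'⟩ := exists_last hab w hs
      have hlen : w'.length < n := by
        rw [← hn]
        conv_rhs => rw [hw']
        simp [Ba]
      obtain ⟨t, r, h1, h2, h3⟩ := ih w'.length hlen w' rfl
      refine ⟨t, r ++ (Ba a b i ++ List.replicate (run a b i M (M.zero, 0) w).2 b), ?_, h2, ?_⟩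
      · conv_lhs => rw [hw', h1]
        simp
      · right
        rcases h3 with rfl | h3
        · simp
        · exact h3.trans (List.prefix_append _ _)

theorem exists_factor (hab : a ≠ b) (hM : M.Ok i j v) (w : List α) :
    ∃ t ∈ Tset a b i M, ∃ p ∈ Pset a b i M, w = t ++ p := by
  obtain ⟨t, r, h1, h2, h3⟩ := exists_cut hab hM w
  induction hn : r.length using Nat.strong_induction_on generalizing t r with
  | _ n ih =>
    by_cases hr : r ∈ Pset a b i M
    · exact ⟨t, h2, r, hr, h1⟩
    · rcases h3 with rfl | h3
      · exact absurd (Or.inl rfl) hr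
      · have : ¬ ∀ g r', r = g ++ r' → g ≠ [] → (r' = [] ∨ Ba a b i <+: r') →
            g ∉ Tset a b i M := fun h => hr (Or.inr ⟨h3, h⟩)
        push Not at this
        obtain ⟨g, r', e, hg, hr', hgT⟩ := this
        have hBg := Ba_prefix_of_cut hab h3 e hg hr'
        have hgpos : 0 < g.length := List.length_pos_iff.2 hg
        refine ih r'.length ?_ (t ++ g) r' ?_ ((T_shift hab hM h2 hBg).2 hgT) hr' rfl
        · rw [← hn, e]; simp; omega
        · rw [h1, e]; simp

theorem factor_unique_aux (hab : a ≠ b) (hM : M.Ok i j v) {t t' p p' : List α}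
    (ht : t ∈ Tset a b i M) (ht' : t' ∈ Tset a b i M) (hp : p ∈ Pset a b i M)
    (hp' : p' ∈ Pset a b i M) (e : t ++ p = t' ++ p') (hle : t.length ≤ t'.length) : t = t' := by
  have h1 : t <+: t' := by
    have a1 : t <+: t' ++ p' := ⟨p, e⟩
    exact List.prefix_of_prefix_length_le a1 (List.prefix_append _ _) hle
  obtain ⟨g, rfl⟩ := h1
  rw [List.append_assoc] at e
  have e' := List.append_cancel_left e
  by_cases hg : g = []
  · simp [hg]
  · exfalso
    rcases hp with rfl | ⟨hB, hall⟩
    · have : g = [] := (List.append_eq_nil_iff.1 e'.symm).1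
      exact hg this
    · have hr : p' = [] ∨ Ba a b i <+: p' := by
        rcases hp' with h | h
        · exact Or.inl h
        · exact Or.inr h.1
      have hBg := Ba_prefix_of_cut hab hB e' hg hr
      exact hall g p' e' hg hr ((T_shift hab hM ht hBg).1 ht')

theorem factor_unique (hab : a ≠ b) (hM : M.Ok i j v) {t t' p p' : List α}
    (ht : t ∈ Tset a b i M) (ht' : t' ∈ Tset a b i M) (hp : p ∈ Pset a b i M)
    (hp' : p' ∈ Pset a b i M) (e : t ++ p = t' ++ p') : t = t' := by
  rcases le_total t.length t'.length with h | h
  · exact factor_unique_aux hab hM ht ht' hp hp' e h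
  · exact (factor_unique_aux hab hM ht' ht hp' hp e.symm h).symm

/-- inside a word of `P` the state is never zero after the first `b^i a` -/
theorem P_ne_zero (hab : a ≠ b) (hM : M.Ok i j v) {p : List α}
    (hall : ∀ g r, p = g ++ r → g ≠ [] → (r = [] ∨ Ba a b i <+: r) → g ∉ Tset a b i M)
    (r : List α) : ∀ q : List α, p = q ++ r → i + 1 ≤ q.length →
      (run a b i M (M.zero, 0) q).1 ≠ M.zero := by
  induction r with
  | nil =>
    intro q e hq h0
    have hq0 : q ≠ [] := by intro h; simp [h] at hq
    apply hall q [] e hq0 (Or.inl rfl)
    simp only [Tset, Set.mem_ofPred_eq, h0, hM.h_zero]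
    omega
  | cons c r ih =>
    intro q e hq h0
    have e' : p = (q ++ [c]) ++ r := by rw [e]; simp
    apply ih (q ++ [c]) e' (by simp; omega)
    rw [run_append, run_cons, run_nil]
    by_cases hb : c = b
    · subst hb; rw [step_b]; exact h0
    · by_cases ha : c = a
      · subst ha
        by_cases hlt : (run c b i M (M.zero, 0) q).2 < i
        · rw [step_a_lt hab hlt]
        · exfalso
          have hge := Nat.not_lt.1 hlt
          obtain ⟨w', hw'⟩ := exists_trailing (i := i) (M := M) hab q
          set n := (run c b i M (M.zero, 0) q).2 with hn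
          have hq' : q = (w' ++ List.replicate (n - i) b) ++ List.replicate i b := by
            rw [List.append_assoc, List.replicate_append_replicate,
              show n - i + i = n by omega]
            exact hw'
          have hne : w' ++ List.replicate (n - i) b ≠ [] := by
            intro h
            rw [h] at hq'
            rw [hq'] at hq
            simp at hq
          apply hall (w' ++ List.replicate (n - i) b) (Ba c b i ++ r) ?_ hne
            (Or.inr (List.prefix_append _ _))
          · have hrun := congrArg (run c b i M (M.zero, 0)) hq'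
            rw [run_append, run_b] at hrun
            have h1 : (run c b i M (M.zero, 0) (w' ++ List.replicate (n - i) b)).1 = M.zero := by
              rw [hrun] at h0; exact h0
            simp only [Tset, Set.mem_ofPred_eq, h1, hM.h_zero]
            omega
          · rw [e]
            conv_lhs => rw [hq']
            simp only [Ba, List.append_assoc, List.cons_append, List.nil_append]
      · rw [step_other ha hb]

theorem P_bound_aux (hab : a ≠ b) (hM : M.Ok i j v) {p : List α}
    (hall : ∀ g r, p = g ++ r → g ≠ [] → (r = [] ∨ Ba a b i <+: r) → g ∉ Tset a b i M)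
    (q2 : List α) : ∀ r, p = Ba a b i ++ q2 ++ r →
      (Ba a b i ++ q2).length ≤
        (M.rk (run a b i M (M.zero, 0) (Ba a b i ++ q2)).1 + 1) * (M.H + i + 1) +
          (run a b i M (M.zero, 0) (Ba a b i ++ q2)).2 := by
  induction q2 using List.reverseRecOn with
  | nil =>
    intro r e
    simp only [List.append_nil]
    have : (Ba a b i).length = i + 1 := by simp [Ba]
    rw [this]
    nlinarith [Nat.zero_le (M.rk (run a b i M (M.zero, 0) (Ba a b i)).1), Nat.zero_le M.H,
      Nat.zero_le (M.rk (run a b i M (M.zero, 0) (Ba a b i)).1 * (M.H + i + 1))]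
  | append_singleton q2 c ih =>
    intro r e
    have e1 : p = Ba a b i ++ q2 ++ ([c] ++ r) := by rw [e]; simp
    have ih := ih _ e1
    rw [← List.append_assoc]
    obtain ⟨q, hq⟩ : ∃ q, q = Ba a b i ++ q2 := ⟨_, rfl⟩
    rw [← hq] at ih e1 ⊢
    have hqlen : i + 1 ≤ q.length := by
      rw [hq]; simp only [Ba, List.length_append, List.length_replicate, List.length_singleton]
      omega
    have hz := P_ne_zero hab hM hall ([c] ++ r) q e1 hqlen
    have hz' := P_ne_zero hab hM hall r (q ++ [c]) (by rw [e1, List.append_assoc]) (by simp; omega)
    rw [run_append, run_cons, run_nil] at hz' ⊢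
    by_cases hb : c = b
    · subst hb
      rw [step_b]
      simp only [List.length_append, List.length_singleton]
      omega
    · by_cases ha : c = a
      · subst ha
        by_cases hlt : (run c b i M (M.zero, 0) q).2 < i
        · rw [step_a_lt hab hlt] at hz'; exact absurd rfl hz'
        · have hge := Nat.not_lt.1 hlt
          obtain ⟨w', hw'⟩ := exists_trailing (i := i) (M := M) hab q
          rw [step_a_ge hab hge] at hz' ⊢
          set n := (run c b i M (M.zero, 0) q).2 with hn
          set s := (run c b i M (M.zero, 0) q).1 with hs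
          have hq' : q = (w' ++ List.replicate (n - i) b) ++ List.replicate i b := by
            rw [List.append_assoc, List.replicate_append_replicate,
              show n - i + i = n by omega]
            exact hw'
          have hne : w' ++ List.replicate (n - i) b ≠ [] := by
            intro h
            rw [h] at hq'
            rw [hq'] at hqlen
            simp at hqlen
          have hnT := hall (w' ++ List.replicate (n - i) b) (Ba c b i ++ r) (by
            rw [e1]
            conv_lhs => rw [hq']
            simp only [Ba, List.append_assoc, List.cons_append, List.nil_append]) hne (Or.inr (List.prefix_append _ _))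
          have hrun := congrArg (run c b i M (M.zero, 0)) hq'
          rw [run_append, run_b] at hrun
          have h1 : (run c b i M (M.zero, 0) (w' ++ List.replicate (n - i) b)).1 = s := by
            rw [hs, hrun]
          have h2 : (run c b i M (M.zero, 0) (w' ++ List.replicate (n - i) b)).2 = n - i := by
            have : n = (run c b i M (M.zero, 0) (w' ++ List.replicate (n - i) b)).2 + i := by
              conv_lhs => rw [hn, hrun]
            omega
          simp only [Tset, Set.mem_ofPred_eq, h1, h2, not_le] at hnT
          have hH := hM.h_le s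
          rcases hM.small s (n - i) hz hnT with h3 | h3
          · exact absurd h3 hz'
          · simp only [List.length_append, List.length_singleton]
            have h4 : (M.rk s + 1 + 1) * (M.H + i + 1) ≤
                (M.rk (M.del s (n - i)) + 1) * (M.H + i + 1) :=
              Nat.mul_le_mul_right _ (by omega)
            have h5 : (M.rk s + 1 + 1) * (M.H + i + 1) =
                (M.rk s + 1) * (M.H + i + 1) + (M.H + i + 1) := by ring
            omega
      · rw [step_other ha hb] at hz'; exact absurd rfl hz'

theorem P_bound (hab : a ≠ b) (hM : M.Ok i j v) {p : List α} (hp : p ∈ Pset a b i M) :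
    p.length ≤ (M.R + 1) * (M.H + i + 1) + M.H := by
  rcases hp with rfl | ⟨⟨q2, rfl⟩, hall⟩
  · simp
  · have h1 := P_bound_aux hab hM hall q2 [] (by simp)
    have h2 := hall (Ba a b i ++ q2) [] (by simp) (by simp [Ba]) (Or.inl rfl)
    simp only [Tset, Set.mem_ofPred_eq, not_le] at h2
    have h3 := hM.h_le (run a b i M (M.zero, 0) (Ba a b i ++ q2)).1
    have h4 := hM.rk_le (run a b i M (M.zero, 0) (Ba a b i ++ q2)).1
    have h5 : (M.rk (run a b i M (M.zero, 0) (Ba a b i ++ q2)).1 + 1) * (M.H + i + 1) ≤
      (M.R + 1) * (M.H + i + 1) := Nat.mul_le_mul_right _ (by omega)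
    omega

end Pool.Agent.H93.TW
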