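import Pool.Agent.H93.TW.TZero

/-!
# [RUN] Machines reading gaps

`run (s,n)`: state and number of `b`'s read since the last other letter.
-/

set_option autoImplicit false

namespace Pool.Agent.H93.TW

/-- a machine: states with thresholds `h`, transitions `del` on gaps, a rank -/
structure Machine (σ : Type) where
  zero : σ
  one : σ
  h : σ → ℕ
  del : σ → ℕ → σ
  rk : σ → ℕ
  R : ℕ
  H : ℕ

/-- the conditions of the machine lemma (for the margins `i, j` and the gap list `v`) -/
structure Machine.Ok {σ : Type} (M : Machine σ) (i j : ℕ) (v : List ℕ) : Prop where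
  h_zero : M.h M.zero = 0
  h_one : M.h M.one = j
  h_pos : ∀ s, s ≠ M.zero → 1 ≤ M.h s
  h_le : ∀ s, M.h s ≤ M.H
  rk_le : ∀ s, M.rk s ≤ M.R
  big : ∀ s g, M.h s ≤ g → M.del s g = M.one
  small : ∀ s g, s ≠ M.zero → g < M.h s → M.del s g = M.zero ∨ M.rk s < M.rk (M.del s g)
  acc0 : (v.map (fun g => g - i)).foldl M.del M.zero = M.zero
  acc : ∀ s n, M.h s ≤ n → i ≤ n →
    (v.map (fun g => g - i)).foldl M.del (M.del s (n - i)) = M.zero

variable {α σ : Type}

open Classical in
/-- one letter -/
noncomputable def step (a b : α) (i : ℕ) (M : Machine σ) (s : σ × ℕ) (c : α) : σ × ℕ :=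
  if c = b then (s.1, s.2 + 1)
  else if c = a then (if s.2 < i then (M.zero, 0) else (M.del s.1 (s.2 - i), 0))
  else (M.zero, 0)

/-- a word -/
noncomputable def run (a b : α) (i : ℕ) (M : Machine σ) (s : σ × ℕ) (w : List α) : σ × ℕ :=
  w.foldl (step a b i M) s

/-- the set `T` -/
def Tset (a b : α) (i : ℕ) (M : Machine σ) : Set (List α) :=
  {w | M.h (run a b i M (M.zero, 0) w).1 ≤ (run a b i M (M.zero, 0) w).2}

/-- the word `b^i a` -/
def Ba (a b : α) (i : ℕ) : List α := List.replicate i b ++ [a]

variable {a b : α} {i j : ℕ} {M : Machine σ} {v : List ℕ}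

theorem run_append (s : σ × ℕ) (w w' : List α) :
    run a b i M s (w ++ w') = run a b i M (run a b i M s w) w' := by
  simp [run, List.foldl_append]

theorem run_nil (s : σ × ℕ) : run a b i M s [] = s := rfl

theorem run_cons (s : σ × ℕ) (c : α) (w : List α) :
    run a b i M s (c :: w) = run a b i M (step a b i M s c) w := rfl

theorem step_b (s : σ × ℕ) : step a b i M s b = (s.1, s.2 + 1) := by simp [step]

theorem step_a_lt (hab : a ≠ b) {s : σ × ℕ} (h : s.2 < i) :
    step a b i M s a = (M.zero, 0) := by simp [step, hab, h]

theorem step_a_ge (hab : a ≠ b) {s : σ × ℕ} (h : i ≤ s.2) :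
    step a b i M s a = (M.del s.1 (s.2 - i), 0) := by
  simp [step, hab, Nat.not_lt.2 h]

theorem step_other {c : α} (ha : c ≠ a) (hb : c ≠ b) (s : σ × ℕ) :
    step a b i M s c = (M.zero, 0) := by simp [step, ha, hb]

theorem run_b (s : σ × ℕ) (k : ℕ) :
    run a b i M s (List.replicate k b) = (s.1, s.2 + k) := by
  induction k generalizing s with
  | zero => simp [run_nil]
  | succ k ih =>
    rw [List.replicate_succ, run_cons, step_b, ih]
    simp; omega

theorem run_enc (hab : a ≠ b) (w : List ℕ) (hw : ∀ g ∈ w, i ≤ g) (s : σ) (n q : ℕ) :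
    run a b i M (s, n) (enc a b w q) =
      ((w.map (fun g => g - i)).foldl M.del (if n < i then M.zero else M.del s (n - i)), q) := by
  induction w generalizing s n with
  | nil =>
    simp only [enc, List.map_nil, List.foldl_nil]
    rw [run_cons]
    by_cases h : n < i
    · rw [step_a_lt hab (by simpa using h), run_b]; simp [h]
    · rw [step_a_ge hab (by simpa using Nat.not_lt.1 h), run_b]; simp [h]
  | cons g w ih =>
    have hg : i ≤ g := hw g (by simp)
    simp only [enc, List.map_cons, List.foldl_cons]
    rw [run_append, run_cons]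
    by_cases h : n < i
    · rw [step_a_lt hab (by simpa using h), run_b]
      simp only [zero_add]
      rw [ih (fun x hx => hw x (by simp [hx]))]
      simp [h, Nat.not_lt.2 hg]
    · rw [step_a_ge hab (by simpa using Nat.not_lt.1 h), run_b]
      simp only [zero_add]
      rw [ih (fun x hx => hw x (by simp [hx]))]
      simp [h, Nat.not_lt.2 hg]

theorem run_Ba (hab : a ≠ b) (hM : M.Ok i j v) {s : σ × ℕ} (h : M.h s.1 ≤ s.2) (k : ℕ)
    (hk : i ≤ k) : run a b i M s (List.replicate k b ++ [a]) = (M.one, 0) := by
  rw [run_append, run_b, run_cons, step_a_ge hab (show i ≤ s.2 + k by omega), run_nil]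
  have := hM.big s.1 (s.2 + k - i) (by omega)
  simp only [this]

theorem nil_mem_T (hM : M.Ok i j v) : [] ∈ Tset a b i M := by
  simp [Tset, run_nil, hM.h_zero]

/-- after `b^i a` the run from a word of `T` does not depend on the word -/
theorem run_T_Ba (hab : a ≠ b) (hM : M.Ok i j v) {t : List α} (ht : t ∈ Tset a b i M)
    (w : List α) : run a b i M (M.zero, 0) (t ++ (Ba a b i ++ w)) =
      run a b i M (M.zero, 0) (Ba a b i ++ w) := by
  rw [run_append, run_append (w := Ba a b i), run_append (w := Ba a b i)]
  congr 1
  rw [Ba, run_Ba hab hM ht i le_rfl, run_Ba hab hM (by simp [hM.h_zero]) i le_rfl]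

theorem T_shift (hab : a ≠ b) (hM : M.Ok i j v) {t g : List α} (ht : t ∈ Tset a b i M)
    (hg : Ba a b i <+: g) : t ++ g ∈ Tset a b i M ↔ g ∈ Tset a b i M := by
  obtain ⟨w, rfl⟩ := hg
  simp only [Tset, Set.mem_ofPred_eq]
  rw [run_T_Ba hab hM ht]

/-- the word ends with at least as many `b` as the counter says -/
theorem exists_trailing (hab : a ≠ b) (w : List α) :
    ∃ w', w = w' ++ List.replicate (run a b i M (M.zero, 0) w).2 b := by
  induction w using List.reverseRecOn with
  | nil => exact ⟨[], by simp [run_nil]⟩
  | append_singleton w c ih =>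
    obtain ⟨w', hw'⟩ := ih
    by_cases hb : c = b
    · subst hb
      rw [run_append, run_cons, step_b, run_nil]
      refine ⟨w', ?_⟩
      simp only
      rw [List.replicate_succ', ← List.append_assoc, ← hw']
    · by_cases ha : c = a
      · subst ha
        refine ⟨w ++ [c], ?_⟩
        rw [run_append, run_cons, run_nil]
        by_cases hlt : (run c b i M (M.zero, 0) w).2 < i
        · rw [step_a_lt hab hlt]; simp
        · rw [step_a_ge hab (Nat.not_lt.1 hlt)]; simp
      · refine ⟨w ++ [c], ?_⟩
        rw [run_append, run_cons, run_nil, step_other ha hb]; simp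

/-- a word whose state is not zero ends with `b^i a b^n` -/
theorem exists_last (hab : a ≠ b) (w : List α) (h : (run a b i M (M.zero, 0) w).1 ≠ M.zero) :
    ∃ w', w = w' ++ (Ba a b i ++ List.replicate (run a b i M (M.zero, 0) w).2 b) := by
  induction w using List.reverseRecOn with
  | nil => simp [run_nil] at h
  | append_singleton w c ih =>
    by_cases hb : c = b
    · subst hb
      rw [run_append, run_cons, step_b, run_nil] at h ⊢
      obtain ⟨w', hw'⟩ := ih h
      refine ⟨w', ?_⟩
      simp only
      conv_lhs => rw [hw']
      rw [List.replicate_succ']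
      simp only [List.append_assoc]
    · by_cases ha : c = a
      · subst ha
        rw [run_append, run_cons, run_nil] at h ⊢
        by_cases hlt : (run c b i M (M.zero, 0) w).2 < i
        · rw [step_a_lt hab hlt] at h; exact absurd rfl h
        · have hge := Nat.not_lt.1 hlt
          rw [step_a_ge hab hge] at h ⊢
          obtain ⟨w', hw'⟩ := exists_trailing (i := i) (M := M) hab w
          set n := (run c b i M (M.zero, 0) w).2 with hn
          refine ⟨w' ++ List.replicate (n - i) b, ?_⟩
          simp only [List.replicate_zero, List.append_nil, Ba]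
          conv_lhs => rw [hw']
          rw [show List.replicate n b = List.replicate (n - i) b ++ List.replicate i b by
            rw [List.replicate_append_replicate]; congr 1; omega]
          simp only [List.append_assoc]
      · rw [run_append, run_cons, run_nil, step_other ha hb] at h
        exact absurd rfl h

/-- an initial segment of a word starting with `b^i a` whose remainder starts with `b^i a` or is
empty starts with `b^i a` -/
theorem Ba_prefix_of_cut (hab : a ≠ b) {p g r : List α} (hp : Ba a b i <+: p) (e : p = g ++ r)
    (hg : g ≠ []) (hr : r = [] ∨ Ba a b i <+: r) : Ba a b i <+: g := by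
  have hgp : g <+: p := ⟨r, e.symm⟩
  by_cases hl : (Ba a b i).length ≤ g.length
  · exact List.prefix_of_prefix_length_le hp hgp hl
  · exfalso
    have hl' : g.length < i + 1 := by simpa [Ba] using hl
    rcases hr with rfl | hr
    · have h1 := hp.length_le
      rw [e] at h1
      simp [Ba] at h1
      omega
    · have hpos : 0 < g.length := List.length_pos_iff.2 hg
      have c1 : p[i]? = some a := by
        obtain ⟨w, hw⟩ := hp
        rw [← hw, Ba, List.append_assoc, List.getElem?_append_right (by simp)]
        simp
      have c2 : p[i]? = some b := by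
        obtain ⟨w, hw⟩ := hr
        rw [e, ← hw, List.getElem?_append_right (by omega), Ba, List.append_assoc,
          List.getElem?_append_left (by simp; omega), List.getElem?_replicate]
        have : i - g.length < i := by
          have := hp.length_le
          have h2 : (Ba a b i).length = i + 1 := by simp [Ba]
          omega
        simp [this]
      rw [c1] at c2
      exact hab (Option.some.inj c2)

end Pool.Agent.H93.TW
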