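import Pool.Agent.H93.TW.Emb

/-!
# [PRE] Finite sets of words, none an initial segment of another, and their completions

`Z' = Z ∪ {w : |w| = N, no element of Z is an initial segment of w}`, `N ≥ max |z|`.
-/

set_option autoImplicit false

namespace Pool.Agent.H93.TW

variable {α : Type}

/-- no empty word, no word an initial segment of another -/
def PreFree (Z : Set (List α)) : Prop := [] ∉ Z ∧ ∀ x ∈ Z, ∀ y ∈ Z, x <+: y → x = y

/-- no empty word, no word a final segment of another -/
def SufFree (Z : Set (List α)) : Prop := [] ∉ Z ∧ ∀ x ∈ Z, ∀ y ∈ Z, x <:+ y → x = y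

theorem PreFree.isCode {Z : Set (List α)} (h : PreFree Z) : IsCode Z := by
  intro l₁
  induction l₁ with
  | nil =>
    intro l₂ _ h2 e
    cases l₂ with
    | nil => rfl
    | cons x l =>
      exfalso
      simp only [List.flatten_nil, List.flatten_cons] at e
      have : x = [] := (List.append_eq_nil_iff.1 e.symm).1
      exact h.1 (this ▸ h2 x (by simp))
  | cons x l₁ ih =>
    intro l₂ h1 h2 e
    cases l₂ with
    | nil =>
      exfalso
      simp only [List.flatten_nil, List.flatten_cons] at e
      have : x = [] := (List.append_eq_nil_iff.1 e).1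
      exact h.1 (this ▸ h1 x (by simp))
    | cons y l₂ =>
      rw [List.flatten_cons, List.flatten_cons] at e
      have hxy : x = y := by
        have hx : x <+: y ++ l₂.flatten := ⟨_, e⟩
        have hy : y <+: y ++ l₂.flatten := ⟨_, rfl⟩
        rcases List.prefix_or_prefix_of_prefix hx hy with h3 | h3
        · exact h.2 x (h1 x (by simp)) y (h2 y (by simp)) h3
        · exact (h.2 y (h2 y (by simp)) x (h1 x (by simp)) h3).symm
      subst hxy
      rw [ih l₂ (fun z hz => h1 z (by simp [hz])) (fun z hz => h2 z (by simp [hz]))
        (List.append_cancel_left e)]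

theorem SufFree.preFree {Z : Set (List α)} (h : SufFree Z) : PreFree (rev Z) := by
  refine ⟨fun h0 => h.1 (by simpa [mem_rev] using h0), fun x hx y hy hxy => ?_⟩
  have := h.2 x.reverse hx y.reverse hy (List.reverse_suffix.2 hxy)
  exact List.reverse_injective this

/-- the words of length `n` over a finite alphabet form a finite set -/
theorem exists_finset_length [Finite α] (n : ℕ) :
    ∃ S : Finset (List α), ∀ w, w ∈ S ↔ w.length = n :=
  ⟨(List.finite_length_eq α n).toFinset, fun w => by simp⟩

theorem exists_finset_of_le [Finite α] (n : ℕ) (P : List α → Prop) (h : ∀ w, P w → w.length ≤ n) :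
    ∃ S : Finset (List α), ∀ w, w ∈ S ↔ P w := by
  have hf : {w : List α | P w}.Finite := (List.finite_length_le α n).subset (fun w hw => h w hw)
  exact ⟨hf.toFinset, fun w => by simp⟩

theorem exists_complete [Finite α] (Z : Finset (List α)) (h : PreFree (Z : Set (List α))) :
    ∃ Z' : Finset (List α), Z ⊆ Z' ∧ PreFree (Z' : Set (List α)) ∧
      IsComplete (Z' : Set (List α)) := by
  classical
  set N := Z.sup List.length + 1 with hN
  have hle : ∀ z ∈ Z, z.length ≤ N := fun z hz => (Finset.le_sup hz).trans (by omega)
  obtain ⟨Z', hZ'⟩ := exists_finset_of_le (α := α) N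
    (fun w => w ∈ Z ∨ (w.length = N ∧ ∀ z ∈ Z, ¬ z <+: w)) (by
      rintro w (hw | ⟨hw, -⟩)
      · exact hle w hw
      · exact hw.le)
  have h0 : [] ∉ Z' := by
    rw [hZ']
    rintro (hw | ⟨hw, -⟩)
    · exact h.1 hw
    · simp [hN] at hw
  refine ⟨Z', fun z hz => (hZ' z).2 (Or.inl hz), ⟨h0, ?_⟩, ?_⟩
  · intro x hx y hy hxy
    rcases (hZ' x).1 hx with hx | ⟨hx, hx'⟩ <;> rcases (hZ' y).1 hy with hy | ⟨hy, hy'⟩
    · exact h.2 x hx y hy hxy
    · exact absurd hxy (hy' x hx)
    · exfalso
      have h1 := hxy.length_le
      have h2 := hle y hy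
      have : x = y := hxy.eq_of_length (by omega)
      exact hx' y hy (this ▸ List.prefix_rfl)
    · exact hxy.eq_of_length (by omega)
  · have key : ∀ w : List α, N ≤ w.length → ∃ z ∈ Z', z <+: w := by
      intro w hw
      by_cases hc : ∃ z ∈ Z, z <+: w
      · obtain ⟨z, hz, hzw⟩ := hc
        exact ⟨z, (hZ' z).2 (Or.inl hz), hzw⟩
      · push Not at hc
        refine ⟨w.take N, (hZ' _).2 (Or.inr ⟨by simp [hw], fun z hz hzw => ?_⟩),
          List.take_prefix _ _⟩
        exact hc z hz (hzw.trans (List.take_prefix _ _))
    have main : ∀ n : ℕ, ∀ w : List α, w.length ≤ n →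
        ∃ v : List α, ∃ l : List (List α), (∀ x ∈ l, x ∈ Z') ∧ w ++ v = l.flatten := by
      intro n
      induction n with
      | zero =>
        intro w hw
        refine ⟨[], [], by simp, ?_⟩
        have : w = [] := List.length_eq_zero_iff.1 (by omega)
        simp [this]
      | succ n ih =>
        intro w hw
        rcases w with _ | ⟨c, w⟩
        · exact ⟨[], [], by simp, by simp⟩
        · obtain ⟨z, hz, r, hr⟩ := key ((c :: w) ++ List.replicate N c) (by simp; omega)
          have hz0 : z ≠ [] := fun h => h0 (h ▸ hz)
          rcases List.append_eq_append_iff.1 hr with ⟨as, h1, h2⟩ | ⟨bs, h1, h2⟩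
          · -- c :: w = z ++ as
            have hlen : as.length ≤ n := by
              have := congrArg List.length h1
              simp only [List.length_append] at this
              have hzpos : 0 < z.length := List.length_pos_iff.2 hz0
              omega
            obtain ⟨v, l, hl, e⟩ := ih as hlen
            refine ⟨v, z :: l, ?_, ?_⟩
            · intro x hx
              rcases List.mem_cons.1 hx with rfl | hx
              · exact hz
              · exact hl x hx
            · rw [h1, List.flatten_cons, ← e]; simp
          · refine ⟨bs, [z], by simpa using hz, ?_⟩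
            rw [← h1]; simp
    intro w
    obtain ⟨v, l, hl, e⟩ := main w.length w le_rfl
    exact ⟨[], v, l, hl, by simpa using e⟩

theorem comp_of_preFree [Finite α] {X : Set (List α)} (hf : X.Finite) (h : PreFree X) :
    Comp X := by
  obtain ⟨Z', h1, h2, h3⟩ := exists_complete hf.toFinset (by simpa using h)
  refine ⟨Z', ?_, h2.isCode, h3⟩
  intro x hx
  exact h1 (by simpa using hx)

theorem comp_of_sufFree [Finite α] {X : Set (List α)} (hf : X.Finite) (h : SufFree X) :
    Comp X := by
  have hf' : (rev X).Finite := by
    have : rev X = List.reverse '' X := by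
      ext w
      simp only [mem_rev, Set.mem_image]
      constructor
      · intro hw; exact ⟨w.reverse, hw, by simp⟩
      · rintro ⟨x, hx, rfl⟩; simpa using hx
    rw [this]; exact hf.image _
  exact comp_rev_iff.1 (comp_of_preFree hf' h.preFree)

end Pool.Agent.H93.TW
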