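import Pool.Agent.H93.TW.Pre

/-!
# [PS3] `{p1, w1 p2, w2 p3}` for a code of three incomparable words `p1, p2, p3`

Proof. `{p1,p2,p3}` is contained in a finite complete set `Z'` without initial segments
(`exists_complete`). Over the alphabet `Z'` the three words are `[p1]`, `ŵ1 ++ [p2]`,
`ŵ2 ++ [p3]` with three different last letters: no one is a final segment of another,
`comp_of_sufFree`, then `comp_emb`.
-/

set_option autoImplicit false

namespace Pool.Agent.H93.TW

variable {α : Type}

theorem Inc.symm {x y : List α} (h : Inc x y) : Inc y x := ⟨h.2, h.1⟩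

theorem Inc.ne_nil {x y : List α} (h : Inc x y) : x ≠ [] := by
  rintro rfl
  exact h.1 (List.nil_prefix)

theorem Inc.ne {x y : List α} (h : Inc x y) : x ≠ y := by
  rintro rfl
  exact h.1 (List.prefix_rfl)

theorem preFree_triple {p1 p2 p3 : List α} (h12 : Inc p1 p2) (h13 : Inc p1 p3)
    (h23 : Inc p2 p3) : PreFree {p1, p2, p3} := by
  refine ⟨?_, ?_⟩
  · simp only [Set.mem_insert_iff, Set.mem_singleton_iff, not_or]
    exact ⟨h12.ne_nil.symm, h12.symm.ne_nil.symm, h13.symm.ne_nil.symm⟩
  · intro x hx y hy hxy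
    simp only [Set.mem_insert_iff, Set.mem_singleton_iff] at hx hy
    rcases hx with rfl | rfl | rfl <;> rcases hy with rfl | rfl | rfl
    · rfl
    · exact absurd hxy h12.1
    · exact absurd hxy h13.1
    · exact absurd hxy h12.2
    · rfl
    · exact absurd hxy h23.1
    · exact absurd hxy h13.2
    · exact absurd hxy h23.2
    · rfl

/-- words with three different last letters -/
theorem sufFree_last {β : Type} {c1 c2 c3 : β} (h12 : c1 ≠ c2) (h13 : c1 ≠ c3) (h23 : c2 ≠ c3)
    (w1 w2 w3 : List β) : SufFree ({w1 ++ [c1], w2 ++ [c2], w3 ++ [c3]} : Set (List β)) := by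
  have key : ∀ (u v : List β) (c d : β), u ++ [c] <:+ v ++ [d] → c = d := by
    intro u v c d h
    obtain ⟨t, ht⟩ := h
    rw [← List.append_assoc] at ht
    have := List.append_inj_right' ht rfl
    simpa using this
  refine ⟨by simp, ?_⟩
  intro x hx y hy hxy
  simp only [Set.mem_insert_iff, Set.mem_singleton_iff] at hx hy
  rcases hx with rfl | rfl | rfl <;> rcases hy with rfl | rfl | rfl
  · rfl
  · exact absurd (key _ _ _ _ hxy) h12
  · exact absurd (key _ _ _ _ hxy) h13
  · exact absurd (key _ _ _ _ hxy).symm h12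
  · rfl
  · exact absurd (key _ _ _ _ hxy) h23
  · exact absurd (key _ _ _ _ hxy).symm h13
  · exact absurd (key _ _ _ _ hxy).symm h23
  · rfl

theorem ps3 [Finite α] {p1 p2 p3 w1 w2 : List α} (h12 : Inc p1 p2) (h13 : Inc p1 p3)
    (h23 : Inc p2 p3) (hw1 : w1 ∈ Star {p1, p2, p3}) (hw2 : w2 ∈ Star {p1, p2, p3}) :
    Comp {p1, w1 ++ p2, w2 ++ p3} := by
  classical
  obtain ⟨Z', h1, h2, h3⟩ := exists_complete ({p1, p2, p3} : Finset (List α))
    (by simpa using preFree_triple h12 h13 h23)
  have m1 : p1 ∈ Z' := h1 (by simp)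
  have m2 : p2 ∈ Z' := h1 (by simp)
  have m3 : p3 ∈ Z' := h1 (by simp)
  have hsub : ({p1, p2, p3} : Set (List α)) ⊆ (Z' : Set (List α)) := by
    intro x hx
    simp only [Set.mem_insert_iff, Set.mem_singleton_iff] at hx
    rcases hx with rfl | rfl | rfl
    · exact m1
    · exact m2
    · exact m3
  obtain ⟨v1, hv1⟩ := exists_emb (Z := Z') (Star.mono hsub hw1)
  obtain ⟨v2, hv2⟩ := exists_emb (Z := Z') (Star.mono hsub hw2)
  have hc : Comp ({[] ++ [⟨p1, m1⟩], v1 ++ [⟨p2, m2⟩], v2 ++ [⟨p3, m3⟩]} :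
      Set (List {z // z ∈ Z'})) := by
    refine comp_of_sufFree (Set.toFinite _) (sufFree_last ?_ ?_ ?_ _ _ _)
    · intro h; exact h12.ne (congrArg Subtype.val h)
    · intro h; exact h13.ne (congrArg Subtype.val h)
    · intro h; exact h23.ne (congrArg Subtype.val h)
  have := comp_emb h2.isCode h3 hc
  rw [Set.image_insert_eq, Set.image_insert_eq, Set.image_singleton, emb_append, emb_append,
    emb_append, hv1, hv2] at this
  simpa [emb] using this

theorem sp3 [Finite α] {p1 p2 p3 w1 w2 : List α} (h12 : Inr p1 p2) (h13 : Inr p1 p3)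
    (h23 : Inr p2 p3) (hw1 : w1 ∈ Star {p1, p2, p3}) (hw2 : w2 ∈ Star {p1, p2, p3}) :
    Comp {p1, p2 ++ w1, p3 ++ w2} := by
  have conv : ∀ {x y : List α}, Inr x y → Inc x.reverse y.reverse := by
    intro x y h
    exact ⟨fun h' => h.1 (List.reverse_prefix.1 h'), fun h' => h.2 (List.reverse_prefix.1 h')⟩
  have := ps3 (conv h12) (conv h13) (conv h23)
    (by have := Star.rev hw1; rwa [rev_triple] at this)
    (by have := Star.rev hw2; rwa [rev_triple] at this)
  rw [← comp_rev_iff, rev_triple] at this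
  simpa using this

end Pool.Agent.H93.TW
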