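import Pool.Agent.H93.TW.Ps3

/-!
# [RED] Making the b-margins of the second word larger
-/

set_option autoImplicit false

namespace Pool.Agent.H93.TW

variable {α : Type}

theorem inc_head {β : Type} {c d : β} (h : c ≠ d) (x y : List β) : Inc (c :: x) (d :: y) := by
  refine ⟨fun h' => ?_, fun h' => ?_⟩
  · exact h (List.cons_prefix_cons.1 h').1
  · exact h (List.cons_prefix_cons.1 h').1.symm

theorem red [Finite α] {b : α} {i j : ℕ} {g z : List α}
    (hbg : [b] ≠ g) (hbz : [b] ≠ z) (hgz : g ≠ z) (h : Comp {[b], g, z}) :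
    Comp {[b], List.replicate i b ++ g ++ List.replicate j b, z} := by
  obtain ⟨Y, h1, h2, h3⟩ := h
  have mb : [b] ∈ Y := h1 (by simp)
  have mg : g ∈ Y := h1 (by simp)
  have mz : z ∈ Y := h1 (by simp)
  have nbg : (⟨[b], mb⟩ : {z // z ∈ Y}) ≠ ⟨g, mg⟩ := fun h => hbg (congrArg Subtype.val h)
  have nbz : (⟨[b], mb⟩ : {z // z ∈ Y}) ≠ ⟨z, mz⟩ := fun h => hbz (congrArg Subtype.val h)
  have ngz : (⟨g, mg⟩ : {z // z ∈ Y}) ≠ ⟨z, mz⟩ := fun h => hgz (congrArg Subtype.val h)
  have hst : ∀ n, List.replicate n (⟨[b], mb⟩ : {z // z ∈ Y}) ∈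
      Star ({[⟨[b], mb⟩], [⟨g, mg⟩] ++ List.replicate j ⟨[b], mb⟩, [⟨z, mz⟩]} :
        Set (List {z // z ∈ Y})) := by
    intro n
    exact Star.replicate (Star.of_mem (by simp)) n
  have hps := ps3 (p1 := [(⟨[b], mb⟩ : {z // z ∈ Y})])
    (p2 := [⟨g, mg⟩] ++ List.replicate j ⟨[b], mb⟩) (p3 := [⟨z, mz⟩])
    (w1 := List.replicate i ⟨[b], mb⟩) (w2 := [])
    (inc_head nbg _ _) (inc_head nbz _ _) (inc_head ngz _ _) (hst i) (Star.nil_mem _)
  have := comp_emb h2 h3 hps
  rw [Set.image_insert_eq, Set.image_insert_eq, Set.image_singleton] at this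
  have hrep : ∀ n, emb Y (List.replicate n (⟨[b], mb⟩ : {z // z ∈ Y})) = List.replicate n b := by
    intro n
    induction n with
    | zero => simp [emb]
    | succ n ih =>
      rw [List.replicate_succ, List.replicate_succ]
      have : emb Y ((⟨[b], mb⟩ : {z // z ∈ Y}) :: List.replicate n ⟨[b], mb⟩) =
        [b] ++ emb Y (List.replicate n ⟨[b], mb⟩) := by simp [emb]
      rw [this, ih]; simp
  rw [emb_append, emb_append, emb_append, hrep, hrep] at this
  simpa [emb] using this

theorem replicate_split {b : α} {i i' : ℕ} (h : i' ≤ i) :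
    List.replicate i b = List.replicate (i - i') b ++ List.replicate i' b := by
  rw [List.replicate_append_replicate]; congr 1; omega

theorem replicate_split' {b : α} {i i' : ℕ} (h : i' ≤ i) :
    List.replicate i b = List.replicate i' b ++ List.replicate (i - i') b := by
  rw [List.replicate_append_replicate]; congr 1; omega

/-- RED -/
theorem red' [Finite α] {a b : α} (hab : a ≠ b) {i j i' j' : ℕ} (hi : i' ≤ i) (hj : j' ≤ j)
    {z : List α} (hbz : [b] ≠ z) (hyz : List.replicate i' b ++ a :: List.replicate j' b ≠ z)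
    (h : Comp {[b], List.replicate i' b ++ a :: List.replicate j' b, z}) :
    Comp {[b], List.replicate i b ++ a :: List.replicate j b, z} := by
  have hne : [b] ≠ List.replicate i' b ++ a :: List.replicate j' b := by
    intro h
    have : a ∈ [b] := by rw [h]; simp
    simp at this
    exact hab this
  have := red (i := i - i') (j := j - j') hne hbz hyz h
  rw [replicate_split hi, replicate_split' hj]
  have e : List.replicate (i - i') b ++ List.replicate i' b ++
      a :: (List.replicate j' b ++ List.replicate (j - j') b) =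
      List.replicate (i - i') b ++ (List.replicate i' b ++ a :: List.replicate j' b) ++
      List.replicate (j - j') b := by
    simp only [List.append_assoc, List.cons_append]
  rw [e]; exact this

end Pool.Agent.H93.TW
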