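import Pool.Agent.H93.TW.Enc

/-!
# [REL] Relations: the cases in which `{b, y, z}` is not a code
-/

set_option autoImplicit false

namespace Pool.Agent.H93.TW

variable {α : Type} {a b : α}

/-- `k` times the word `b` -/
def bs (b : α) (k : ℕ) : List (List α) := List.replicate k [b]

theorem bs_flatten (k : ℕ) : (bs b k).flatten = List.replicate k b := by
  induction k with
  | zero => rfl
  | succ k ih =>
    rw [bs, List.replicate_succ, List.flatten_cons, List.replicate_succ]
    rw [bs] at ih
    rw [ih]; rfl

theorem mem_bs {X : Set (List α)} (h : [b] ∈ X) {k : ℕ} {x : List α} (hx : x ∈ bs b k) :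
    x ∈ X := by
  rw [List.eq_of_mem_replicate hx]; exact h

/-- different heads -/
theorem not_code_heads {X : Set (List α)} {l₁ l₂ : List (List α)} (h1 : ∀ x ∈ l₁, x ∈ X)
    (h2 : ∀ x ∈ l₂, x ∈ X) (he : l₁.flatten = l₂.flatten) (hh : l₁.head? ≠ l₂.head?) :
    ¬ IsCode X := by
  intro hX
  exact hh (by rw [hX l₁ l₂ h1 h2 he])

theorem word_ne_b (hab : a ≠ b) (i j : ℕ) (u : List ℕ) :
    List.replicate i b ++ enc a b u j ≠ [b] := by
  intro h
  have : a ∈ List.replicate i b ++ enc a b u j := List.mem_append_right _ (enc_mem_a u j)
  rw [h] at this
  simp at this
  exact hab this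

/-- `R n m ++ R k m' = R (n+k+1) m'` -/
theorem enc_rep_append (m n k q : ℕ) :
    enc a b (List.replicate n m) m ++ enc a b (List.replicate k m) q =
      enc a b (List.replicate (n + k + 1) m) q := by
  rw [← enc_append, ← List.replicate_succ, List.replicate_append_replicate]
  congr 2

theorem relA (hab : a ≠ b) {i j m p q : ℕ} (hi : i ≤ m) (hj : j ≤ m)
    (hne : List.replicate i b ++ enc a b (List.replicate p m) j ≠
      enc a b (List.replicate q m) 0) :
    ¬ IsCode ({[b], List.replicate i b ++ enc a b (List.replicate p m) j,
      enc a b (List.replicate q m) 0} : Set (List α)) := by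
  set y := List.replicate i b ++ enc a b (List.replicate p m) j with hy
  set z := enc a b (List.replicate q m) 0 with hz
  have hyb : y ≠ [b] := word_ne_b hab _ _ _
  refine not_code_heads (l₁ := [y] ++ bs b (m - j) ++ [z] ++ bs b j)
    (l₂ := bs b i ++ [z] ++ bs b (m - i) ++ [y]) ?_ ?_ ?_ ?_
  · intro x hx
    simp only [List.mem_append, List.mem_singleton] at hx
    rcases hx with ((rfl | hx) | rfl) | hx
    · simp
    · exact mem_bs (by simp) hx
    · simp
    · exact mem_bs (by simp) hx
  · intro x hx
    simp only [List.mem_append, List.mem_singleton] at hx
    rcases hx with ((hx | rfl) | hx) | rfl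
    · exact mem_bs (by simp) hx
    · simp
    · exact mem_bs (by simp) hx
    · simp
  · simp only [List.flatten_append, bs_flatten, List.flatten_cons, List.flatten_nil,
      List.append_nil]
    have e1 : y ++ List.replicate (m - j) b ++ z ++ List.replicate j b =
        List.replicate i b ++ (enc a b (List.replicate p m) j ++ List.replicate (m - j) b ++
          (z ++ List.replicate j b)) := by rw [hy]; simp
    have e2 : List.replicate i b ++ z ++ List.replicate (m - i) b ++ y =
        List.replicate i b ++ ((z ++ (List.replicate (m - i) b ++ List.replicate i b)) ++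
          enc a b (List.replicate p m) j) := by rw [hy]; simp only [List.append_assoc]
    rw [e1, e2, List.replicate_append_replicate, hz, enc_append_replicate, enc_append_replicate,
      enc_append_replicate, show j + (m - j) = m by omega, show 0 + (m - i + i) = m by omega,
      show 0 + j = j by omega, enc_rep_append, enc_rep_append, Nat.add_comm p q]
  · rcases i with _ | i
    · simp only [List.cons_append, List.nil_append, bs, List.replicate_zero, List.head?_cons]
      intro h
      exact hne (Option.some.inj h)
    · simp only [List.cons_append, List.nil_append, bs, List.replicate_succ, List.head?_cons]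
      intro h
      exact hyb (Option.some.inj h)

theorem rep_block (m p q : ℕ) :
    enc a b (List.replicate p m) 0 ++
      (List.replicate q (List.replicate m b ++ enc a b (List.replicate p m) 0)).flatten =
      enc a b (List.replicate (p + q * (p + 1)) m) 0 := by
  induction q with
  | zero => simp
  | succ q ih =>
    rw [List.replicate_succ', List.flatten_append, ← List.append_assoc, ih]
    simp only [List.flatten_cons, List.flatten_nil, List.append_nil]
    rw [← List.append_assoc, enc_append_replicate, Nat.zero_add, enc_rep_append]
    congr 2; ring

theorem shift_block (s t : List α) (w : List α) (k : ℕ) :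
    s ++ (List.replicate k (t ++ w ++ s)).flatten =
      (List.replicate k (s ++ t ++ w)).flatten ++ s := by
  induction k with
  | zero => simp
  | succ k ih =>
    rw [List.replicate_succ, List.flatten_cons, List.replicate_succ, List.flatten_cons,
      List.append_assoc (s ++ t ++ w), ← ih]
    simp

theorem relB (hab : a ≠ b) {i j m p q : ℕ} (hi : i ≤ m) (hj : j ≤ m)
    (hne : List.replicate i b ++ enc a b (List.replicate p m) 0 ≠
      enc a b (List.replicate q m) j) :
    ¬ IsCode ({[b], List.replicate i b ++ enc a b (List.replicate p m) 0,
      enc a b (List.replicate q m) j} : Set (List α)) := by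
  set y := List.replicate i b ++ enc a b (List.replicate p m) 0 with hy
  set z := enc a b (List.replicate q m) j with hz
  have hyb : y ≠ [b] := word_ne_b hab _ _ _
  refine not_code_heads
    (l₁ := [y] ++ (List.replicate q (bs b (m - i) ++ [y])).flatten ++ bs b j)
    (l₂ := bs b i ++ [z] ++ (List.replicate p (bs b (m - j) ++ [z])).flatten) ?_ ?_ ?_ ?_
  · intro x hx
    simp only [List.mem_append, List.mem_singleton, List.mem_flatten] at hx
    rcases hx with (rfl | ⟨l, hl, hx⟩) | hx
    · simp
    · rw [List.eq_of_mem_replicate hl] at hx
      simp only [List.mem_append, List.mem_singleton] at hx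
      rcases hx with hx | rfl
      · exact mem_bs (by simp) hx
      · simp
    · exact mem_bs (by simp) hx
  · intro x hx
    simp only [List.mem_append, List.mem_singleton, List.mem_flatten] at hx
    rcases hx with (hx | rfl) | ⟨l, hl, hx⟩
    · exact mem_bs (by simp) hx
    · simp
    · rw [List.eq_of_mem_replicate hl] at hx
      simp only [List.mem_append, List.mem_singleton] at hx
      rcases hx with hx | rfl
      · exact mem_bs (by simp) hx
      · simp
  · have hff : ∀ (l : List (List α)) (k : ℕ), ((List.replicate k l).flatten).flatten =
        (List.replicate k l.flatten).flatten := by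
      intro l k
      induction k with
      | zero => simp
      | succ k ih =>
        rw [List.replicate_succ, List.flatten_cons, List.flatten_append, ih,
          List.replicate_succ, List.flatten_cons]
    simp only [List.flatten_append, bs_flatten, List.flatten_cons, List.flatten_nil,
      List.append_nil, hff]
    have e1 : List.replicate (m - i) b ++ y = List.replicate m b ++
        enc a b (List.replicate p m) 0 := by
      rw [hy, ← List.append_assoc, List.replicate_append_replicate]
      congr 2; omega
    have hz' : z = enc a b (List.replicate q m) 0 ++ List.replicate j b := by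
      rw [hz, enc_append_replicate, Nat.zero_add]
    have e2 : List.replicate (m - j) b ++ z = List.replicate (m - j) b ++
        enc a b (List.replicate q m) 0 ++ List.replicate j b := by
      rw [hz', List.append_assoc]
    rw [e1, e2, hz']
    have e3 : List.replicate i b ++ (enc a b (List.replicate q m) 0 ++ List.replicate j b) ++
        (List.replicate p (List.replicate (m - j) b ++ enc a b (List.replicate q m) 0 ++
          List.replicate j b)).flatten =
        List.replicate i b ++ (enc a b (List.replicate q m) 0 ++ (List.replicate j b ++
        (List.replicate p (List.replicate (m - j) b ++ enc a b (List.replicate q m) 0 ++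
          List.replicate j b)).flatten)) := by simp
    rw [e3, shift_block, List.replicate_append_replicate, show j + (m - j) = m by omega,
      ← List.append_assoc (enc a b (List.replicate q m) 0), rep_block, hy]
    have e4 : List.replicate i b ++ enc a b (List.replicate p m) 0 ++
        (List.replicate q (List.replicate m b ++ enc a b (List.replicate p m) 0)).flatten ++
        List.replicate j b = List.replicate i b ++ (enc a b (List.replicate p m) 0 ++
        (List.replicate q (List.replicate m b ++ enc a b (List.replicate p m) 0)).flatten) ++
        List.replicate j b := by simp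
    rw [e4, rep_block, show p + q * (p + 1) = q + p * (q + 1) by ring]
    simp
  · rcases i with _ | i
    · simp only [List.cons_append, List.nil_append, bs, List.replicate_zero, List.head?_cons]
      intro h
      exact hne (Option.some.inj h)
    · simp only [List.cons_append, List.nil_append, bs, List.replicate_succ, List.head?_cons]
      intro h
      exact hyb (Option.some.inj h)

/-- both words have one letter `a` -/
theorem rel11 (i j i' j' : ℕ)
    (hne : List.replicate i b ++ enc a b [] j ≠ List.replicate i' b ++ enc a b [] j') :
    ¬ IsCode ({[b], List.replicate i b ++ enc a b [] j,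
      List.replicate i' b ++ enc a b [] j'} : Set (List α)) := by
  set y := List.replicate i b ++ enc a b [] j with hy
  set z := List.replicate i' b ++ enc a b [] j' with hz
  intro hX
  have h := hX (bs b i' ++ [y] ++ bs b j') (bs b i ++ [z] ++ bs b j) (by
    intro x hx
    simp only [List.mem_append, List.mem_singleton] at hx
    rcases hx with (hx | rfl) | hx
    · exact mem_bs (by simp) hx
    · simp
    · exact mem_bs (by simp) hx) (by
    intro x hx
    simp only [List.mem_append, List.mem_singleton] at hx
    rcases hx with (hx | rfl) | hx
    · exact mem_bs (by simp) hx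
    · simp
    · exact mem_bs (by simp) hx) (by
    simp only [List.flatten_append, bs_flatten, List.flatten_cons, List.flatten_nil,
      List.append_nil, hy, hz, enc]
    have : ∀ p q r s : ℕ, List.replicate p b ++ (List.replicate q b ++ a :: List.replicate r b) ++
        List.replicate s b = List.replicate (p + q) b ++ a :: List.replicate (r + s) b := by
      intro p q r s
      rw [← List.replicate_append_replicate, ← List.replicate_append_replicate]
      simp only [List.append_assoc, List.cons_append]
    rw [this, this, Nat.add_comm i' i, Nat.add_comm j j'])
  by_cases hii : i' = i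
  · subst hii
    rw [List.append_assoc, List.append_assoc] at h
    have h2 := List.append_cancel_left h
    simp only [List.cons_append, List.nil_append, List.cons.injEq] at h2
    exact hne h2.1
  · have hyz : y ≠ [b] ∨ z ≠ [b] := by
      by_contra hcon
      push Not at hcon
      exact hne (hcon.1.trans hcon.2.symm)
    -- compare the lengths of the first entries equal to `[b]`
    have h3 : ∀ (p : ℕ) (w : List α) (r : ℕ), (bs b p ++ [w] ++ bs b r)[p]? = some w := by
      intro p w r
      rw [List.append_assoc, List.getElem?_append_right (by simp [bs])]
      simp [bs]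
    have h4 : ∀ (p : ℕ) (w : List α) (r k : ℕ), k < p + 1 + r → k ≠ p →
        (bs b p ++ [w] ++ bs b r)[k]? = some [b] := by
      intro p w r k hk hkp
      rw [List.append_assoc]
      by_cases hlt : k < p
      · rw [List.getElem?_append_left (by simp [bs]; exact hlt), bs, List.getElem?_replicate]
        simp [hlt]
      · rw [List.getElem?_append_right (by simp [bs]; omega)]
        obtain ⟨e, he⟩ : ∃ e, k - (bs b p).length = e + 1 :=
          ⟨k - p - 1, by simp [bs]; omega⟩
        rw [he, List.cons_append, List.getElem?_cons_succ, List.nil_append, bs,
          List.getElem?_replicate]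
        have : k = p + e + 1 := by simp [bs] at he; omega
        have : e < r := by omega
        simp [this]
    have hlen : i' + 1 + j' = i + 1 + j := by
      have := congrArg List.length h
      simpa [bs, Nat.add_assoc, Nat.add_comm, Nat.add_left_comm] using this
    have k1 := h3 i' y j'
    have k2 := h3 i z j
    rw [h, h4 i z j i' (by omega) hii] at k1
    rw [← h, h4 i' y j' i (by omega) (Ne.symm hii)] at k2
    rcases hyz with h5 | h5
    · exact h5 (Option.some.inj k1).symm
    · exact h5 (Option.some.inj k2).symm

/-- the product of `b`'s and the word `y = a b^j` -/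
theorem star_one {j : ℕ} (v : List ℕ) (hv : ∀ g ∈ v, j ≤ g) :
    enc a b v j ∈ Star ({[b], enc a b [] j} : Set (List α)) := by
  induction v with
  | nil => exact Star.of_mem (by simp)
  | cons g v ih =>
    have hg := hv g (by simp)
    have e : enc a b (g :: v) j = enc a b [] j ++ (List.replicate (g - j) b ++ enc a b v j) := by
      rw [← List.append_assoc, enc_append_replicate, show j + (g - j) = g by omega]
      simp [enc]
    rw [e]
    exact Star.append (Star.of_mem (by simp))
      (Star.append (Star.replicate (Star.of_mem (by simp)) _) (ih (fun x hx => hv x (by simp [hx]))))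

/-- a word containing `z` in its list is not a product of `b` and `y` -/
theorem not_code_star {y z : List α} (hzb : z ≠ [b]) (hzy : z ≠ y) {l : List (List α)}
    (hl : ∀ x ∈ l, x ∈ ({[b], y, z} : Set (List α))) (hz : z ∈ l)
    (hs : l.flatten ∈ Star ({[b], y} : Set (List α))) :
    ¬ IsCode ({[b], y, z} : Set (List α)) := by
  intro hX
  obtain ⟨l', hl', e⟩ := hs
  have := hX l l' hl (fun x hx => by
    have := hl' x hx
    simp only [Set.mem_insert_iff, Set.mem_singleton_iff] at this ⊢
    rcases this with h | h
    · exact Or.inl h
    · exact Or.inr (Or.inl h)) e.symm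
  rw [this] at hz
  have := hl' z hz
  simp only [Set.mem_insert_iff, Set.mem_singleton_iff] at this
  rcases this with h | h
  · exact hzb h
  · exact hzy h

/-- `y = a b^j`, `z = b^i' W(v)` -/
theorem relOne {j i' : ℕ} {v : List ℕ} (hv : ∀ g ∈ v, j ≤ g)
    (hzb : List.replicate i' b ++ enc a b v 0 ≠ [b])
    (hne : List.replicate i' b ++ enc a b v 0 ≠ enc a b [] j) :
    ¬ IsCode ({[b], enc a b [] j, List.replicate i' b ++ enc a b v 0} : Set (List α)) := by
  refine not_code_star hzb hne (l := [List.replicate i' b ++ enc a b v 0] ++ bs b j) ?_ (by simp) ?_
  · intro x hx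
    simp only [List.mem_append, List.mem_singleton] at hx
    rcases hx with rfl | hx
    · simp
    · exact mem_bs (by simp) hx
  · rw [List.flatten_append, bs_flatten]
    simp only [List.flatten_cons, List.flatten_nil, List.append_nil]
    rw [List.append_assoc, enc_append_replicate, Nat.zero_add]
    exact Star.append (Star.replicate (Star.of_mem (by simp)) _) (star_one v hv)

/-- `b^i W(G) b^j` is a product of `b`'s and `y`, starting with `y` -/
theorem star_big {i j : ℕ} (G : List ℕ) (hG : ∀ g ∈ G, i + j ≤ g) :
    ∃ l : List (List α), (∀ x ∈ l, x = [b] ∨ x = List.replicate i b ++ enc a b [] j) ∧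
      ((List.replicate i b ++ enc a b [] j) :: l).flatten =
        List.replicate i b ++ enc a b G j := by
  induction G with
  | nil => exact ⟨[], by simp, by simp⟩
  | cons g G ih =>
    have hg := hG g (by simp)
    obtain ⟨l, h1, h2⟩ := ih (fun x hx => hG x (by simp [hx]))
    refine ⟨bs b (g - i - j) ++ (List.replicate i b ++ enc a b [] j) :: l, ?_, ?_⟩
    · intro x hx
      simp only [List.mem_append, List.mem_cons] at hx
      rcases hx with hx | rfl | hx
      · exact Or.inl (List.eq_of_mem_replicate hx)
      · exact Or.inr rfl
      · exact h1 x hx
    · rw [List.flatten_cons, List.flatten_append, bs_flatten, h2]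
      have e : List.replicate i b ++ enc a b [] j ++
          (List.replicate (g - i - j) b ++ (List.replicate i b ++ enc a b G j)) =
          List.replicate i b ++ ((enc a b [] j ++ List.replicate (g - i - j) b ++
            List.replicate i b) ++ enc a b G j) := by simp only [List.append_assoc]
      rw [e, enc_append_replicate, enc_append_replicate, show j + (g - i - j) + i = g by omega]
      simp [enc]

theorem relPer (hab : a ≠ b) {i j : ℕ} (hi : 1 ≤ i) {v : List ℕ}
    (hvi : ∀ g ∈ v, i ≤ g ∧ j ≤ g) (hp : Periodic (i + j) v) :
    ¬ IsCode ({[b], List.replicate i b ++ enc a b [] j, enc a b v 0} : Set (List α)) := by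
  obtain ⟨G, m, hmi, hmj, hG, hcomm⟩ : ∃ (G : List ℕ) (m : ℕ), i ≤ m ∧ j ≤ m ∧
      (∀ g ∈ G, i + j ≤ g) ∧ G ++ m :: v = v ++ m :: G := by
    obtain ⟨G, m, K, hm, hG, hv⟩ := hp
    rcases K with _ | K
    · refine ⟨G, max i j, le_max_left _ _, le_max_right _ _, hG, ?_⟩
      simp at hv
      rw [hv]
    · have hmv : m ∈ v := by
        rw [hv, List.replicate_succ]; simp
      refine ⟨G, m, (hvi m hmv).1, (hvi m hmv).2, hG, ?_⟩
      have e1 : G ++ m :: v = (List.replicate (K + 1 + 1) (G ++ [m])).flatten ++ G := by
        rw [List.replicate_succ, List.flatten_cons, hv]; simp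
      have e2 : v ++ m :: G = (List.replicate (K + 1 + 1) (G ++ [m])).flatten ++ G := by
        rw [List.replicate_succ', List.flatten_append, hv]; simp
      rw [e1, e2]
  obtain ⟨l, hl1, hl2⟩ := star_big (a := a) (b := b) (i := i) (j := j) G hG
  set y := List.replicate i b ++ enc a b [] j with hy
  set z := enc a b v 0 with hz
  have hyb : y ≠ [b] := word_ne_b hab _ _ _
  have hl1' : ∀ x ∈ y :: l, x ∈ ({[b], y, z} : Set (List α)) := by
    intro x hx
    rcases List.mem_cons.1 hx with rfl | hx
    · simp
    · rcases hl1 x hx with rfl | rfl <;> simp
  refine not_code_heads (l₁ := (y :: l) ++ bs b (m - j) ++ [z] ++ bs b j)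
    (l₂ := bs b i ++ [z] ++ bs b (m - i) ++ (y :: l)) ?_ ?_ ?_ ?_
  · intro x hx
    simp only [List.mem_append, List.mem_singleton] at hx
    rcases hx with ((hx | hx) | rfl) | hx
    · exact hl1' x hx
    · exact mem_bs (by simp) hx
    · simp
    · exact mem_bs (by simp) hx
  · intro x hx
    simp only [List.mem_append, List.mem_singleton] at hx
    rcases hx with ((hx | rfl) | hx) | hx
    · exact mem_bs (by simp) hx
    · simp
    · exact mem_bs (by simp) hx
    · exact hl1' x hx
  · rw [List.flatten_append, List.flatten_append, List.flatten_append, hl2, List.flatten_append,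
      List.flatten_append, List.flatten_append, hl2]
    simp only [bs_flatten, List.flatten_cons, List.flatten_nil, List.append_nil]
    have e1 : List.replicate i b ++ enc a b G j ++ List.replicate (m - j) b ++ z ++
        List.replicate j b = List.replicate i b ++ ((enc a b G j ++ List.replicate (m - j) b) ++
        (z ++ List.replicate j b)) := by simp
    have e2 : List.replicate i b ++ z ++ List.replicate (m - i) b ++
        (List.replicate i b ++ enc a b G j) = List.replicate i b ++
        ((z ++ List.replicate (m - i) b ++ List.replicate i b) ++ enc a b G j) := by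
      simp only [List.append_assoc]
    rw [e1, e2, hz, enc_append_replicate, enc_append_replicate, enc_append_replicate,
      enc_append_replicate, show j + (m - j) = m by omega, Nat.zero_add,
      show 0 + (m - i) + i = m by omega, ← enc_append, ← enc_append, hcomm]
  · obtain ⟨i, rfl⟩ : ∃ k, i = k + 1 := ⟨i - 1, by omega⟩
    simp only [List.cons_append, bs, List.replicate_succ, List.head?_cons]
    intro h
    exact hyb (Option.some.inj h)

end Pool.Agent.H93.TW
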