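import Pool.Agent.H93.TW.Pre

/-!
# [T0] The abstract completion lemma

`T, P, D` sets of words, `1 ∈ T`, every word has exactly one factorisation `t p`, the words of `P`
have bounded length, `D` is a suffix code (bounded, no empty word) such that every long word has
a suffix in `D`, and for `p ∈ P`, `d ∈ D` the condition `t p d ∈ T` does not depend on `t ∈ T`.
Then `Y = {p d : t p d ∈ T for all t ∈ T}` is a finite complete code.

Proof. (1) `T Y ⊆ T`. (2) `t y = t' y'` with `t,t' ∈ T`, `y = p d`, `y' = p' d'`: `d, d'` are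
suffixes of the same word, so comparable, `d = d'`; cancel; `t p = t' p'` gives `t = t'`, so
`y = y'`. (3) code: two lists of words of `Y` with the same product; induction on the length of the
first list from the right (`List.reverseRecOn`): the product of a list of words of `Y` is in `T`
(from `1 ∈ T` and (1)). (4) every `t ∈ T` with `|t| ≥ L0` is `t1 y`, `t1 ∈ T`, `y ∈ Y`: write
`t = w d`, `w = t1 p`. (5) every `t ∈ T` is `t0 ++ l.flatten`, `l` words of `Y`, `|t0| < L0`
(strong induction on the length, `y ≠ []`). (6) complete: given `w ≠ []` (trivial otherwise),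
`u = w^n = t p`, `n = L0 + C + 2`-ish; `t = t0 ++ l.flatten`, `|t0| < L0`, `|p| ≤ C`; `w^n` has the
factor `w` in the positions `[k|w|, (k+1)|w|)`, choose `k` with `k |w| ≥ L0` and
`(n-k-1) |w| ≥ C`: `w^n = w^k w w^(n-k-1) = t0 ++ (l.flatten) ++ p`, so `w` is a factor of
`l.flatten`.
-/

set_option autoImplicit false

namespace Pool.Agent.H93.TW

variable {α : Type}

theorem factor_of_lengths {x y z t m p : List α} (h : x ++ y ++ z = t ++ m ++ p)
    (h1 : t.length ≤ x.length) (h2 : p.length ≤ z.length) :
    ∃ u v, u ++ y ++ v = m := by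
  have hx : t <+: x := by
    have a1 : t <+: x ++ y ++ z := ⟨m ++ p, by rw [h]; simp⟩
    have a2 : x <+: x ++ y ++ z := ⟨y ++ z, by simp⟩
    exact List.prefix_of_prefix_length_le a1 a2 h1
  have hz : p <:+ z := by
    have a1 : p <:+ x ++ y ++ z := ⟨t ++ m, by rw [h]⟩
    have a2 : z <:+ x ++ y ++ z := ⟨x ++ y, rfl⟩
    exact List.suffix_of_suffix_length_le a1 a2 h2
  obtain ⟨u, rfl⟩ := hx
  obtain ⟨v, rfl⟩ := hz
  refine ⟨u, v, ?_⟩
  have : t ++ (u ++ y ++ v) ++ p = t ++ m ++ p := by rw [← h]; simp
  exact List.append_cancel_left (List.append_cancel_right this)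

theorem t0 [Finite α] (T P D : Set (List α)) (L0 C : ℕ) (h1 : [] ∈ T) (hD0 : [] ∉ D)
    (hPb : ∀ p ∈ P, p.length ≤ C) (hDb : ∀ d ∈ D, d.length ≤ C)
    (hex : ∀ w : List α, ∃ t ∈ T, ∃ p ∈ P, w = t ++ p)
    (huniq : ∀ t ∈ T, ∀ t' ∈ T, ∀ p ∈ P, ∀ p' ∈ P, t ++ p = t' ++ p' → t = t')
    (hsuf : ∀ d ∈ D, ∀ d' ∈ D, d <:+ d' → d = d')
    (hcov : ∀ w : List α, L0 ≤ w.length → ∃ d ∈ D, d <:+ w)
    (hgood : ∀ p ∈ P, ∀ d ∈ D, (∀ t ∈ T, t ++ p ++ d ∈ T) ∨ (∀ t ∈ T, t ++ p ++ d ∉ T)) :
    ∃ Y : Finset (List α), (∀ p ∈ P, ∀ d ∈ D, (∀ t ∈ T, t ++ p ++ d ∈ T) → p ++ d ∈ Y) ∧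
      IsCode (Y : Set (List α)) ∧ IsComplete (Y : Set (List α)) := by
  obtain ⟨Y, hY⟩ := exists_finset_of_le (α := α) (C + C)
    (fun w => ∃ p ∈ P, ∃ d ∈ D, w = p ++ d ∧ ∀ t ∈ T, t ++ p ++ d ∈ T) (by
      rintro w ⟨p, hp, d, hd, rfl, -⟩
      have := hPb p hp
      have := hDb d hd
      simp only [List.length_append]; omega)
  have hTY : ∀ t ∈ T, ∀ y ∈ Y, t ++ y ∈ T := by
    intro t ht y hy
    obtain ⟨p, hp, d, hd, rfl, h⟩ := (hY y).1 hy
    rw [← List.append_assoc]; exact h t ht
  have hY0 : [] ∉ Y := by
    intro h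
    obtain ⟨p, hp, d, hd, e, -⟩ := (hY _).1 h
    have : d = [] := (List.append_eq_nil_iff.1 e.symm).2
    exact hD0 (this ▸ hd)
  have hcancel : ∀ t ∈ T, ∀ t' ∈ T, ∀ y ∈ Y, ∀ y' ∈ Y, t ++ y = t' ++ y' → y = y' := by
    intro t ht t' ht' y hy y' hy' e
    obtain ⟨p, hp, d, hd, rfl, -⟩ := (hY y).1 hy
    obtain ⟨p', hp', d', hd', rfl, -⟩ := (hY y').1 hy'
    have hdd : d = d' := by
      have a1 : d <:+ t ++ (p ++ d) := ⟨t ++ p, by simp⟩
      have a2 : d' <:+ t ++ (p ++ d) := ⟨t' ++ p', by rw [e]; simp⟩
      rcases List.suffix_or_suffix_of_suffix a1 a2 with h | h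
      · exact hsuf d hd d' hd' h
      · exact (hsuf d' hd' d hd h).symm
    subst hdd
    have e' : t ++ p = t' ++ p' := by
      have : (t ++ p) ++ d = (t' ++ p') ++ d := by simpa using e
      exact List.append_cancel_right this
    have := huniq t ht t' ht' p hp p' hp' e'
    subst this
    rw [List.append_cancel_left e']
  have hflat : ∀ l : List (List α), (∀ x ∈ l, x ∈ Y) → l.flatten ∈ T := by
    intro l
    induction l using List.reverseRecOn with
    | nil => intro _; simpa using h1
    | append_singleton l x ih =>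
      intro h
      rw [List.flatten_append]
      simp only [List.flatten_cons, List.flatten_nil, List.append_nil]
      exact hTY _ (ih (fun y hy => h y (by simp [hy]))) x (h x (by simp))
  refine ⟨Y, fun p hp d hd h => (hY _).2 ⟨p, hp, d, hd, rfl, h⟩, ?_, ?_⟩
  · intro l₁
    induction l₁ using List.reverseRecOn with
    | nil =>
      intro l₂ _ h2 e
      cases l₂ with
      | nil => rfl
      | cons x l =>
        exfalso
        simp only [List.flatten_nil, List.flatten_cons] at e
        have : x = [] := (List.append_eq_nil_iff.1 e.symm).1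
        exact hY0 (this ▸ h2 x (by simp))
    | append_singleton l x ih =>
      intro l₂
      induction l₂ using List.reverseRecOn with
      | nil =>
        intro h2 _ e
        exfalso
        simp only [List.flatten_append, List.flatten_nil, List.flatten_cons,
          List.append_nil] at e
        have : x = [] := (List.append_eq_nil_iff.1 e).2
        exact hY0 (this ▸ h2 x (by simp))
      | append_singleton l' x' _ =>
        intro h2 h3 e
        simp only [List.flatten_append, List.flatten_nil, List.flatten_cons,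
          List.append_nil] at e
        have hl : ∀ y ∈ l, y ∈ Y := fun y hy => h2 y (by simp [hy])
        have hl' : ∀ y ∈ l', y ∈ Y := fun y hy => h3 y (by simp [hy])
        have hx := hcancel _ (hflat l hl) _ (hflat l' hl') x (h2 x (by simp)) x'
          (h3 x' (by simp)) e
        subst hx
        rw [ih l' hl hl' (List.append_cancel_right e)]
  · have hlong : ∀ n : ℕ, ∀ t ∈ T, t.length ≤ n → ∃ (s : List α) (l : List (List α)),
        s.length < L0 + 1 ∧ (∀ x ∈ l, x ∈ Y) ∧ t = s ++ l.flatten := by
      intro n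
      induction n with
      | zero =>
        intro t ht hn
        exact ⟨t, [], by omega, by simp, by simp⟩
      | succ n ih =>
        intro t ht hn
        by_cases hL : t.length < L0
        · exact ⟨t, [], by omega, by simp, by simp⟩
        · push Not at hL
          obtain ⟨d, hd, w, hw⟩ := hcov t hL
          obtain ⟨t1, ht1, p, hp, e⟩ := hex w
          have hall : ∀ t ∈ T, t ++ p ++ d ∈ T := by
            rcases hgood p hp d hd with h | h
            · exact h
            · exfalso
              apply h t1 ht1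
              rw [← e, hw]; exact ht
          have hy : p ++ d ∈ Y := (hY _).2 ⟨p, hp, d, hd, rfl, hall⟩
          have hd0 : 0 < d.length := List.length_pos_iff.2 (fun h => hD0 (h ▸ hd))
          have hlen : t.length = t1.length + p.length + d.length := by
            rw [← hw, e]; simp only [List.length_append]
          obtain ⟨s, l, hs, hl, e2⟩ := ih t1 ht1 (by omega)
          refine ⟨s, l ++ [p ++ d], hs, ?_, ?_⟩
          · intro x hx
            rcases List.mem_append.1 hx with h | h
            · exact hl x h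
            · simp only [List.mem_singleton] at h
              rw [h]; exact hy
          · rw [← hw, e, e2]; simp
    intro w
    by_cases hw0 : w = []
    · subst hw0
      exact ⟨[], [], [], by simp, by simp⟩
    have hwpos : 0 < w.length := List.length_pos_iff.2 hw0
    set W := (List.replicate (L0) w).flatten ++ w ++ (List.replicate C w).flatten with hW
    obtain ⟨t, ht, p, hp, e⟩ := hex W
    obtain ⟨s, l, hs, hl, e2⟩ := hlong t.length t ht le_rfl
    have hfl : ∀ k : ℕ, k ≤ (List.replicate k w).flatten.length := by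
      intro k
      simp only [List.length_flatten, List.map_replicate, List.sum_replicate, smul_eq_mul]
      nlinarith
    obtain ⟨u, v, huv⟩ := factor_of_lengths (x := (List.replicate (L0) w).flatten) (y := w)
      (z := (List.replicate C w).flatten) (t := s) (m := l.flatten) (p := p)
      (by rw [← hW, e, e2]) (by have := hfl L0; omega) (by have := hfl C; have := hPb p hp; omega)
    exact ⟨u, v, l, hl, huv⟩

end Pool.Agent.H93.TW
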